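import Mathlib

/-!
The chain of palindromes `cN m` over the letters `0, 1, 2, ..`: `cN 0 = 0`,
`cN (m + 1) = cN m s cN m` with `s` the letter `m / 2 + 1`, once for even `m` and twice for odd
`m`; the last word `RN M (2 M - 1)` is the square of `cN (2 M - 2)`.
-/

namespace Pool.Agent.Helper77.Odd

theorem get_l {α : Type*} {A B C : List α} {i : ℕ} (h : i < A.length) :
    (A ++ B ++ C)[i]? = A[i]? := by
  rw [List.append_assoc, List.getElem?_append_left h]

theorem get_m {α : Type*} {A B C : List α} {i : ℕ} (h : A.length ≤ i)
    (h' : i < A.length + B.length) : (A ++ B ++ C)[i]? = B[i - A.length]? := by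
  rw [List.getElem?_append_left (by rw [List.length_append]; exact h'),
    List.getElem?_append_right h]

theorem get_r {α : Type*} {A B C : List α} {i : ℕ} (h : A.length + B.length ≤ i) :
    (A ++ B ++ C)[i]? = C[i - (A.length + B.length)]? := by
  rw [List.getElem?_append_right (by rw [List.length_append]; exact h), List.length_append]

theorem pal_get {α : Type*} {w : List α} (h : w.reverse = w) {y z : ℕ}
    (hyz : y + z + 1 = w.length) : w[y]? = w[z]? := by
  have h1 : w.reverse[y]? = w[w.length - 1 - y]? := List.getElem?_reverse (by omega)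
  rw [h] at h1
  rw [h1]
  congr 1
  omega

/-- number of letters of the separator -/
def cg (m : ℕ) : ℕ := if m % 2 = 0 then 1 else 2

/-- the chain -/
def cN : ℕ → List ℕ
  | 0 => [0]
  | m + 1 => cN m ++ List.replicate (cg m) (m / 2 + 1) ++ cN m

theorem cN_succ (m : ℕ) : cN (m + 1) = cN m ++ List.replicate (cg m) (m / 2 + 1) ++ cN m := rfl

theorem cg_even {m : ℕ} (h : m % 2 = 0) : cg m = 1 := by unfold cg; rw [if_pos h]

theorem cg_odd {m : ℕ} (h : m % 2 = 1) : cg m = 2 := by unfold cg; rw [if_neg (by omega)]

theorem cg_pos (m : ℕ) : 1 ≤ cg m := by unfold cg; split_ifs <;> omega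

theorem cg_le (m : ℕ) : cg m ≤ 2 := by unfold cg; split_ifs <;> omega

theorem cN_pal (m : ℕ) : (cN m).reverse = cN m := by
  induction m with
  | zero => rfl
  | succ m ih => rw [cN_succ]; simp [ih]

theorem cN_len (m : ℕ) : (cN (m + 1)).length = 2 * (cN m).length + cg m := by
  rw [cN_succ]; simp; omega

theorem cN_pos (m : ℕ) : 1 ≤ (cN m).length := by
  induction m with
  | zero => simp [cN]
  | succ m ih => rw [cN_len]; omega

theorem cN_le {m z : ℕ} (h : z ∈ cN m) : z ≤ (m + 1) / 2 := by
  induction m with
  | zero => simp [cN] at h; omega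
  | succ m ih =>
    rw [cN_succ, List.mem_append, List.mem_append, List.mem_replicate] at h
    rcases h with (h | h) | h
    · have := ih h; omega
    · omega
    · have := ih h; omega

theorem cN_get_le {m i z : ℕ} (h : (cN m)[i]? = some z) : z ≤ (m + 1) / 2 :=
  cN_le (List.mem_of_getElem? h)

theorem cN_isPre {m n : ℕ} (h : m ≤ n) : cN m <+: cN n := by
  induction n, h using Nat.le_induction with
  | base => exact List.prefix_refl _
  | succ n hn ih =>
    refine ih.trans ?_
    rw [cN_succ, List.append_assoc]
    exact List.prefix_append _ _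

theorem cN_get_zero (m : ℕ) : (cN m)[0]? = some 0 := by
  obtain ⟨r, hr⟩ := cN_isPre (Nat.zero_le m)
  rw [← hr]
  rfl

theorem cN_get_last (m : ℕ) : (cN m)[(cN m).length - 1]? = some 0 := by
  rw [pal_get (cN_pal m) (z := 0) (by have := cN_pos m; omega)]
  exact cN_get_zero m

theorem some_of_lt {α : Type*} {w : List α} {i : ℕ} (h : i < w.length) : ∃ a, w[i]? = some a :=
  ⟨w[i], List.getElem?_eq_getElem h⟩

theorem lt_of_some {α : Type*} {w : List α} {i : ℕ} {a : α} (h : w[i]? = some a) :
    i < w.length := by
  rw [List.getElem?_eq_some_iff] at h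
  exact h.1

/-- no two adjacent zeros. -/
theorem cN_no00 (m : ℕ) : ∀ i, ¬ ((cN m)[i]? = some 0 ∧ (cN m)[i + 1]? = some 0) := by
  induction m with
  | zero =>
    rintro i ⟨_, h2⟩
    have := lt_of_some h2
    simp [cN] at this
  | succ m ih =>
    rintro i ⟨h1, h2⟩
    have hg := cg_pos m
    have hlen := lt_of_some h2
    rw [cN_len] at hlen
    rw [cN_succ] at h1 h2
    have hr : (List.replicate (cg m) (m / 2 + 1)).length = cg m := List.length_replicate
    rcases Nat.lt_or_ge (i + 1) (cN m).length with h | h
    · rw [get_l (by omega)] at h1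
      rw [get_l (by omega)] at h2
      exact ih i ⟨h1, h2⟩
    · rcases Nat.lt_or_ge (i + 1) ((cN m).length + cg m) with h' | h'
      · rw [get_m (by omega) (by omega), List.getElem?_replicate_of_lt (by omega)] at h2
        simp at h2
      · rcases Nat.lt_or_ge i ((cN m).length + cg m) with h'' | h''
        · rw [get_m (by omega) (by omega), List.getElem?_replicate_of_lt (by omega)] at h1
          simp at h1
        · rw [get_r (by omega), hr] at h1
          rw [get_r (by omega), hr, show i + 1 - ((cN m).length + cg m) =
            i - ((cN m).length + cg m) + 1 by omega] at h2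
          exact ih _ ⟨h1, h2⟩

/-- positions of the separator letter, `m` even -/
theorem sep_even {m i : ℕ} (hm : m % 2 = 0) (h : (cN (m + 1))[i]? = some (m / 2 + 1)) :
    i = (cN m).length := by
  have hlen := lt_of_some h
  rw [cN_len, cg_even hm] at hlen
  rw [cN_succ] at h
  have hr : (List.replicate (cg m) (m / 2 + 1)).length = cg m := List.length_replicate
  rw [cg_even hm] at hr h
  rcases Nat.lt_or_ge i (cN m).length with h1 | h1
  · rw [get_l h1] at h
    have := cN_get_le h
    omega
  · rcases Nat.lt_or_ge i ((cN m).length + 1) with h2 | h2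
    · omega
    · rw [get_r (by omega)] at h
      have := cN_get_le h
      omega

theorem sep_even_get {m : ℕ} (hm : m % 2 = 0) :
    (cN (m + 1))[(cN m).length]? = some (m / 2 + 1) := by
  rw [cN_succ, cg_even hm, get_m le_rfl (by simp)]
  simp

theorem sep_odd_get {m : ℕ} (hm : m % 2 = 1) :
    (cN (m + 1))[(cN m).length]? = some (m / 2 + 1) ∧
    (cN (m + 1))[(cN m).length + 1]? = some (m / 2 + 1) := by
  rw [cN_succ, cg_odd hm, get_m le_rfl (by simp), get_m (by omega) (by simp)]
  simp

/-- positions of the separator letter, `m` odd -/
theorem sep_odd {m i : ℕ} (hm : m % 2 = 1) (h : (cN (m + 1))[i]? = some (m / 2 + 1)) :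
    i = (cN (m - 1)).length ∨ i = (cN m).length ∨ i = (cN m).length + 1 ∨
      i = (cN m).length + 2 + (cN (m - 1)).length := by
  obtain ⟨m, rfl⟩ : ∃ m', m = m' + 1 := ⟨m - 1, by omega⟩
  have hlen := lt_of_some h
  rw [cN_len, cg_odd hm] at hlen
  rw [cN_succ (m + 1)] at h
  have hr : (List.replicate (cg (m + 1)) ((m + 1) / 2 + 1)).length = cg (m + 1) :=
    List.length_replicate
  rw [cg_odd hm] at hr h
  have e : (m + 1) / 2 + 1 = m / 2 + 1 := by omega
  rw [Nat.add_sub_cancel]
  rcases Nat.lt_or_ge i (cN (m + 1)).length with h1 | h1
  · rw [get_l h1, e] at h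
    exact Or.inl (sep_even (by omega) h)
  · rcases Nat.lt_or_ge i ((cN (m + 1)).length + 2) with h2 | h2
    · omega
    · rw [get_r (by omega), hr, e] at h
      have := sep_even (by omega) h
      omega

/-- overlap-free -/
def Ovf {α : Type*} (w : List α) : Prop :=
  ∀ i p, 1 ≤ p → i + 2 * p + 1 ≤ w.length → ¬ ∀ t ≤ p, w[i + t]? = w[i + p + t]?

theorem ovf_split {α : Type*} {A B C : List α} (hA : Ovf A) (hC : Ovf C)
    (h : ∀ i p, 1 ≤ p → i + 2 * p + 1 ≤ (A ++ B ++ C).length → A.length ≤ i + 2 * p →
      i < A.length + B.length → ¬ ∀ t ≤ p, (A ++ B ++ C)[i + t]? = (A ++ B ++ C)[i + p + t]?) :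
    Ovf (A ++ B ++ C) := by
  intro i p hp hlen hm
  rcases Nat.lt_or_ge (i + 2 * p) A.length with h1 | h1
  · apply hA i p hp (by omega)
    intro t ht
    have := hm t ht
    rw [get_l (by omega), get_l (by omega)] at this
    exact this
  · rcases Nat.lt_or_ge i (A.length + B.length) with h2 | h2
    · exact h i p hp hlen h1 h2 hm
    · simp only [List.length_append] at hlen
      apply hC (i - (A.length + B.length)) p hp (by omega)
      intro t ht
      have := hm t ht
      rw [get_r (by omega), get_r (by omega)] at this
      rw [show i - (A.length + B.length) + t = i + t - (A.length + B.length) by omega, this]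
      congr 1
      omega

theorem cN_ovf (m : ℕ) : Ovf (cN m) := by
  induction m with
  | zero =>
    intro i p hp hlen
    simp [cN] at hlen
    omega
  | succ m ih =>
    rw [cN_succ]
    apply ovf_split ih ih
    intro i p hp hlen h1 h2 hm
    rw [← cN_succ] at hlen hm
    have hL := cN_len m
    rw [List.length_replicate] at h2
    rcases Nat.mod_two_eq_zero_or_one m with he | ho
    · rw [cg_even he] at hL h2
      have hg := sep_even_get he
      rcases Nat.lt_or_ge (i + p) (cN m).length with h3 | h3
      · have := hm ((cN m).length - i - p) (by omega)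
        rw [show i + p + ((cN m).length - i - p) = (cN m).length by omega, hg] at this
        have := sep_even he this
        omega
      · have := hm ((cN m).length - i) (by omega)
        rw [show i + ((cN m).length - i) = (cN m).length by omega, hg] at this
        have := sep_even he this.symm
        omega
    · rw [cg_odd ho] at hL h2
      obtain ⟨hg, hg'⟩ := sep_odd_get ho
      obtain ⟨m, rfl⟩ : ∃ m', m = m' + 1 := ⟨m - 1, by omega⟩
      have hL' := cN_len m
      rw [cg_even (by omega)] at hL'
      rcases Nat.lt_or_ge (i + 2 * p) ((cN (m + 1)).length + 1) with h3 | h3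
      · -- the region ends at the first letter
        have := hm p le_rfl
        rw [show i + p + p = (cN (m + 1)).length by omega, hg] at this
        have := sep_odd ho this
        rw [Nat.add_sub_cancel] at this
        omega
      · rcases Nat.lt_or_ge (cN (m + 1)).length i with h4 | h4
        · have := hm 0 (by omega)
          rw [show i + 0 = (cN (m + 1)).length + 1 by omega, hg'] at this
          have := sep_odd ho this.symm
          rw [Nat.add_sub_cancel] at this
          omega
        · rcases Nat.lt_or_ge (cN (m + 1)).length (i + p) with h5 | h5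
          · have q1 := hm ((cN (m + 1)).length - i) (by omega)
            have q2 := hm ((cN (m + 1)).length - i + 1) (by omega)
            rw [show i + ((cN (m + 1)).length - i) = (cN (m + 1)).length by omega, hg] at q1
            rw [show i + ((cN (m + 1)).length - i + 1) = (cN (m + 1)).length + 1 by omega, hg'] at q2
            have q1 := sep_odd ho q1.symm
            have q2 := sep_odd ho q2.symm
            rw [Nat.add_sub_cancel] at q1 q2
            have := cN_pos m
            omega
          · have q1 := hm ((cN (m + 1)).length - i - p) (by omega)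
            have q2 := hm ((cN (m + 1)).length - i - p + 1) (by omega)
            rw [show i + p + ((cN (m + 1)).length - i - p) = (cN (m + 1)).length by omega, hg] at q1
            rw [show i + p + ((cN (m + 1)).length - i - p + 1) = (cN (m + 1)).length + 1 by omega,
              hg'] at q2
            have q1 := sep_odd ho q1
            have q2 := sep_odd ho q2
            rw [Nat.add_sub_cancel] at q1 q2
            have := cN_pos m
            omega

/-- the runs: `RN M m = cN m` for `m ≠ 2 M - 1`, and the square of `cN (2 M - 2)` for
`m = 2 M - 1`. -/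
def RN (M m : ℕ) : List ℕ := if m = 2 * M - 1 then cN (2 * M - 2) ++ cN (2 * M - 2) else cN m

theorem RN_lt {M m : ℕ} (h : m < 2 * M - 1) : RN M m = cN m := by
  unfold RN; rw [if_neg (by omega)]

theorem RN_top (M : ℕ) : RN M (2 * M - 1) = cN (2 * M - 2) ++ cN (2 * M - 2) := by
  unfold RN; rw [if_pos rfl]

theorem RN_pal (M m : ℕ) : (RN M m).reverse = RN M m := by
  unfold RN
  split_ifs
  · simp [cN_pal]
  · exact cN_pal m

theorem RN_pos (M m : ℕ) : 1 ≤ (RN M m).length := by
  unfold RN
  split_ifs
  · have := cN_pos (2 * M - 2); simp; omega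
  · exact cN_pos m

theorem RN_mem_lt {M m z : ℕ} (hM : 1 ≤ M) (hm : m ≤ 2 * M - 1) (h : z ∈ RN M m) : z < M := by
  unfold RN at h
  split_ifs at h with h1
  · rw [List.mem_append] at h
    rcases h with h | h <;> · have := cN_le h; omega
  · have := cN_le h; omega

theorem RN_top_ovf (M : ℕ) : Ovf (RN M (2 * M - 1)) := by
  rw [RN_top]
  have key := cN_ovf (2 * M - 2)
  have h00 := cN_no00 (2 * M - 2)
  have hf := cN_get_zero (2 * M - 2)
  have hl := cN_get_last (2 * M - 2)
  have hp := cN_pos (2 * M - 2)
  generalize cN (2 * M - 2) = v at *
  -- pairs of zeros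
  have hz : ∀ i, (v ++ v)[i]? = some 0 → (v ++ v)[i + 1]? = some 0 → i + 1 = v.length := by
    intro i h1 h2
    have hlen := lt_of_some h2
    rw [List.length_append] at hlen
    by_contra hcon
    rcases Nat.lt_or_ge (i + 1) v.length with h | h
    · rw [List.getElem?_append_left (by omega)] at h1 h2
      exact h00 i ⟨h1, h2⟩
    · rw [List.getElem?_append_right (by omega)] at h1 h2
      rw [show i + 1 - v.length = i - v.length + 1 by omega] at h2
      exact h00 _ ⟨h1, h2⟩
  have hz1 : (v ++ v)[v.length - 1]? = some 0 := by
    rw [List.getElem?_append_left (by omega)]; exact hl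
  have hz2 : (v ++ v)[v.length]? = some 0 := by
    rw [List.getElem?_append_right (by omega), Nat.sub_self]; exact hf
  have := ovf_split (A := v) (B := []) (C := v) key key (by
    intro i p hp1 hlen h1 h2 hm
    rw [List.append_nil] at hm hlen
    rw [List.length_append] at hlen
    simp only [List.length_nil, add_zero] at h2
    rcases Nat.lt_or_ge (v.length - 1) (i + p) with h3 | h3
    · have q1 := hm (v.length - 1 - i) (by omega)
      have q2 := hm (v.length - 1 - i + 1) (by omega)
      rw [show i + (v.length - 1 - i) = v.length - 1 by omega, hz1] at q1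
      rw [show i + (v.length - 1 - i + 1) = v.length by omega, hz2] at q2
      have := hz _ q1.symm (by rw [← q2.symm]; congr 1)
      omega
    · have q1 := hm (v.length - 1 - i - p) (by omega)
      have q2 := hm (v.length - 1 - i - p + 1) (by omega)
      rw [show i + p + (v.length - 1 - i - p) = v.length - 1 by omega, hz1] at q1
      rw [show i + p + (v.length - 1 - i - p + 1) = v.length by omega, hz2] at q2
      have := hz _ q1 (by rw [← q2]; congr 1)
      omega)
  rw [List.append_nil] at this
  exact this

/-- a run is an initial part of the next one, followed by a letter. -/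
theorem RN_step {M m m' : ℕ} (hM : 2 ≤ M) (h : m < m') (h' : m' ≤ 2 * M - 1) :
    RN M m <+: RN M m' ∧ (RN M m).length < (RN M m').length := by
  have key : ∀ n, m < n → n < 2 * M - 1 → RN M m <+: RN M n ∧
      (RN M m).length < (RN M n).length := by
    intro n h1 h2
    rw [RN_lt (by omega), RN_lt h2]
    refine ⟨cN_isPre h1.le, ?_⟩
    obtain ⟨n, rfl⟩ : ∃ n', n = n' + 1 := ⟨n - 1, by omega⟩
    have h3 := (cN_isPre (show m ≤ n by omega)).length_le
    rw [cN_len]
    have := cN_pos n
    omega
  rcases Nat.lt_or_ge m' (2 * M - 1) with h1 | h1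
  · exact key m' h h1
  · obtain rfl : m' = 2 * M - 1 := by omega
    rw [RN_top, List.length_append]
    have hp := cN_pos (2 * M - 2)
    rw [RN_lt h]
    have h3 := cN_isPre (show m ≤ 2 * M - 2 by omega)
    have h4 := h3.length_le
    exact ⟨h3.trans (List.prefix_append _ _), by omega⟩

theorem RN_get_zero (M m : ℕ) : (RN M m)[0]? = some 0 := by
  unfold RN
  have := cN_pos (2 * M - 2)
  split_ifs
  · rw [List.getElem?_append_left (by omega)]; exact cN_get_zero _
  · exact cN_get_zero m

theorem RN_get_last (M m : ℕ) : (RN M m)[(RN M m).length - 1]? = some 0 := by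
  rw [pal_get (RN_pal M m) (z := 0) (by have := RN_pos M m; omega)]
  exact RN_get_zero M m

/-- length of the previous run -/
def pl (M m : ℕ) : ℕ := if m = 0 then 0 else (RN M (m - 1)).length

/-- new palindromes in a run -/
theorem RN_new {M m n : ℕ} (hM : 2 ≤ M) (hm : m ≤ 2 * M - 1) (h1 : pl M m < n)
    (h2 : n ≤ (RN M m).length) : ∃ a h q, a ≤ h ∧ h + q ≤ n ∧ 1 ≤ q ∧ pl M m < h + q ∧
      (∀ t < n - a, (RN M m)[a + t]? = (RN M m)[n - 1 - t]?) ∧
      ∀ t < h, ¬ ∀ r < q, (RN M m)[t + r]? = (RN M m)[h + r]? := by
  unfold pl at *
  rcases Nat.eq_zero_or_pos m with h0 | h0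
  · subst h0
    rw [if_pos rfl] at h1
    rw [RN_lt (by omega)] at h2 ⊢
    simp only [cN, List.length_singleton] at h2
    obtain rfl : n = 1 := by omega
    refine ⟨0, 0, 1, le_rfl, le_rfl, le_rfl, by simp, ?_, ?_⟩
    · intro t ht
      congr 1
      omega
    · intro t ht
      omega
  · rw [if_neg (by omega)] at h1
    rw [if_neg (by omega)]
    obtain ⟨m, rfl⟩ : ∃ m', m = m' + 1 := ⟨m - 1, by omega⟩
    rw [Nat.add_sub_cancel] at h1 ⊢
    rw [RN_lt (show m < 2 * M - 1 by omega)] at h1 ⊢
    rcases Nat.lt_or_ge (m + 1) (2 * M - 1) with h3 | h3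
    · rw [RN_lt h3] at h2 ⊢
      have hL := cN_len m
      rcases Nat.mod_two_eq_zero_or_one m with he | ho
      · rw [cg_even he] at hL
        refine ⟨(cN (m + 1)).length - n, (cN m).length, 1, by omega, by omega, le_rfl, by omega,
          ?_, ?_⟩
        · intro t ht
          exact pal_get (cN_pal _) (by omega)
        · intro t ht hq
          have := hq 0 (by omega)
          rw [add_zero, add_zero, sep_even_get he] at this
          have := sep_even he this
          omega
      · rw [cg_odd ho] at hL
        obtain ⟨g1, g2⟩ := sep_odd_get ho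
        obtain ⟨m, rfl⟩ : ∃ m', m = m' + 1 := ⟨m - 1, by omega⟩
        have hL' := cN_len m
        rw [cg_even (by omega)] at hL'
        have hp := cN_pos m
        rcases Nat.eq_or_lt_of_le (show (cN (m + 1)).length + 1 ≤ n by omega) with h4 | h4
        · -- the first letter
          have g3 : (cN (m + 1 + 1))[(cN m).length]? = some ((m + 1) / 2 + 1) := by
            have := sep_even_get (show m % 2 = 0 by omega)
            rw [cN_succ (m + 1), get_l (by omega), this]
            congr 1
            omega
          refine ⟨(cN m).length, (cN m).length, (cN m).length + 2, le_rfl, by omega, by omega,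
            by omega, ?_, ?_⟩
          · intro t ht
            rcases Nat.eq_zero_or_pos t with h5 | h5
            · subst h5
              rw [add_zero, g3, show n - 1 - 0 = (cN (m + 1)).length by omega, g1]
            · rcases Nat.lt_or_ge t ((cN m).length + 1) with h6 | h6
              · rw [cN_succ (m + 1), get_l (by omega), get_l (by omega), cN_succ m,
                  get_r (by simp [cg_even (show m % 2 = 0 by omega)]; omega),
                  get_r (by simp [cg_even (show m % 2 = 0 by omega)]; omega)]
                apply pal_get (cN_pal m)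
                simp [cg_even (show m % 2 = 0 by omega)]
                omega
              · rw [show (cN m).length + t = (cN (m + 1)).length by omega, g1,
                  show n - 1 - t = (cN m).length by omega, g3]
          · intro t ht hq
            have := hq 0 (by omega)
            rw [add_zero, add_zero, g3] at this
            have := sep_odd ho this
            rw [Nat.add_sub_cancel] at this
            omega
        · refine ⟨(cN (m + 1 + 1)).length - n, (cN (m + 1)).length, 2, by omega, by omega,
            by omega, by omega, ?_, ?_⟩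
          · intro t ht
            exact pal_get (cN_pal _) (by omega)
          · intro t ht hq
            have q1 := hq 0 (by omega)
            have q2 := hq 1 (by omega)
            rw [add_zero, add_zero, g1] at q1
            rw [g2] at q2
            have q1 := sep_odd ho q1
            have q2 := sep_odd ho q2
            rw [Nat.add_sub_cancel] at q1 q2
            omega
    · obtain rfl : m = 2 * M - 2 := by omega
      rw [show 2 * M - 2 + 1 = 2 * M - 1 by omega] at h2 ⊢
      have hlen : (RN M (2 * M - 1)).length = 2 * (cN (2 * M - 2)).length := by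
        rw [RN_top, List.length_append]; omega
      have hp := cN_pos (2 * M - 2)
      refine ⟨(RN M (2 * M - 1)).length - n, (cN (2 * M - 2)).length - 1, 2, by omega, by omega,
        by omega, by omega, ?_, ?_⟩
      · intro t ht
        exact pal_get (RN_pal _ _) (by omega)
      · intro t ht hq
        have q1 := hq 0 (by omega)
        have q2 := hq 1 (by omega)
        rw [RN_top, add_zero, add_zero, List.getElem?_append_left (by omega),
          List.getElem?_append_left (by omega), cN_get_last] at q1
        rw [RN_top, List.getElem?_append_left (by omega),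
          show (cN (2 * M - 2)).length - 1 + 1 = (cN (2 * M - 2)).length by omega,
          List.getElem?_append_right le_rfl, Nat.sub_self, cN_get_zero] at q2
        exact cN_no00 _ t ⟨q1, q2⟩

end Pool.Agent.Helper77.Odd
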