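import Pool.Agent.Helper77.Odd.GTower

/-!
Richness of the limit word for general base words (after `Helper20/Rich/RichPart.lean`).
-/

namespace Pool.Agent.Helper77.Odd

open Pool.Agent.Helper20.Rich

variable {α : Type*}

namespace Base

variable {b : Base α}

theorem u_occ (x0 : α) (k : ℕ) : Occ (b.u x0) 0 (b.W false (k + b.j)) := by
  have := u_factor (b := b) x0 k
  unfold Occ
  rwa [length_W]

/-- reflection of the initial palindromes -/
theorem u_reflect (x0 : α) (k : ℕ) {y z : ℕ} (h : y + z + 1 = b.l (k + b.j)) :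
    b.u x0 y = b.u x0 z := by
  have h1 := u_occ (b := b) x0 k
  have h2 := b.W_pal (k + b.j) false
  have h3 : (factor (b.u x0) 0 (b.l (k + b.j))).reverse = factor (b.u x0) 0 (b.l (k + b.j)) := by
    rw [u_factor, h2]
  have := factor_reverse_iff.1 h3 y (by omega)
  rw [zero_add, zero_add] at this
  rw [this]
  congr 1
  omega

theorem pos_one (k : ℕ) : b.pos k 1 = b.l (k + b.j) := by
  rw [show 1 = 0 + 1 by rfl, pos_succ, DD_zero]; simp

theorem pos_two (k : ℕ) : b.pos k 2 = b.l (k + b.j) + b.l k := by
  rw [show 2 = 1 + 1 by rfl, pos_succ, DD_one, pos_one]; simp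

theorem pos_ff_one {k s : ℕ} {σ : Bool} (h : DD b.j s = (σ, b.j)) :
    b.pos k (ff b.j s + 1) = b.pos (k + 1) s + b.l (k + b.j) := by
  rw [pos_succ, (ff_hub h).1, pos_ff]

theorem FO_tc (c : ℕ) : ∀ k s, c < b.j → DD b.j s = (true, c) → b.l (k + c + b.j) ≤ b.pos k s := by
  induction c with
  | zero =>
    intro k s hc h
    obtain ⟨s', h1, h2⟩ := idx_zero b.hj1 h
    rw [← h2, pos_ff_one h1]
    simp
  | succ c ih =>
    intro k s hc h
    obtain ⟨s', h1, h2⟩ := idx_succ hc h
    rw [← h2, ← pos_ff]
    have := ih (k + 1) s' (by omega) h1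
    rwa [show k + (c + 1) + b.j = k + 1 + c + b.j by omega]

theorem FO_tj : ∀ s k, DD b.j s = (true, b.j) → b.l (k + b.j + b.j) ≤ b.pos k s := by
  intro s
  induction s using Nat.strong_induction_on with
  | _ s ih =>
  intro k h
  rcases cases_pos b.j s with ⟨t, τ, c, hc, h1, h2, h3⟩ | ⟨t, τ, h1, h2, h3, h4⟩ |
          ⟨t, τ, h1, h2, h3⟩ | ⟨t, τ, h1, h2, h3, h4⟩
  · rw [h] at h3
    obtain ⟨rfl, h4⟩ := Prod.mk.inj h3
    rw [h2, ← pos_ff]
    have := FO_tc (b := b) c (k + 1) t hc h1
    rwa [show k + b.j + b.j = k + 1 + c + b.j by omega]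
  · rw [h] at h3
    obtain ⟨rfl, _⟩ := Prod.mk.inj h3
    have ht : 1 ≤ t := by
      rcases Nat.eq_zero_or_pos t with h0 | h0
      · subst h0; rw [DD_zero] at h1; simp at h1
      · exact h0
    have h5 := ff_ge b.j ht
    have h6 := ih t (by omega) (k + 1) h1
    rw [h2, ← pos_ff]
    refine le_trans (b.l_mono (by omega) (by omega)) h6
  · rw [h] at h3
    have := (Prod.mk.inj h3).2
    have := b.hj
    omega
  · rw [h] at h3
    obtain ⟨rfl, _⟩ := Prod.mk.inj h3
    have ht : 1 ≤ t := by
      rcases Nat.eq_zero_or_pos t with h0 | h0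
      · subst h0; rw [DD_zero] at h1; simp at h1
      · exact h0
    have h5 := ff_ge b.j ht
    have h6 := ih t (by omega) (k + 1) h1
    have h7 := pos_mono (b := b) k (show ff b.j t ≤ s by omega)
    rw [← pos_ff] at h7
    refine le_trans (le_trans (b.l_mono (by omega) (by omega)) h6) h7

theorem FO_fc (c : ℕ) : ∀ k s, c < b.j → DD b.j s = (false, c) →
    b.l (k + c + 1 + b.j + b.j) + b.l (k + c + b.j) ≤ b.pos k s := by
  induction c with
  | zero =>
    intro k s hc h
    obtain ⟨s', h1, h2⟩ := idx_zero b.hj1 h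
    rw [← h2, pos_ff_one h1]
    have := FO_tj (b := b) s' (k + 1) h1
    simp only [add_zero]
    omega
  | succ c ih =>
    intro k s hc h
    obtain ⟨s', h1, h2⟩ := idx_succ hc h
    rw [← h2, ← pos_ff]
    have := ih (k + 1) s' (by omega) h1
    rwa [show k + (c + 1) + 1 + b.j + b.j = k + 1 + c + 1 + b.j + b.j by omega,
      show k + (c + 1) + b.j = k + 1 + c + b.j by omega]

/-- an index `< j` letter, pulled down to index `0` -/
theorem down (c : ℕ) : ∀ (k s : ℕ) (σ : Bool), c < b.j → DD b.j s = (σ, c) →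
    ∃ s', DD b.j s' = (!σ, b.j) ∧ b.pos k s = b.pos (k + c + 1) s' + b.l (k + c + b.j) := by
  induction c with
  | zero =>
    intro k s σ hc h
    obtain ⟨s', h1, h2⟩ := idx_zero b.hj1 h
    exact ⟨s', h1, by rw [← h2, pos_ff_one h1]; simp⟩
  | succ c ih =>
    intro k s σ hc h
    obtain ⟨s', h1, h2⟩ := idx_succ hc h
    obtain ⟨s'', h3, h4⟩ := ih (k + 1) s' σ (by omega) h1
    refine ⟨s'', h3, ?_⟩
    rw [← h2, ← pos_ff, h4, show k + (c + 1) + 1 = k + 1 + c + 1 by omega,
      show k + (c + 1) + b.j = k + 1 + c + b.j by omega]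

variable {x0 : α}

/-- Case A: the initial part ends inside the second half, the centre is the separator. -/
theorem new_A (h0 : b.NatBase x0) {k x : ℕ} (hk : b.j ≤ k) (hx : x ≤ b.l (k + b.j)) :
    New (b.u x0) (b.l (k + b.j) + b.l k + x) := by
  have hj := b.hj
  have hlk := b.l_pos hk
  have hL := b.l_succ (n := k + b.j) (by omega)
  rw [Nat.add_sub_cancel] at hL
  refine ⟨b.l (k + b.j) - x, by omega, ?_, ?_⟩
  · intro t ht
    apply u_reflect x0 (k + 1)
    rw [show k + 1 + b.j = k + b.j + 1 by omega, hL]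
    omega
  · intro a' ha' hmatch
    -- the separator occurs at a' + x
    have hocc1 : Occ (b.u x0) (b.l (k + b.j)) (b.W true k) := by
      have h1 := pos_block x0 (b := b) k 1
      rw [DD_one, pos_one] at h1
      simpa using h1
    have hocc : Occ (b.u x0) (a' + x) (b.W true k) := by
      apply Occ.of_get
      intro t ht
      rw [length_W] at ht
      rw [hocc1.get' (by rw [length_W]; exact ht)]
      have := hmatch (x + t) (by omega)
      rw [show a' + x + t = a' + (x + t) by omega, this]
      congr 2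
      omega
    obtain ⟨κ, rfl⟩ : ∃ κ, k = κ + b.j := ⟨k - b.j, by omega⟩
    obtain ⟨s, hs, hpos⟩ := nat_occ h0 κ true _ hocc
    have := FO_tj (b := b) s κ hs
    omega

/-- Case 2a -/
theorem new_B1 (h0 : b.NatBase x0) {k v : ℕ} (hv : 1 ≤ v) (hvk : v ≤ b.l (k + 1))
    (hpre : (b.W true (k + 1)).take v <+: b.W true k ++ b.W false (k + b.j)) :
    New (b.u x0) (b.l (k + 1 + b.j) + v) := by
  have hj := b.hj
  have hL := b.l_succ (n := k + b.j) (by omega)
  rw [Nat.add_sub_cancel] at hL
  have hL' : b.l (k + 1 + b.j) = 2 * b.l (k + b.j) + b.l k := by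
    rw [← hL]; congr 1; omega
  have hvle : v ≤ b.l k + b.l (k + b.j) := by
    have := hpre.length_le
    rw [List.length_take, List.length_append, length_W, length_W, length_W, min_eq_left hvk] at this
    exact this
  -- letters to the right of position L_{k+1}
  have hright : ∀ y < v, (b.W true (k + 1))[y]? = some (b.u x0 (b.l (k + 1 + b.j) + y)) := by
    intro y hy
    have h1 := pos_block x0 (b := b) (k + 1) 1
    rw [DD_one, pos_one] at h1
    simp only [add_zero] at h1
    exact h1.get' (by rw [length_W]; omega)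
  -- letters to the left of the last hub
  have hleft : ∀ y < v, (b.W true k ++ b.W false (k + b.j))[y]? =
      some (b.u x0 (b.l (k + b.j) + b.l k - 1 - y)) := by
    intro y hy
    have h1 : Occ (b.u x0) 0 (b.W false (k + b.j) ++ b.W true k) := by
      have h2 := u_occ (b := b) x0 (k + 1)
      rw [show k + 1 + b.j = k + b.j + 1 by omega, b.W_succ (by omega), Nat.add_sub_cancel] at h2
      exact (occ_append.1 h2).1
    have h3 : (b.W true k ++ b.W false (k + b.j)) =
        (b.W false (k + b.j) ++ b.W true k).reverse := by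
      rw [List.reverse_append, b.W_pal, b.W_pal]
    rw [h3, List.getElem?_reverse (by simp; omega), h1.get' (by simp; omega)]
    simp only [List.length_append, length_W, zero_add]
  refine ⟨b.l (k + b.j) + b.l k - v, by omega, ?_, ?_⟩
  · intro t ht
    rcases Nat.lt_or_ge t v with h1 | h1
    · -- left part against right part
      have e1 : b.l (k + b.j) + b.l k - v + t = b.l (k + b.j) + b.l k - 1 - (v - 1 - t) := by omega
      have e2 : b.l (k + 1 + b.j) + v - 1 - t = b.l (k + 1 + b.j) + (v - 1 - t) := by omega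
      rw [e1, e2]
      have h2 := hleft (v - 1 - t) (by omega)
      have h3 := hright (v - 1 - t) (by omega)
      have h4 : ((b.W true (k + 1)).take v)[v - 1 - t]? =
          some (b.u x0 (b.l (k + 1 + b.j) + (v - 1 - t))) := by
        rw [List.getElem?_take, if_pos (by omega), h3]
      rw [getElem?_of_isPre hpre h4] at h2
      exact (Option.some.inj h2).symm
    · rcases Nat.lt_or_ge t (v + b.l (k + b.j)) with h2 | h2
      · -- inside the hub
        have hh : Occ (b.u x0) (b.l (k + b.j) + b.l k) (b.W false (k + b.j)) := by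
          have h3 := pos_block x0 (b := b) k 2
          have h4 : DD b.j 2 = (false, b.j) := by
            have := (ff_hub (DD_zero b.j)).2.2.1
            simpa using this
          rw [h4, pos_two] at h3
          exact h3
        have hpal : (factor (b.u x0) (b.l (k + b.j) + b.l k) (b.l (k + b.j))).reverse =
            factor (b.u x0) (b.l (k + b.j) + b.l k) (b.l (k + b.j)) := by
          unfold Occ at hh
          rw [length_W] at hh
          rw [hh, b.W_pal]
        have := factor_reverse_iff.1 hpal (t - v) (by omega)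
        have e1 : b.l (k + b.j) + b.l k - v + t = b.l (k + b.j) + b.l k + (t - v) := by omega
        rw [e1, this]
        congr 1
        omega
      · -- right part against left part
        obtain ⟨y, hy⟩ : ∃ y, t = v + b.l (k + b.j) + y := ⟨t - (v + b.l (k + b.j)), by omega⟩
        have e1 : b.l (k + b.j) + b.l k - v + t = b.l (k + 1 + b.j) + y := by omega
        have e2 : b.l (k + 1 + b.j) + v - 1 - t = b.l (k + b.j) + b.l k - 1 - y := by omega
        rw [e1, e2]
        have h2 := hleft y (by omega)
        have h3 := hright y (by omega)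
        have h4 : ((b.W true (k + 1)).take v)[y]? =
            some (b.u x0 (b.l (k + 1 + b.j) + y)) := by
          rw [List.getElem?_take, if_pos (by omega), h3]
        rw [getElem?_of_isPre hpre h4] at h2
        exact Option.some.inj h2
  · intro a' ha' hmatch
    have hh : Occ (b.u x0) (b.l (k + b.j) + b.l k) (b.W false (k + b.j)) := by
      have h3 := pos_block x0 (b := b) k 2
      have h4 : DD b.j 2 = (false, b.j) := by
        have := (ff_hub (DD_zero b.j)).2.2.1
        simpa using this
      rw [h4, pos_two] at h3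
      exact h3
    have hocc : Occ (b.u x0) (a' + v) (b.W false (k + b.j)) := by
      apply Occ.of_get
      intro t ht
      rw [length_W] at ht
      rw [hh.get' (by rw [length_W]; exact ht)]
      have := hmatch (v + t) (by omega)
      rw [show a' + v + t = a' + (v + t) by omega, this]
      congr 2
      omega
    obtain ⟨s, hs, hpos⟩ := nat_occ h0 k false _ hocc
    have hs2 : 2 ≤ s := by
      by_contra hcon
      have : s = 0 ∨ s = 1 := by omega
      rcases this with rfl | rfl
      · rw [pos_zero] at hpos; omega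
      · rw [DD_one] at hs; simp at hs
    have := pos_mono (b := b) k hs2
    rw [pos_two] at this
    omega

end Base

namespace Base

variable {b : Base α} {x0 : α}

/-- neighbours of a hub. -/
theorem side_hub {s : ℕ} {σ : Bool} (hs : 1 ≤ s) (h : DD b.j s = (σ, b.j)) :
    ∃ c c', DD b.j (s - 1) = (!σ, c) ∧ DD b.j (s + 1) = (!σ, c') ∧
      ((c = 0 ∧ 1 ≤ c') ∨ (1 ≤ c ∧ c' = 0) ∨
        (c = b.j ∧ c' = b.j ∧ 2 ≤ s ∧ DD b.j (s - 2) = (σ, 0) ∧ DD b.j (s + 2) = (σ, 0))) := by
  rcases ctx b.hj1 hs with ⟨σ', c', hc', e1, e2, e3⟩ | ⟨σ', c1, c2, e1, e2, e3, e4⟩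
  · rw [h] at e1
    have := (Prod.mk.inj e1).2
    omega
  · rw [h] at e1
    obtain ⟨rfl, _⟩ := Prod.mk.inj e1
    exact ⟨c1, c2, e2, e3, e4⟩

/-- the letter after a hub is on the other side. -/
theorem side_right {s : ℕ} {σ : Bool} (h : DD b.j s = (σ, b.j)) :
    ∃ c', DD b.j (s + 1) = (!σ, c') ∧ c' ≤ b.j := by
  rcases Nat.eq_zero_or_pos s with h0 | h0
  · subst h0
    rw [DD_zero] at h
    obtain ⟨rfl, _⟩ := Prod.mk.inj h
    exact ⟨0, by rw [DD_one]; rfl, by omega⟩
  · obtain ⟨c, c', e1, e2, e3⟩ := side_hub (b := b) h0 h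
    refine ⟨c', e2, ?_⟩
    have := DD_le b.j (s + 1)
    rw [e2] at this
    exact this

/-- a separator is followed by a hub. -/
theorem sep_right {s c : ℕ} {σ : Bool} (hc : c < b.j) (h : DD b.j s = (σ, c)) :
    DD b.j (s + 1) = (!σ, b.j) := by
  have hs : 1 ≤ s := by
    rcases Nat.eq_zero_or_pos s with h0 | h0
    · subst h0
      rw [DD_zero] at h
      have := (Prod.mk.inj h).2
      omega
    · exact h0
  rcases ctx b.hj1 hs with ⟨σ', c', hc', e1, e2, e3⟩ | ⟨σ', c1, c2, e1, e2, e3, e4⟩
  · rw [h] at e1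
    obtain ⟨rfl, _⟩ := Prod.mk.inj e1
    exact e3
  · rw [h] at e1
    have := (Prod.mk.inj e1).2
    omega

theorem sep_left {s c : ℕ} {σ : Bool} (hc : c < b.j) (h : DD b.j s = (σ, c)) :
    1 ≤ s ∧ DD b.j (s - 1) = (!σ, b.j) := by
  have hs : 1 ≤ s := by
    rcases Nat.eq_zero_or_pos s with h0 | h0
    · subst h0
      rw [DD_zero] at h
      have := (Prod.mk.inj h).2
      omega
    · exact h0
  refine ⟨hs, ?_⟩
  rcases ctx b.hj1 hs with ⟨σ', c', hc', e1, e2, e3⟩ | ⟨σ', c1, c2, e1, e2, e3, e4⟩
  · rw [h] at e1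
    obtain ⟨rfl, _⟩ := Prod.mk.inj e1
    exact e2
  · rw [h] at e1
    have := (Prod.mk.inj e1).2
    omega

variable (b) in
/-- the word next to a hub of side `σ` at level `k`, when the neighbour has index `c`. -/
def nw (k : ℕ) (σ : Bool) (c : ℕ) : List α :=
  b.W (!σ) (k + c) ++ (if c < b.j then b.W σ (k + b.j) else [])

variable (b) in
/-- bound for the first difference of `nw k σ c` and `nw k σ c'`, `c < c'`. -/
def TT (k c _c' : ℕ) : ℕ := b.S (k + c)

theorem nw_mis (k : ℕ) (σ : Bool) {c c' : ℕ} (h : c < c') (h' : c' ≤ b.j) :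
    Mis (b.nw k σ c) (b.nw k σ c') (b.TT k c c') := by
  unfold nw TT
  rw [if_pos (show c < b.j by omega)]
  by_cases h2 : k + c' < b.j
  · rw [if_pos (show c' < b.j by omega)]
    have := SM (b := b) (!σ) (r := k + c) (r' := k + c') (m := k + b.j) (n := k + b.j) (by omega) h2
      (by omega) (by omega)
    rw [Bool.not_not] at this
    rw [S_lt (by omega)]
    exact this
  · have := LCP (b := b) (k + c) (!σ) (N := k + c') (M := k + b.j) (by omega) (by omega)
      (by omega) (by omega)
    rw [Bool.not_not] at this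
    exact this.of_isPre (List.prefix_refl _) (List.prefix_append _ _)

theorem mis_of_not_pre {P Q : List α} {x t : ℕ} {a1 a2 : α} (hx : x ≤ P.length)
    (h : ¬ P.take x <+: Q) (h1 : Q[t]? = some a1) (h2 : P[t]? = some a2) (h3 : a1 ≠ a2) :
    ∃ t < x, ∃ a1 a2, Q[t]? = some a1 ∧ P[t]? = some a2 ∧ a1 ≠ a2 := by
  rcases Nat.lt_or_ge t x with htx | htx
  · exact ⟨t, htx, a1, a2, h1, h2, h3⟩
  · by_contra hcon
    push Not at hcon
    apply h
    have hQ : t < Q.length := by
      rw [List.getElem?_eq_some_iff] at h1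
      exact h1.1
    have : P.take x = Q.take x := by
      apply List.ext_getElem?
      intro y
      rw [List.getElem?_take, List.getElem?_take]
      split_ifs with hy
      · have e1 := List.getElem?_eq_getElem (l := P) (i := y) (by omega)
        have e2 := List.getElem?_eq_getElem (l := Q) (i := y) (by omega)
        rw [e1, e2]
        rw [hcon y hy _ _ e2 e1]
      · rfl
    rw [this]
    exact List.take_prefix _ _

theorem nw_right {k s c : ℕ} {σ : Bool} (h : DD b.j s = (σ, b.j))
    (h' : DD b.j (s + 1) = (!σ, c)) :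
    Occ (b.u x0) (b.pos k s + b.l (k + b.j)) (b.nw k σ c) := by
  have h1 := pos_block x0 (b := b) k (s + 1)
  rw [h'] at h1
  have h2 : b.pos k (s + 1) = b.pos k s + b.l (k + b.j) := by rw [pos_succ, h]
  rw [h2] at h1
  unfold nw
  rw [occ_append]
  refine ⟨h1, ?_⟩
  split_ifs with hc
  · have h3 := sep_right hc h'
    rw [Bool.not_not] at h3
    have h4 := pos_block x0 (b := b) k (s + 1 + 1)
    rw [h3, pos_succ, h', h2] at h4
    rw [length_W]
    exact h4
  · rfl

/-- letters to the left of a hub -/
theorem nw_left {k s c : ℕ} {σ : Bool} (hs : 1 ≤ s)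
    (h' : DD b.j (s - 1) = (!σ, c)) {t : ℕ} {a : α} (ha : (b.nw k σ c)[t]? = some a) :
    t < b.pos k s ∧ b.u x0 (b.pos k s - 1 - t) = a := by
  obtain ⟨s, rfl⟩ : ∃ r, s = r + 1 := ⟨s - 1, by omega⟩
  rw [Nat.add_sub_cancel] at h'
  have hrev : (b.nw k σ c).reverse =
      (if c < b.j then b.W σ (k + b.j) else []) ++ b.W (!σ) (k + c) := by
    unfold nw
    rw [List.reverse_append, b.W_pal]
    congr 1
    split_ifs
    · rw [b.W_pal]
    · rfl
  have hocc : ∃ q, b.pos k (s + 1) = q + (b.nw k σ c).length ∧
      Occ (b.u x0) q (b.nw k σ c).reverse := by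
    have h1 := pos_block x0 (b := b) k s
    rw [h'] at h1
    have h2 : b.pos k (s + 1) = b.pos k s + b.l (k + c) := by rw [pos_succ, h']
    rw [hrev]
    unfold nw
    split_ifs with hc
    · obtain ⟨h3, h4⟩ := sep_left hc h'
      obtain ⟨s, rfl⟩ : ∃ r, s = r + 1 := ⟨s - 1, by omega⟩
      rw [Nat.add_sub_cancel, Bool.not_not] at h4
      have h5 := pos_block x0 (b := b) k s
      rw [h4] at h5
      have h6 : b.pos k (s + 1) = b.pos k s + b.l (k + b.j) := by rw [pos_succ, h4]
      refine ⟨b.pos k s, by simp; omega, ?_⟩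
      rw [occ_append]
      refine ⟨h5, ?_⟩
      rw [length_W, ← h6]
      exact h1
    · refine ⟨b.pos k s, by simp; omega, ?_⟩
      rw [List.nil_append]
      exact h1
  obtain ⟨q, hq1, hq2⟩ := hocc
  have ht : t < (b.nw k σ c).length := by
    rw [List.getElem?_eq_some_iff] at ha
    exact ha.1
  refine ⟨by omega, ?_⟩
  rw [show b.pos k (s + 1) - 1 - t = q + ((b.nw k σ c).length - 1 - t) by omega]
  apply hq2.get
  rw [List.getElem?_reverse (by omega)]
  rw [show (b.nw k σ c).length - 1 - ((b.nw k σ c).length - 1 - t) = t by omega]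
  exact ha

/-- Case 2b -/
theorem new_B2 (h0 : b.NatBase x0) {κ x t0 : ℕ} (hx : x ≤ b.l (κ + 2 * b.j)) (ht : t0 < x)
    {a1 a2 : α} (h1 : (b.W true κ ++ b.W false (κ + b.j))[t0]? = some a1)
    (h2 : (b.W true (κ + 2 * b.j))[t0]? = some a2) (hne : a1 ≠ a2) :
    New (b.u x0) (b.l (κ + 2 * b.j + 1 + b.j) + b.l (κ + 2 * b.j) + b.l (κ + b.j) + x) := by
  have hj := b.hj
  -- block structure
  have hW : b.W true (κ + 2 * b.j + 1) =
      b.W true (κ + 2 * b.j) ++ b.W false (κ + b.j) ++ b.W true (κ + 2 * b.j) := by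
    rw [b.W_succ (by omega), show κ + 2 * b.j - b.j = κ + b.j by omega]; rfl
  have hl : b.l (κ + 2 * b.j + 1) = 2 * b.l (κ + 2 * b.j) + b.l (κ + b.j) := by
    rw [b.l_succ (by omega), show κ + 2 * b.j - b.j = κ + b.j by omega]
  have hblk : Occ (b.u x0) (b.l (κ + 2 * b.j + 1 + b.j)) (b.W true (κ + 2 * b.j + 1)) := by
    have h1 := pos_block x0 (b := b) (κ + 2 * b.j + 1) 1
    rw [DD_one, pos_one] at h1
    simpa using h1
  set P := b.l (κ + 2 * b.j + 1 + b.j) with hP
  set A := b.l (κ + 2 * b.j) with hA
  set B := b.l (κ + b.j) with hB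
  have hmid : Occ (b.u x0) (P + A) (b.W false (κ + b.j)) := by
    rw [hW, List.append_assoc] at hblk
    have h3 := (occ_append.1 hblk).2
    rw [length_W] at h3
    exact (occ_append.1 h3).1
  have hlast : Occ (b.u x0) (P + A + B) (b.W true (κ + 2 * b.j)) := by
    rw [hW] at hblk
    have h3 := (occ_append.1 hblk).2
    rw [List.length_append, length_W, length_W, ← Nat.add_assoc] at h3
    exact h3
  have hrefl : ∀ y z, y + z + 1 = b.l (κ + 2 * b.j + 1) → b.u x0 (P + y) = b.u x0 (P + z) := by
    intro y z hyz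
    have hpal : (factor (b.u x0) P (b.l (κ + 2 * b.j + 1))).reverse =
        factor (b.u x0) P (b.l (κ + 2 * b.j + 1)) := by
      unfold Occ at hblk
      rw [length_W] at hblk
      rw [hblk, b.W_pal]
    have := factor_reverse_iff.1 hpal y (by omega)
    rw [this]
    congr 1
    omega
  refine ⟨P + A - x, by omega, ?_, ?_⟩
  · intro t ht'
    have := hrefl (A - x + t) (A + B + x - 1 - t) (by omega)
    rw [show P + A - x + t = P + (A - x + t) by omega, this]
    congr 1
    omega
  · intro a' ha' hmatch
    have hocc : Occ (b.u x0) (a' + x) (b.W false (κ + b.j)) := by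
      apply Occ.of_get
      intro t ht'
      rw [length_W] at ht'
      rw [hmid.get' (by rw [length_W]; exact ht')]
      have := hmatch (x + t) (by omega)
      rw [show a' + x + t = a' + (x + t) by omega, this]
      congr 2
      omega
    obtain ⟨s, hs, hpos⟩ := nat_occ h0 κ false _ hocc
    have hs1 : 1 ≤ s := by
      rcases Nat.eq_zero_or_pos s with h | h
      · subst h; rw [pos_zero] at hpos; omega
      · exact h
    have hnw0 : b.nw κ false 0 = b.W true κ ++ b.W false (κ + b.j) := by
      unfold nw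
      rw [if_pos (by omega)]
      simp
    obtain ⟨c, c', e1, e2, e3⟩ := side_hub (b := b) hs1 hs
    have hc' : c' ≠ 0 := by
      rintro rfl
      have h3 := nw_right (x0 := x0) (k := κ) hs e2
      rw [hnw0] at h3
      have h4 := h3.get h1
      rw [hpos] at h4
      have h5 := hlast.get h2
      have h6 := hmatch (x + B + t0) (by omega)
      apply hne
      rw [← h4, ← h5]
      rw [show P + A - x + (x + B + t0) = P + A + B + t0 by omega,
        show a' + (x + B + t0) = a' + x + b.l (κ + b.j) + t0 by omega] at h6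
      exact h6
    have hc : c ≠ 0 := by
      rintro rfl
      have h3 := nw_left (x0 := x0) (k := κ) (σ := false) hs1 e1 (t := t0) (a := a1)
        (by rw [hnw0]; exact h1)
      rw [hpos] at h3
      have h5 := hlast.get h2
      have h6 := hmatch (x - 1 - t0) (by omega)
      have h7 := hrefl (A - 1 - t0) (A + B + t0) (by omega)
      apply hne
      rw [← h3.2, ← h5]
      rw [show P + A - x + (x - 1 - t0) = P + (A - 1 - t0) by omega, h7,
        show a' + (x - 1 - t0) = a' + x - 1 - t0 by omega,
        show P + (A + B + t0) = P + A + B + t0 by omega] at h6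
      exact h6
    obtain ⟨rfl, rfl, e4, e5, e6⟩ : c = b.j ∧ c' = b.j ∧ 2 ≤ s ∧ DD b.j (s - 2) = (false, 0) ∧
        DD b.j (s + 2) = (false, 0) := by
      rcases e3 with ⟨h, _⟩ | ⟨_, h⟩ | h
      · exact absurd h hc
      · exact absurd h hc'
      · exact h
    obtain ⟨s0, f1, f2⟩ := hub_jj b.hj1 hs1 hs e2 e1
    obtain ⟨s', g1, g2⟩ := down (b := b) (b.j - 1) (κ + 1) s0 false (by omega) f1
    have g3 := FO_tj (b := b) s' (κ + 1 + (b.j - 1) + 1) (by simpa using g1)
    have g4 : b.pos (κ + 1) s0 = b.pos κ s := by rw [pos_ff, f2]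
    rw [show κ + 1 + (b.j - 1) + 1 + b.j + b.j = κ + 2 * b.j + 1 + b.j by omega, ← hP] at g3
    rw [show κ + 1 + (b.j - 1) + b.j = κ + 2 * b.j by omega, ← hA] at g2
    omega

/-- the general induction step, away from the small levels -/
theorem new_step (h0 : b.NatBase x0) {K N : ℕ} (hK : b.j ≤ K) (hN : b.l (K + b.j) < N)
    (hN' : N ≤ b.l (K + 1 + b.j))
    (hj : ∀ M, b.l (b.j + b.j) < M → M < b.l (b.j + b.j) + b.l b.j → New (b.u x0) M)
    (hf : ∀ r < b.j, ∀ M, b.l (r + b.j + 1 + b.j) + b.l (r + b.j) < M →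
      M < b.l (r + b.j + 1 + b.j) + b.l (r + b.j + 1) → New (b.u x0) M) :
    New (b.u x0) N := by
  have hjj := b.hj
  have hL : b.l (K + 1 + b.j) = 2 * b.l (K + b.j) + b.l K := by
    rw [show K + 1 + b.j = K + b.j + 1 by omega, b.l_succ (by omega), Nat.add_sub_cancel]
  rcases Nat.lt_or_ge N (b.l (K + b.j) + b.l K) with h1 | h1
  · rcases Nat.eq_or_lt_of_le hK with h2 | h2
    · subst h2; exact hj N hN h1
    · obtain ⟨K', rfl⟩ : ∃ K', K = K' + 1 := ⟨K - 1, by omega⟩
      obtain ⟨v, rfl⟩ : ∃ v, N = b.l (K' + 1 + b.j) + v := ⟨N - b.l (K' + 1 + b.j), by omega⟩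
      have hK' : b.j ≤ K' := by omega
      have hWt := b.W_succ (σ := true) hK'
      have hlt := b.l_succ hK'
      rw [List.append_assoc] at hWt
      -- small `v`
      by_cases hv : v ≤ b.l K'
      · apply new_B1 h0 (by omega) (by omega)
        rw [hWt, List.take_append_of_le_length (by rw [length_W]; exact hv)]
        exact (List.take_prefix _ _).trans (List.prefix_append _ _)
      · push Not at hv
        obtain ⟨y, rfl⟩ : ∃ y, v = b.l K' + y := ⟨v - b.l K', by omega⟩
        rcases Nat.lt_or_ge (K' - b.j) b.j with h3 | h3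
        · -- small separator
          obtain ⟨r, rfl⟩ : ∃ r, K' = r + b.j := ⟨K' - b.j, by omega⟩
          exact hf r (by omega) _ (by omega) (by omega)
        · -- large separator
          obtain ⟨κ, rfl⟩ : ∃ κ, K' = κ + 2 * b.j := ⟨K' - 2 * b.j, by omega⟩
          rw [show κ + 2 * b.j - b.j = κ + b.j by omega] at hWt hlt
          have hpre : b.W false (κ + b.j) <+: b.W false (κ + 2 * b.j + b.j) :=
            b.W_isPre (by omega) (by omega)
          by_cases hy : y ≤ b.l (κ + b.j)
          · apply new_B1 h0 (by omega) (by omega)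
            rw [hWt, List.take_append, length_W, Nat.add_sub_cancel_left,
              List.take_of_length_le (by rw [length_W]; omega)]
            rw [List.prefix_append_right_inj]
            simp only [Bool.not_true]
            rw [List.take_append_of_le_length (by rw [length_W]; exact hy)]
            exact (List.take_prefix _ _).trans hpre
          · push Not at hy
            obtain ⟨x, rfl⟩ : ∃ x, y = b.l (κ + b.j) + x := ⟨y - b.l (κ + b.j), by omega⟩
            by_cases hX : (b.W true (κ + 2 * b.j)).take x <+: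
                b.W true κ ++ b.W false (κ + b.j)
            · apply new_B1 h0 (by omega) (by omega)
              rw [hWt, List.take_append, length_W, Nat.add_sub_cancel_left,
                List.take_of_length_le (by rw [length_W]; omega)]
              rw [List.prefix_append_right_inj]
              simp only [Bool.not_true]
              rw [List.take_append, length_W, Nat.add_sub_cancel_left,
                List.take_of_length_le (by rw [length_W]; omega)]
              refine ((List.prefix_append_right_inj _).2 hX).trans ?_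
              have h5 := b.W_succ (σ := false) (n := κ + b.j) (by omega)
              rw [Nat.add_sub_cancel, List.append_assoc] at h5
              rw [show true = !false by rfl, ← h5]
              exact b.W_isPre (by omega) (by omega)
            · -- there is a difference
              have hm := LCP (b := b) κ true (N := κ + 2 * b.j) (M := κ + b.j) (by omega) (by omega)
                (by omega) (by omega)
              rw [Bool.not_true] at hm
              obtain ⟨t, _, a1, a2, h4, h5, h6⟩ := hm
              obtain ⟨t, htx, a1, a2, h4, h5, h6⟩ :=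
                mis_of_not_pre (by rw [length_W]; omega) hX h4 h5 h6
              have := new_B2 (x0 := x0) h0 (κ := κ) (x := x) (t0 := t) (by omega) htx h4 h5 h6
              rw [← Nat.add_assoc, ← Nat.add_assoc]
              exact this
  · obtain ⟨x, rfl⟩ : ∃ x, N = b.l (K + b.j) + b.l K + x := ⟨N - (b.l (K + b.j) + b.l K), by omega⟩
    exact new_A h0 hK (by omega)

end Base

namespace Base

variable {b : Base α} {x0 : α}

theorem new_ct {k x : ℕ} (hx : x ≤ b.l (k + b.j)) (hpos : 1 ≤ b.l k + x)
    (hL : b.l (k + 1 + b.j) = 2 * b.l (k + b.j) + b.l k)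
    (hfirst : ∀ z < b.l (k + b.j), ¬ Occ (b.u x0) z (b.W true k)) :
    New (b.u x0) (b.l (k + b.j) + b.l k + x) := by
  refine ⟨b.l (k + b.j) - x, by omega, ?_, ?_⟩
  · intro t ht
    apply u_reflect x0 (k + 1)
    rw [hL]
    omega
  · intro a' ha' hmatch
    have hocc1 : Occ (b.u x0) (b.l (k + b.j)) (b.W true k) := by
      have h1 := pos_block x0 (b := b) k 1
      rw [DD_one, pos_one] at h1
      simpa using h1
    apply hfirst (a' + x) (by omega)
    apply Occ.of_get
    intro t ht
    rw [length_W] at ht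
    rw [hocc1.get' (by rw [length_W]; exact ht)]
    have := hmatch (x + t) (by omega)
    rw [show a' + x + t = a' + (x + t) by omega, this]
    congr 2
    omega

/-- the block of the first separator at level `r + j + 1`. -/
theorem blk_f (r : ℕ) : Occ (b.u x0) (b.l (r + b.j + 1 + b.j))
    (b.W true (r + b.j) ++ b.W false r ++ b.W true (r + b.j)) ∧
    b.l (r + b.j + 1) = 2 * b.l (r + b.j) + b.l r := by
  have h1 := pos_block x0 (b := b) (r + b.j + 1) 1
  rw [DD_one, pos_one, add_zero] at h1
  have h2 := b.W_succ (σ := true) (n := r + b.j) (by omega)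
  have h3 := b.l_succ (n := r + b.j) (by omega)
  rw [Nat.add_sub_cancel] at h2 h3
  rw [h2] at h1
  exact ⟨h1, h3⟩

theorem refl_f (r : ℕ) {y z : ℕ} (hyz : y + z + 1 = b.l (r + b.j + 1)) :
    b.u x0 (b.l (r + b.j + 1 + b.j) + y) = b.u x0 (b.l (r + b.j + 1 + b.j) + z) := by
  have h1 := pos_block x0 (b := b) (r + b.j + 1) 1
  rw [DD_one, pos_one, add_zero] at h1
  have hpal : (factor (b.u x0) (b.l (r + b.j + 1 + b.j)) (b.l (r + b.j + 1))).reverse =
      factor (b.u x0) (b.l (r + b.j + 1 + b.j)) (b.l (r + b.j + 1)) := by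
    unfold Occ at h1
    rw [length_W] at h1
    rw [h1, b.W_pal]
  have := factor_reverse_iff.1 hpal y (by omega)
  rw [this]
  congr 1
  omega

theorem new_cf {r x : ℕ} (hx : x ≤ b.l (r + b.j)) (hpos : 1 ≤ b.l r + x)
    (hfirst : ∀ z < b.l (r + b.j + 1 + b.j) + b.l (r + b.j), ¬ Occ (b.u x0) z (b.W false r)) :
    New (b.u x0) (b.l (r + b.j + 1 + b.j) + b.l (r + b.j) + b.l r + x) := by
  obtain ⟨hblk, hl⟩ := blk_f (b := b) (x0 := x0) r
  set P := b.l (r + b.j + 1 + b.j) with hP
  set A := b.l (r + b.j) with hA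
  refine ⟨P + A - x, by omega, ?_, ?_⟩
  · intro t ht
    have := refl_f (b := b) (x0 := x0) r (y := A - x + t) (z := A + b.l r + x - 1 - t) (by omega)
    rw [← hP] at this
    rw [show P + A - x + t = P + (A - x + t) by omega, this]
    congr 1
    omega
  · intro a' ha' hmatch
    have hocc1 : Occ (b.u x0) (P + A) (b.W false r) := by
      have h3 := (occ_append.1 (occ_append.1 hblk).1).2
      rwa [length_W] at h3
    apply hfirst (a' + x) (by omega)
    apply Occ.of_get
    intro t ht
    rw [length_W] at ht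
    rw [hocc1.get' (by rw [length_W]; exact ht)]
    have := hmatch (x + t) (by omega)
    rw [show a' + x + t = a' + (x + t) by omega, this]
    congr 2
    omega

end Base

end Pool.Agent.Helper77.Odd
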