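import Pool.Agent.Helper20.Rich.Final

/-!
Two towers of palindromes over base words of arbitrary length: the file `Helper20/Rich/Tower.lean`
with the bound `e n` instead of `0` or `1` for the first difference of small words.
-/

namespace Pool.Agent.Helper77.Odd

open Pool.Agent.Helper20.Rich

variable {α : Type*}

/-- Base data. -/
structure Base (α : Type*) where
  /-- number of small words on each side -/
  j : ℕ
  /-- base words, `w σ n` for `n ≤ j`; `w σ j` are the hubs -/
  w : Bool → ℕ → List α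
  /-- overlap of a small word with later words -/
  e : ℕ → ℕ
  hj : 2 ≤ j
  pal : ∀ σ n, n ≤ j → (w σ n).reverse = w σ n
  len : ∀ n, n ≤ j → (w false n).length = (w true n).length
  hub : ∀ σ, w σ j ≠ []
  bm : ∀ σ r, r < j → Mis (w σ j) (w σ r ++ w (!σ) j) (e r)
  sm : ∀ σ n m, n < m → m < j → Mis (w σ n ++ w (!σ) j) (w σ m ++ w (!σ) j) (e n)

namespace Base

variable (b : Base α)

/-- the towers -/
def W (b : Base α) (σ : Bool) (n : ℕ) : List α :=
  if n ≤ b.j then b.w σ n else W b σ (n - 1) ++ W b (!σ) (n - 1 - b.j) ++ W b σ (n - 1)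
termination_by n

theorem W_le {σ : Bool} {n : ℕ} (h : n ≤ b.j) : b.W σ n = b.w σ n := by
  rw [W]; simp [h]

theorem W_succ {σ : Bool} {n : ℕ} (h : b.j ≤ n) :
    b.W σ (n + 1) = b.W σ n ++ b.W (!σ) (n - b.j) ++ b.W σ n := by
  rw [W]; simp [show ¬ (n + 1 ≤ b.j) by omega]

theorem hj1 : 1 ≤ b.j := by have := b.hj; omega

theorem W_pal (n : ℕ) : ∀ σ, (b.W σ n).reverse = b.W σ n := by
  induction n using Nat.strong_induction_on with
  | _ n ih =>
  intro σ
  rcases Nat.lt_or_ge b.j n with h | h
  · obtain ⟨m, rfl⟩ : ∃ m, n = m + 1 := ⟨n - 1, by omega⟩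
    rw [W_succ b (by omega)]
    simp only [List.reverse_append]
    rw [ih m (by omega), ih (m - b.j) (by omega)]
    simp
  · rw [W_le b h]; exact b.pal σ n h

theorem W_len (n : ℕ) : ∀ σ, (b.W σ n).length = (b.W false n).length := by
  induction n using Nat.strong_induction_on with
  | _ n ih =>
  intro σ
  rcases Nat.lt_or_ge b.j n with h | h
  · obtain ⟨m, rfl⟩ : ∃ m, n = m + 1 := ⟨n - 1, by omega⟩
    rw [W_succ b (by omega), W_succ b (by omega)]
    simp only [List.length_append]
    rw [ih m (by omega) σ, ih (m - b.j) (by omega) (!σ), ih (m - b.j) (by omega) (!false)]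
  · rw [W_le b h, W_le b h]
    cases σ
    · rfl
    · exact (b.len n h).symm

/-- lengths -/
def l (n : ℕ) : ℕ := (b.W false n).length

@[simp] theorem length_W (σ : Bool) (n : ℕ) : (b.W σ n).length = b.l n := b.W_len n σ

theorem l_succ {n : ℕ} (h : b.j ≤ n) : b.l (n + 1) = 2 * b.l n + b.l (n - b.j) := by
  have := congrArg List.length (b.W_succ (σ := false) h)
  simp only [List.length_append, length_W] at this
  omega

theorem l_j_pos : 1 ≤ b.l b.j := by
  rw [l, W_le b le_rfl]
  exact List.length_pos_iff.2 (b.hub false)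

theorem l_two {n : ℕ} (h : b.j ≤ n) : 2 * b.l n ≤ b.l (n + 1) := by
  rw [l_succ b h]; omega

theorem l_mono {m n : ℕ} (hm : b.j ≤ m) (h : m ≤ n) : b.l m ≤ b.l n := by
  induction n, h using Nat.le_induction with
  | base => exact le_rfl
  | succ n hn ih => have := b.l_two (show b.j ≤ n by omega); omega

theorem l_pos {n : ℕ} (h : b.j ≤ n) : 1 ≤ b.l n := b.l_j_pos.trans (b.l_mono le_rfl h)

theorem l_gt (n : ℕ) : n < b.l (n + b.j) := by
  induction n with
  | zero => rw [zero_add]; exact b.l_j_pos
  | succ n ih =>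
    have := b.l_two (n := n + b.j) (by omega)
    rw [show n + 1 + b.j = n + b.j + 1 by omega]
    omega

theorem W_isPre_succ {σ : Bool} {n : ℕ} (h : b.j ≤ n) : b.W σ n <+: b.W σ (n + 1) := by
  rw [W_succ b h, List.append_assoc]
  exact List.prefix_append _ _

theorem W_isPre {σ : Bool} {m n : ℕ} (hm : b.j ≤ m) (h : m ≤ n) : b.W σ m <+: b.W σ n := by
  induction n, h using Nat.le_induction with
  | base => exact List.prefix_refl _
  | succ n hn ih => exact ih.trans (b.W_isPre_succ (by omega))

/-- the coding of level `k` -/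
def pi (k : ℕ) (a : Bool × ℕ) : List α := b.W a.1 (k + a.2)

theorem pi_theta (k : ℕ) {a : Bool × ℕ} (ha : a.2 ≤ b.j) :
    (theta b.j a).flatMap (b.pi k) = b.pi (k + 1) a := by
  obtain ⟨σ, c⟩ := a
  simp only at ha
  rcases Nat.lt_or_ge c b.j with h | h
  · rw [theta_lt h]
    simp [pi, show k + (c + 1) = k + 1 + c by omega]
  · have : c = b.j := by omega
    subst this
    rw [theta_hub]
    simp only [List.flatMap_cons, List.flatMap_nil, List.append_nil, pi, add_zero]
    rw [show k + 1 + b.j = k + b.j + 1 by omega, W_succ b (by omega), Nat.add_sub_cancel,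
      List.append_assoc]

/-- the limit word -/
def u (x0 : α) : ℕ → α := limit (fun n => b.W false (n + b.j)) x0

variable {b}

theorem mem_vv {n : ℕ} {a : Bool × ℕ} (h : a ∈ vv b.j n) : a.2 ≤ b.j := by
  rw [← DD_factor] at h
  simp only [factor, List.mem_map] at h
  obtain ⟨k, _, rfl⟩ := h
  exact DD_le _ _

theorem flatMap_congr' {β γ : Type*} {l : List β} {f g : β → List γ} (h : ∀ a ∈ l, f a = g a) :
    l.flatMap f = l.flatMap g := by
  induction l with
  | nil => rfl
  | cons x l ih =>
    rw [List.flatMap_cons, List.flatMap_cons, h x (by simp), ih (fun a ha => h a (by simp [ha]))]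

theorem vv_pi (n : ℕ) : ∀ k, (vv b.j n).flatMap (b.pi k) = b.W false (k + n + b.j) := by
  induction n with
  | zero => intro k; simp [vv, pi]
  | succ n ih =>
    intro k
    rw [vv, List.flatMap_assoc, flatMap_congr' (fun a ha => b.pi_theta k (mem_vv ha)), ih (k + 1)]
    congr 1
    omega

theorem u_factor (x0 : α) (n : ℕ) : factor (b.u x0) 0 (b.l (n + b.j)) = b.W false (n + b.j) := by
  have := limit_factor (L := fun n => b.W false (n + b.j)) (d := x0)
    (fun n => by
      rw [show n + 1 + b.j = n + b.j + 1 by omega]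
      exact b.W_isPre_succ (by omega))
    (fun n => b.l_gt n) n
  exact this

theorem u_coding (x0 : α) (k : ℕ) : ∀ s, ∃ n m, s ≤ n ∧
    (factor (DD b.j) 0 n).flatMap (b.pi k) = factor (b.u x0) 0 m := by
  intro s
  refine ⟨(vv b.j s).length, b.l (k + s + b.j), (vv_len b.j s).le, ?_⟩
  rw [DD_factor, vv_pi, u_factor]

variable (b) in
/-- position of the block number `s` of level `k` -/
def pos (k s : ℕ) : ℕ := ((factor (DD b.j) 0 s).flatMap (b.pi k)).length

@[simp] theorem pos_zero (k : ℕ) : b.pos k 0 = 0 := by simp [pos, factor]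

theorem pos_succ (k s : ℕ) :
    b.pos k (s + 1) = b.pos k s + b.l (k + (DD b.j s).2) := by
  rw [pos, coding_len_succ]
  simp [pos, pi]

theorem pos_block (x0 : α) (k s : ℕ) :
    Occ (b.u x0) (b.pos k s) (b.W (DD b.j s).1 (k + (DD b.j s).2)) :=
  coding_block (u_coding x0 k) s

theorem pos_mono (k : ℕ) {s t : ℕ} (h : s ≤ t) : b.pos k s ≤ b.pos k t := by
  induction t, h using Nat.le_induction with
  | base => exact le_rfl
  | succ t _ ih => rw [pos_succ]; omega

theorem pos_ff (k s : ℕ) : b.pos (k + 1) s = b.pos k (ff b.j s) := by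
  have h1 := coding (DD_coding b.j) s
  change _ = factor (DD b.j) 0 (ff b.j s) at h1
  rw [pos, pos, ← h1, List.flatMap_assoc]
  congr 1
  apply flatMap_congr'
  intro a ha
  simp only [factor, List.mem_map] at ha
  obtain ⟨r, _, rfl⟩ := ha
  exact (b.pi_theta k (DD_le _ _)).symm

variable (b) in
/-- bound for common initial parts -/
def S (n : ℕ) : ℕ := if n < b.j then b.e n else if b.j = 0 then 0 else b.l n + S (n - b.j)
termination_by n

theorem S_lt {n : ℕ} (h : n < b.j) : b.S n = b.e n := by rw [S]; simp [h]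

theorem S_ge {n : ℕ} (h : b.j ≤ n) : b.S n = b.l n + b.S (n - b.j) := by
  have := b.hj
  rw [S, if_neg (by omega), if_neg (by omega)]

/-- base mismatch for all levels -/
theorem BM (σ : Bool) {r m n : ℕ} (hr : r < b.j) (hm : b.j ≤ m) (hn : b.j ≤ n) :
    Mis (b.W σ m) (b.W σ r ++ b.W (!σ) n) (b.e r) := by
  have h := b.bm σ r hr
  rw [← b.W_le hr.le, ← b.W_le le_rfl, ← b.W_le le_rfl] at h
  refine h.of_isPre (b.W_isPre le_rfl hm) ?_
  obtain ⟨t, ht⟩ := b.W_isPre (σ := !σ) le_rfl hn
  exact ⟨t, by rw [List.append_assoc, ht]⟩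

theorem SM (σ : Bool) {r r' m n : ℕ} (hr : r < r') (hr' : r' < b.j) (hm : b.j ≤ m) (hn : b.j ≤ n) :
    Mis (b.W σ r ++ b.W (!σ) m) (b.W σ r' ++ b.W (!σ) n)
      (b.e r) := by
  have h := b.sm σ r r' hr hr'
  rw [← b.W_le (by omega : r ≤ b.j), ← b.W_le hr'.le, ← b.W_le le_rfl] at h
  refine h.of_isPre ?_ ?_
  · obtain ⟨t, ht⟩ := b.W_isPre (σ := !σ) le_rfl hm
    exact ⟨t, by rw [List.append_assoc, ht]⟩
  · obtain ⟨t, ht⟩ := b.W_isPre (σ := !σ) le_rfl hn
    exact ⟨t, by rw [List.append_assoc, ht]⟩

/-- the main mismatch lemma -/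
theorem LCP (n : ℕ) : ∀ (σ : Bool) {N M : ℕ}, n < N → b.j ≤ N → n ≤ M → b.j ≤ M →
    Mis (b.W σ n ++ b.W (!σ) M) (b.W σ N) (b.S n) := by
  induction n using Nat.strong_induction_on with
  | _ n ih =>
  intro σ N M hN hjN hm hjm
  have hj := b.hj
  rcases Nat.lt_or_ge n b.j with hn | hn
  · rw [S_lt hn]
    exact (BM σ hn hjN hjm).symm
  · rw [S_ge hn]
    have h1 : b.W σ n ++ (b.W (!σ) (n - b.j) ++ b.W σ n) <+: b.W σ N := by
      rw [← List.append_assoc, ← W_succ b hn]
      exact b.W_isPre (by omega) hN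
    have h2 : Mis (b.W (!σ) M) (b.W (!σ) (n - b.j) ++ b.W σ n) (b.S (n - b.j)) := by
      rcases Nat.lt_or_ge (n - b.j) b.j with h | h
      · rw [S_lt h]
        have := BM (b := b) (!σ) (r := n - b.j) (m := M) (n := n) h hjm hn
        simpa using this
      · have h3 : b.W (!σ) (n - b.j) ++ (b.W σ (n - b.j - b.j) ++ b.W (!σ) (n - b.j)) <+:
            b.W (!σ) M := by
          have := b.W_succ (σ := !σ) h
          rw [Bool.not_not] at this
          rw [← List.append_assoc, ← this]
          exact b.W_isPre (by omega) (by omega)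
        have h4 := ih (n - b.j - b.j) (by omega) σ (N := n) (M := n - b.j) (by omega) hn
          (by omega) h
        rw [S_ge h]
        have h5 := h4.append_left (b.W (!σ) (n - b.j))
        rw [length_W] at h5
        exact h5.of_isPre h3 (List.prefix_refl _)
    have h6 := h2.append_left (b.W σ n)
    rw [length_W] at h6
    exact h6.of_isPre (List.prefix_refl _) h1

variable (b) in
/-- natural occurrences of the hubs of level 0 -/
def NatBase (x0 : α) : Prop := ∀ σ i, Occ (b.u x0) i (b.w σ b.j) →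
  ∃ s, DD b.j s = (σ, b.j) ∧ b.pos 0 s = i

/-- every occurrence of a hub word is natural -/
theorem nat_occ {x0 : α} (h0 : b.NatBase x0) (k : ℕ) : ∀ σ i, Occ (b.u x0) i (b.W σ (k + b.j)) →
    ∃ s, DD b.j s = (σ, b.j) ∧ b.pos k s = i := by
  induction k with
  | zero =>
    intro σ i h
    rw [zero_add, b.W_le le_rfl] at h
    exact h0 σ i h
  | succ k ih =>
    intro σ i h
    have hj := b.hj
    rw [show k + 1 + b.j = k + b.j + 1 by omega, b.W_succ (by omega), Nat.add_sub_cancel,
      List.append_assoc] at h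
    obtain ⟨h1, h2⟩ := occ_append.1 h
    obtain ⟨s, hs, hpos⟩ := ih σ i h1
    rw [length_W] at h2
    have hp1 : b.pos k (s + 1) = i + b.l (k + b.j) := by rw [pos_succ, hs, hpos]
    rw [← hp1] at h2
    -- the letter after
    obtain ⟨c, hc⟩ : ∃ c, DD b.j (s + 1) = (!σ, c) := by
      rcases ctx b.hj1 (r := s + 1) (by omega) with ⟨σ', c, hc, e1, e2, e3⟩ |
          ⟨σ', c1, c2, e1, e2, e3, _⟩
      · rw [Nat.add_sub_cancel, hs] at e2
        have := (Prod.mk.inj e2).1
        exact ⟨c, by rw [e1, this]; simp⟩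
      · rw [Nat.add_sub_cancel, hs] at e2
        have := (Prod.mk.inj e2).1
        exact ⟨b.j, by rw [e1, this]; simp⟩
    have hcj : c ≤ b.j := by have := DD_le b.j (s + 1); rw [hc] at this; exact this
    have hblock := pos_block x0 (b := b) k (s + 1)
    rw [hc] at hblock
    simp only at hblock
    have hc0 : c = 0 := by
      by_contra hne
      have hself : ∀ t < b.l k + b.l (k + b.j), (b.u x0) (b.pos k (s + 1) + t) =
          (b.u x0) (b.pos k (s + 1) + t) := fun _ _ => rfl
      rcases Nat.lt_or_ge (k + c) b.j with hlt | hge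
      · -- both small
        have hnext : DD b.j (s + 2) = (σ, b.j) := by
          rcases ctx b.hj1 (r := s + 1) (by omega) with ⟨σ', c', hc', e1, e2, e3⟩ |
            ⟨σ', c1, c2, e1, e2, e3, _⟩
          · rw [hc] at e1
            have := (Prod.mk.inj e1).1
            rw [e3, ← this]; simp
          · rw [hc] at e1
            have := (Prod.mk.inj e1).2
            omega
        have hb2 := pos_block x0 (b := b) k (s + 2)
        rw [hnext] at hb2
        simp only at hb2
        rw [show s + 2 = s + 1 + 1 by rfl, pos_succ, hc] at hb2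
        simp only at hb2
        have hocc : Occ (b.u x0) (b.pos k (s + 1)) (b.W (!σ) (k + c) ++ b.W σ (k + b.j)) :=
          occ_append.2 ⟨hblock, by rw [length_W]; exact hb2⟩
        have hm := SM (b := b) (!σ) (r := k) (r' := k + c) (m := k + b.j) (n := k + b.j) (by omega)
          hlt (by omega) (by omega)
        rw [Bool.not_not] at hm
        obtain ⟨t, ht, a1, a2, h3, h4, h5⟩ := hm
        exact h5 (by rw [← h2.get h3, ← hocc.get h4])
      · have hm := LCP (b := b) k (!σ) (N := k + c) (M := k + b.j) (by omega) hge (by omega)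
          (by omega)
        rw [Bool.not_not] at hm
        obtain ⟨t, ht, a1, a2, h3, h4, h5⟩ := hm
        exact h5 (by rw [← h2.get h3, ← hblock.get h4])
    subst hc0
    obtain ⟨s', hs', hs''⟩ := hub_zero b.hj1 hs hc
    exact ⟨s', hs', by rw [pos_ff, hs'', hpos]⟩

end Base

end Pool.Agent.Helper77.Odd
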