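import Pool.Agent.Helper77.Odd.GExp
import Pool.Agent.Helper77.Odd.Chain

/-!
The base over `2 M + 1` letters: small words `a R a`, `R` a run, and the hubs `a b a b a`.
-/

namespace Pool.Agent.Helper77.Odd

open Pool.Agent.Helper20.Rich

variable {α : Type*}

/-- the letters -/
structure LB (α : Type*) where
  M : ℕ
  la : α
  lx : Bool → ℕ → α
  hM : 2 ≤ M
  hla : ∀ σ i, i < M → lx σ i ≠ la
  inj : ∀ σ τ i i', i < M → i' < M → lx σ i = lx τ i' → σ = τ ∧ i = i'

theorem get_cons_append {A : List α} {a b : α} {t : ℕ} (h : t < A.length) :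
    (a :: (A ++ [b]))[t + 1]? = A[t]? := by
  rw [List.getElem?_cons_succ, List.getElem?_append_left h]

namespace LB

variable (P : LB α)

/-- length of a run -/
def R (m : ℕ) : ℕ := (RN P.M m).length

/-- the run -/
def run (σ : Bool) (m : ℕ) : List α := (RN P.M m).map (P.lx σ)

theorem run_len (σ : Bool) (m : ℕ) : (P.run σ m).length = P.R m := by simp [run, R]

theorem run_pal (σ : Bool) (m : ℕ) : (P.run σ m).reverse = P.run σ m := by
  unfold run
  rw [← List.map_reverse, RN_pal]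

theorem run_get {σ : Bool} {m t z : ℕ} (h : (RN P.M m)[t]? = some z) :
    (P.run σ m)[t]? = some (P.lx σ z) := by
  unfold run
  rw [List.getElem?_map, h]
  rfl

theorem R_pos (m : ℕ) : 1 ≤ P.R m := RN_pos _ _

theorem R_lt {m m' : ℕ} (h : m < m') (h' : m' ≤ 2 * P.M - 1) : P.R m < P.R m' :=
  (RN_step P.hM h h').2

theorem R_le {m m' : ℕ} (h : m ≤ m') (h' : m' ≤ 2 * P.M - 1) : P.R m ≤ P.R m' := by
  rcases Nat.eq_or_lt_of_le h with h1 | h1
  · rw [h1]
  · exact (P.R_lt h1 h').le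

/-- the base words -/
def w (σ : Bool) (c : ℕ) : List α :=
  if c = 0 then [] else if c ≤ 2 * P.M then P.la :: (P.run σ (c - 1) ++ [P.la])
  else P.la :: (P.run σ (2 * P.M - 1) ++ (P.la :: (P.run σ (2 * P.M - 1) ++ [P.la])))

/-- overlaps -/
def e (c : ℕ) : ℕ := if c = 0 then 1 else if c < 2 * P.M then 1 + P.R (c - 1)
  else P.R (2 * P.M - 1) + 2

theorem w_zero (σ : Bool) : P.w σ 0 = [] := by simp [w]

theorem w_small {σ : Bool} {c : ℕ} (h : 1 ≤ c) (h' : c ≤ 2 * P.M) :
    P.w σ c = P.la :: (P.run σ (c - 1) ++ [P.la]) := by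
  unfold w
  rw [if_neg (by omega), if_pos h']

theorem w_hub (σ : Bool) : P.w σ (2 * P.M + 1) =
    P.la :: (P.run σ (2 * P.M - 1) ++ (P.la :: (P.run σ (2 * P.M - 1) ++ [P.la]))) := by
  unfold w
  rw [if_neg (by omega), if_neg (by omega)]

theorem w_small_len {σ : Bool} {c : ℕ} (h : 1 ≤ c) (h' : c ≤ 2 * P.M) :
    (P.w σ c).length = P.R (c - 1) + 2 := by
  rw [P.w_small h h']; simp [run_len]

theorem w_hub_len (σ : Bool) : (P.w σ (2 * P.M + 1)).length = 2 * P.R (2 * P.M - 1) + 3 := by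
  rw [P.w_hub]; simp [run_len]; omega

theorem w_head {σ : Bool} {c : ℕ} (h : 1 ≤ c) : (P.w σ c)[0]? = some P.la := by
  unfold w
  rw [if_neg (by omega)]
  split_ifs <;> rfl

theorem w_small_run {σ : Bool} {c t : ℕ} (h : 1 ≤ c) (h' : c ≤ 2 * P.M) (ht : t < P.R (c - 1)) :
    (P.w σ c)[t + 1]? = (P.run σ (c - 1))[t]? := by
  rw [P.w_small h h', get_cons_append (by rw [run_len]; exact ht)]

theorem w_small_last {σ : Bool} {c : ℕ} (h : 1 ≤ c) (h' : c ≤ 2 * P.M) :
    (P.w σ c)[P.R (c - 1) + 1]? = some P.la := by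
  rw [P.w_small h h', List.getElem?_cons_succ, List.getElem?_append_right (by rw [run_len]),
    run_len, Nat.sub_self]
  rfl

theorem w_hub_run {σ : Bool} {t : ℕ} (ht : t < P.R (2 * P.M - 1)) :
    (P.w σ (2 * P.M + 1))[t + 1]? = (P.run σ (2 * P.M - 1))[t]? := by
  rw [P.w_hub, List.getElem?_cons_succ, List.getElem?_append_left (by rw [run_len]; exact ht)]

theorem w_hub_mid {σ : Bool} : (P.w σ (2 * P.M + 1))[P.R (2 * P.M - 1) + 1]? = some P.la := by
  rw [P.w_hub, List.getElem?_cons_succ, List.getElem?_append_right (by rw [run_len]),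
    run_len, Nat.sub_self]
  rfl

theorem w_hub_run2 {σ : Bool} {t : ℕ} (ht : t < P.R (2 * P.M - 1)) :
    (P.w σ (2 * P.M + 1))[P.R (2 * P.M - 1) + 2 + t]? = (P.run σ (2 * P.M - 1))[t]? := by
  rw [P.w_hub, show P.R (2 * P.M - 1) + 2 + t = P.R (2 * P.M - 1) + (t + 1) + 1 by ring,
    List.getElem?_cons_succ, List.getElem?_append_right (by rw [run_len]; omega),
    run_len, Nat.add_sub_cancel_left, get_cons_append (by rw [run_len]; exact ht)]

theorem w_hub_last {σ : Bool} :
    (P.w σ (2 * P.M + 1))[2 * P.R (2 * P.M - 1) + 2]? = some P.la := by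
  rw [P.w_hub, show 2 * P.R (2 * P.M - 1) + 2 = P.R (2 * P.M - 1) + (P.R (2 * P.M - 1) + 1) + 1
    by ring, List.getElem?_cons_succ, List.getElem?_append_right (by rw [run_len]; omega),
    run_len, Nat.add_sub_cancel_left, List.getElem?_cons_succ,
    List.getElem?_append_right (by rw [run_len]), run_len, Nat.sub_self]
  rfl

theorem run_head (σ : Bool) (m : ℕ) : (P.run σ m)[0]? = some (P.lx σ 0) :=
  P.run_get (RN_get_zero _ _)

/-- the letter of a longer run after a shorter one -/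
theorem run_next {σ : Bool} {m m' : ℕ} (h : m < m') (h' : m' ≤ 2 * P.M - 1) :
    ∃ a, (P.run σ m')[P.R m]? = some a ∧ a ≠ P.la := by
  obtain ⟨z, hz⟩ := some_of_lt (P.R_lt h h')
  refine ⟨P.lx σ z, P.run_get hz, P.hla σ z ?_⟩
  exact RN_mem_lt (by have := P.hM; omega) h' (List.mem_of_getElem? hz)

theorem hzero (σ : Bool) : P.lx σ 0 ≠ P.la := P.hla σ 0 (by have := P.hM; omega)

theorem hside (σ : Bool) : P.lx σ 0 ≠ P.lx (!σ) 0 := by
  intro h
  have := (P.inj σ (!σ) 0 0 (by have := P.hM; omega) (by have := P.hM; omega) h).1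
  cases σ <;> simp at this

/-- the base of the towers -/
def toBase : Base α where
  j := 2 * P.M + 1
  w := P.w
  e := P.e
  hj := by have := P.hM; omega
  pal σ n hn := by
    rcases Nat.eq_zero_or_pos n with h | h
    · subst h; rw [P.w_zero]; rfl
    · rcases Nat.lt_or_ge n (2 * P.M + 1) with h1 | h1
      · rw [P.w_small h (by omega)]
        simp [run_pal]
      · obtain rfl : n = 2 * P.M + 1 := by omega
        rw [P.w_hub]
        simp [run_pal]
  len n hn := by
    rcases Nat.eq_zero_or_pos n with h | h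
    · subst h; rw [P.w_zero, P.w_zero]
    · rcases Nat.lt_or_ge n (2 * P.M + 1) with h1 | h1
      · rw [P.w_small_len h (by omega), P.w_small_len h (by omega)]
      · obtain rfl : n = 2 * P.M + 1 := by omega
        rw [P.w_hub_len, P.w_hub_len]
  hub σ := by
    rw [P.w_hub]
    simp
  bm σ r hr := by
    have hM := P.hM
    have hR := P.R_pos (2 * P.M - 1)
    unfold e
    split_ifs with h1 h2
    · subst h1
      refine ⟨1, le_rfl, P.lx σ 0, P.lx (!σ) 0, ?_, ?_, P.hside σ⟩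
      · rw [show 1 = 0 + 1 by rfl, P.w_hub_run (by omega), P.run_head]
      · rw [P.w_zero, List.nil_append, show 1 = 0 + 1 by rfl, P.w_hub_run (by omega), P.run_head]
    · obtain ⟨a, ha, ha'⟩ := P.run_next (σ := σ) (m := r - 1) (m' := 2 * P.M - 1) (by omega) le_rfl
      refine ⟨1 + P.R (r - 1), le_rfl, a, P.la, ?_, ?_, ha'⟩
      · rw [Nat.add_comm 1 (P.R (r - 1)), P.w_hub_run (P.R_lt (by omega) le_rfl), ha]
      · rw [List.getElem?_append_left (by rw [P.w_small_len (by omega) (by omega)]; omega),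
          Nat.add_comm 1 (P.R (r - 1)), P.w_small_last (by omega) (by omega)]
    · obtain rfl : r = 2 * P.M := by omega
      refine ⟨P.R (2 * P.M - 1) + 2, le_rfl, P.lx σ 0, P.la, ?_, ?_, P.hzero σ⟩
      · rw [show P.R (2 * P.M - 1) + 2 = P.R (2 * P.M - 1) + 2 + 0 by rfl, P.w_hub_run2 (by omega),
          P.run_head]
      · rw [List.getElem?_append_right (by rw [P.w_small_len (by omega) le_rfl]),
          P.w_small_len (by omega) le_rfl, Nat.sub_self, P.w_head (by omega)]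
  sm σ n m hnm hmj := by
    have hM := P.hM
    have hR := P.R_pos (2 * P.M - 1)
    have hRm := P.R_pos (m - 1)
    unfold e
    rw [if_pos (c := n < 2 * P.M) (by omega)]
    split_ifs with h1
    · subst h1
      refine ⟨1, le_rfl, P.lx (!σ) 0, P.lx σ 0, ?_, ?_, (P.hside σ).symm⟩
      · rw [P.w_zero, List.nil_append, show 1 = 0 + 1 by rfl, P.w_hub_run (by omega), P.run_head]
      · rw [List.getElem?_append_left (by rw [P.w_small_len (by omega) (by omega)]; omega),
          show 1 = 0 + 1 by rfl, P.w_small_run (by omega) (by omega) (by omega), P.run_head]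
    · obtain ⟨a, ha, ha'⟩ := P.run_next (σ := σ) (m := n - 1) (m' := m - 1) (by omega) (by omega)
      have hlt := P.R_lt (m := n - 1) (m' := m - 1) (by omega) (by omega)
      refine ⟨1 + P.R (n - 1), le_rfl, P.la, a, ?_, ?_, ha'.symm⟩
      · rw [List.getElem?_append_left (by rw [P.w_small_len (by omega) (by omega)]; omega),
          Nat.add_comm 1 (P.R (n - 1)), P.w_small_last (by omega) (by omega)]
      · rw [List.getElem?_append_left (by rw [P.w_small_len (by omega) (by omega)]; omega),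
          Nat.add_comm 1 (P.R (n - 1)), P.w_small_run (by omega) (by omega) hlt, ha]

@[simp] theorem toBase_j : P.toBase.j = 2 * P.M + 1 := rfl

theorem W_base (σ : Bool) {c : ℕ} (h : c ≤ 2 * P.M + 1) : P.toBase.W σ c = P.w σ c :=
  P.toBase.W_le h

theorem l_zero : P.toBase.l 0 = 0 := by
  rw [Base.l, P.W_base false (by omega), P.w_zero]; rfl

theorem l_small {c : ℕ} (h : 1 ≤ c) (h' : c ≤ 2 * P.M) : P.toBase.l c = P.R (c - 1) + 2 := by
  rw [Base.l, P.W_base false (by omega), P.w_small_len h h']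

theorem l_hub : P.toBase.l (2 * P.M + 1) = 2 * P.R (2 * P.M - 1) + 3 := by
  rw [Base.l, P.W_base false le_rfl, P.w_hub_len]

theorem l_pos' {n : ℕ} (h : 1 ≤ n) : 3 ≤ P.toBase.l n := by
  have hR := P.R_pos (2 * P.M - 1)
  rcases Nat.lt_or_ge n (2 * P.M + 1) with h' | h'
  · rw [P.l_small h (by omega)]
    have := P.R_pos (n - 1)
    omega
  · have := P.toBase.l_mono (m := 2 * P.M + 1) (n := n) le_rfl h'
    rw [P.l_hub] at this
    omega

theorem S_small {n : ℕ} (h : n < 2 * P.M + 1) : P.toBase.S n = P.e n := Base.S_lt h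

/-- every position lies in a block of level `0`. -/
theorem block_of (i : ℕ) : ∃ s, P.toBase.pos 0 s ≤ i ∧ i < P.toBase.pos 0 (s + 1) := by
  by_contra hcon
  push Not at hcon
  have : ∀ s, P.toBase.pos 0 s ≤ i := by
    intro s
    induction s with
    | zero => simp
    | succ s ih => exact hcon s ih
  have h1 := this (2 * (i + 1))
  have h2 := Base.pos_ge (b := P.toBase) 0 (i + 1)
  omega

theorem pos_s {s c : ℕ} {σ : Bool} (h : DD (2 * P.M + 1) s = (σ, c)) :
    P.toBase.pos 0 (s + 1) = P.toBase.pos 0 s + P.toBase.l c := by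
  have := Base.pos_idx (b := P.toBase) (k := 0) h
  rwa [zero_add] at this

theorem DD_idx (s : ℕ) : (DD (2 * P.M + 1) s).2 ≤ 2 * P.M + 1 := DD_le _ s

variable {P} {x0 : α}

theorem blk {s c t : ℕ} {σ : Bool} {a : α} (h : DD (2 * P.M + 1) s = (σ, c))
    (ha : (P.w σ c)[t]? = some a) : P.toBase.u x0 (P.toBase.pos 0 s + t) = a := by
  have h4 := Base.pos_block x0 (b := P.toBase) 0 s
  have hc := P.DD_idx s
  rw [toBase_j, h] at h4
  rw [h] at hc
  simp only [zero_add] at h4
  rw [P.W_base σ hc] at h4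
  exact h4.get ha

/-- a run of the word -/
def RunAt (P : LB α) (q : ℕ) (τ : Bool) (m : ℕ) : Prop :=
  ∃ s c, DD (2 * P.M + 1) s = (τ, c) ∧
    ((1 ≤ c ∧ c ≤ 2 * P.M ∧ m + 1 = c ∧ q = P.toBase.pos 0 s + 1) ∨
     (c = 2 * P.M + 1 ∧ m + 1 = 2 * P.M ∧
      (q = P.toBase.pos 0 s + 1 ∨ q = P.toBase.pos 0 s + (P.R (2 * P.M - 1) + 2))))

theorem RunAt.le {q m : ℕ} {τ : Bool} (h : P.RunAt q τ m) : m ≤ 2 * P.M - 1 := by
  obtain ⟨s, c, _, h | h⟩ := h
  · omega
  · omega

theorem RunAt.pos {q m : ℕ} {τ : Bool} (h : P.RunAt q τ m) : 1 ≤ q := by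
  obtain ⟨s, c, _, h | h⟩ := h
  · omega
  · omega

theorem RunAt.prev {q m : ℕ} {τ : Bool} (h : P.RunAt q τ m) :
    P.toBase.u x0 (q - 1) = P.la := by
  obtain ⟨s, c, h0, ⟨h1, h2, h3, h4⟩ | ⟨rfl, h2, h3 | h3⟩⟩ := h
  · rw [h4, Nat.add_sub_cancel, ← Nat.add_zero (P.toBase.pos 0 s)]
    exact blk h0 (P.w_head h1)
  · rw [h3, Nat.add_sub_cancel, ← Nat.add_zero (P.toBase.pos 0 s)]
    exact blk h0 (P.w_head (by omega))
  · rw [h3, show P.toBase.pos 0 s + (P.R (2 * P.M - 1) + 2) - 1 =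
      P.toBase.pos 0 s + (P.R (2 * P.M - 1) + 1) by omega]
    exact blk h0 P.w_hub_mid

theorem RunAt.letter {q m t z : ℕ} {τ : Bool} (h : P.RunAt q τ m)
    (hz : (RN P.M m)[t]? = some z) : P.toBase.u x0 (q + t) = P.lx τ z := by
  have ht : t < P.R m := lt_of_some hz
  obtain ⟨s, c, h0, ⟨h1, h2, h3, h4⟩ | ⟨rfl, h2, h3 | h3⟩⟩ := h
  · rw [h4, show P.toBase.pos 0 s + 1 + t = P.toBase.pos 0 s + (t + 1) by ring]
    apply blk h0
    subst h3
    rw [P.w_small_run h1 h2 ht]
    exact P.run_get hz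
  · rw [h3, show P.toBase.pos 0 s + 1 + t = P.toBase.pos 0 s + (t + 1) by ring]
    apply blk h0
    obtain rfl : m = 2 * P.M - 1 := by omega
    rw [P.w_hub_run ht]
    exact P.run_get hz
  · rw [h3, Nat.add_assoc]
    apply blk h0
    obtain rfl : m = 2 * P.M - 1 := by omega
    rw [P.w_hub_run2 ht]
    exact P.run_get hz

theorem RunAt.next {q m : ℕ} {τ : Bool} (h : P.RunAt q τ m) :
    P.toBase.u x0 (q + P.R m) = P.la := by
  obtain ⟨s, c, h0, ⟨h1, h2, h3, h4⟩ | ⟨rfl, h2, h3 | h3⟩⟩ := h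
  · rw [h4, show P.toBase.pos 0 s + 1 + P.R m = P.toBase.pos 0 s + (P.R m + 1) by ring]
    apply blk h0
    subst h3
    exact P.w_small_last h1 h2
  · rw [h3, show P.toBase.pos 0 s + 1 + P.R m = P.toBase.pos 0 s + (P.R m + 1) by ring]
    apply blk h0
    obtain rfl : m = 2 * P.M - 1 := by omega
    exact P.w_hub_mid
  · obtain rfl : m = 2 * P.M - 1 := by omega
    rw [h3, show P.toBase.pos 0 s + (P.R (2 * P.M - 1) + 2) + P.R (2 * P.M - 1) =
      P.toBase.pos 0 s + (2 * P.R (2 * P.M - 1) + 2) by ring]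
    exact blk h0 P.w_hub_last

theorem RunAt.ne {q m t : ℕ} {τ : Bool} (h : P.RunAt q τ m) (ht : t < P.R m) :
    P.toBase.u x0 (q + t) ≠ P.la := by
  obtain ⟨z, hz⟩ := some_of_lt ht
  rw [h.letter hz]
  exact P.hla τ z (RN_mem_lt (by have := P.hM; omega) h.le (List.mem_of_getElem? hz))

/-- the kinds of positions -/
theorem cases_letter (i : ℕ) : ∃ s τ c, DD (2 * P.M + 1) s = (τ, c) ∧ 1 ≤ c ∧
    P.toBase.pos 0 s ≤ i ∧ i < P.toBase.pos 0 (s + 1) ∧
    ((P.toBase.u x0 i = P.la ∧ (i = P.toBase.pos 0 s ∨ i + 1 = P.toBase.pos 0 (s + 1) ∨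
      (c = 2 * P.M + 1 ∧ i = P.toBase.pos 0 s + (P.R (2 * P.M - 1) + 1)))) ∨
     (P.toBase.u x0 i ≠ P.la ∧ ∃ q m t, P.RunAt q τ m ∧ i = q + t ∧ t < P.R m ∧
      P.toBase.pos 0 s < q ∧ q + P.R m < P.toBase.pos 0 (s + 1))) := by
  obtain ⟨s, h1, h2⟩ := P.block_of i
  obtain ⟨τ, c, hs⟩ : ∃ τ c, DD (2 * P.M + 1) s = (τ, c) := ⟨_, _, rfl⟩
  have hp := P.pos_s hs
  have hc := P.DD_idx s
  rw [hs] at hc
  simp only at hc
  have hc1 : 1 ≤ c := by
    by_contra hcon
    have : c = 0 := by omega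
    subst this
    rw [P.l_zero] at hp
    omega
  refine ⟨s, τ, c, hs, hc1, h1, h2, ?_⟩
  rcases Nat.lt_or_ge c (2 * P.M + 1) with h | h
  · rw [P.l_small hc1 (by omega)] at hp
    have hrun : P.RunAt (P.toBase.pos 0 s + 1) τ (c - 1) :=
      ⟨s, c, hs, Or.inl ⟨hc1, by omega, by omega, rfl⟩⟩
    rcases Nat.eq_or_lt_of_le h1 with h3 | h3
    · left
      refine ⟨?_, Or.inl h3.symm⟩
      have := hrun.prev (x0 := x0)
      rwa [Nat.add_sub_cancel, h3] at this
    · rcases Nat.lt_or_ge i (P.toBase.pos 0 s + 1 + P.R (c - 1)) with h4 | h4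
      · right
        have := hrun.ne (x0 := x0) (t := i - (P.toBase.pos 0 s + 1)) (by omega)
        rw [show P.toBase.pos 0 s + 1 + (i - (P.toBase.pos 0 s + 1)) = i by omega] at this
        exact ⟨this, _, _, i - (P.toBase.pos 0 s + 1), hrun, by omega, by omega, by omega,
          by omega⟩
      · left
        have := hrun.next (x0 := x0)
        rw [show P.toBase.pos 0 s + 1 + P.R (c - 1) = i by omega] at this
        exact ⟨this, Or.inr (Or.inl (by omega))⟩
  · obtain rfl : c = 2 * P.M + 1 := by omega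
    have hM := P.hM
    rw [P.l_hub] at hp
    have hrun1 : P.RunAt (P.toBase.pos 0 s + 1) τ (2 * P.M - 1) :=
      ⟨s, _, hs, Or.inr ⟨rfl, by omega, Or.inl rfl⟩⟩
    have hrun2 : P.RunAt (P.toBase.pos 0 s + (P.R (2 * P.M - 1) + 2)) τ (2 * P.M - 1) :=
      ⟨s, _, hs, Or.inr ⟨rfl, by omega, Or.inr rfl⟩⟩
    rcases Nat.eq_or_lt_of_le h1 with h3 | h3
    · left
      refine ⟨?_, Or.inl h3.symm⟩
      have := hrun1.prev (x0 := x0)
      rwa [Nat.add_sub_cancel, h3] at this
    · rcases Nat.lt_or_ge i (P.toBase.pos 0 s + 1 + P.R (2 * P.M - 1)) with h4 | h4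
      · right
        have := hrun1.ne (x0 := x0) (t := i - (P.toBase.pos 0 s + 1)) (by omega)
        rw [show P.toBase.pos 0 s + 1 + (i - (P.toBase.pos 0 s + 1)) = i by omega] at this
        exact ⟨this, _, _, i - (P.toBase.pos 0 s + 1), hrun1, by omega, by omega, by omega,
          by omega⟩
      · rcases Nat.eq_or_lt_of_le h4 with h5 | h5
        · left
          have := hrun1.next (x0 := x0)
          rw [h5] at this
          exact ⟨this, Or.inr (Or.inr ⟨rfl, by omega⟩)⟩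
        · rcases Nat.lt_or_ge i (P.toBase.pos 0 s + (2 * P.R (2 * P.M - 1) + 2)) with h6 | h6
          · right
            have := hrun2.ne (x0 := x0)
              (t := i - (P.toBase.pos 0 s + (P.R (2 * P.M - 1) + 2))) (by omega)
            rw [show P.toBase.pos 0 s + (P.R (2 * P.M - 1) + 2) +
              (i - (P.toBase.pos 0 s + (P.R (2 * P.M - 1) + 2))) = i by omega] at this
            exact ⟨this, _, _, i - (P.toBase.pos 0 s + (P.R (2 * P.M - 1) + 2)), hrun2,
              by omega, by omega, by omega, by omega⟩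
          · left
            have := hrun2.next (x0 := x0)
            rw [show P.toBase.pos 0 s + (P.R (2 * P.M - 1) + 2) + P.R (2 * P.M - 1) = i by omega]
              at this
            exact ⟨this, Or.inr (Or.inl (by omega))⟩

/-- every letter different from `a` lies in a run -/
theorem run_of {i : ℕ} (h : P.toBase.u x0 i ≠ P.la) : ∃ q τ m t, P.RunAt q τ m ∧ i = q + t ∧
    t < P.R m := by
  obtain ⟨s, τ, c, _, _, _, _, ⟨h1, _⟩ | ⟨_, q, m, t, h2, h3, h4, _⟩⟩ :=
    cases_letter (P := P) (x0 := x0) i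
  · exact absurd h1 h
  · exact ⟨q, τ, m, t, h2, h3, h4⟩

/-- blocks start with `a` -/
theorem start (s : ℕ) : P.toBase.u x0 (P.toBase.pos 0 s) = P.la := by
  obtain ⟨s', τ, c, h0, h1, h2, h3, h4⟩ := cases_letter (P := P) (x0 := x0) (P.toBase.pos 0 s)
  have hs : s ≤ s' := by
    by_contra hcon
    have := Base.pos_mono (b := P.toBase) 0 (show s' + 1 ≤ s by omega)
    omega
  have := Base.pos_mono (b := P.toBase) 0 hs
  have h5 : P.toBase.pos 0 s = P.toBase.pos 0 s' := by omega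
  rw [h5, ← Nat.add_zero (P.toBase.pos 0 s')]
  exact blk h0 (P.w_head h1)

/-- a single `a` is the middle of a hub -/
theorem single {q : ℕ} (hq : 1 ≤ q) (h0 : P.toBase.u x0 q = P.la)
    (h1 : P.toBase.u x0 (q - 1) ≠ P.la) (h2 : P.toBase.u x0 (q + 1) ≠ P.la) :
    ∃ s τ, DD (2 * P.M + 1) s = (τ, 2 * P.M + 1) ∧
      q = P.toBase.pos 0 s + (P.R (2 * P.M - 1) + 1) ∧
      P.RunAt (P.toBase.pos 0 s + 1) τ (2 * P.M - 1) := by
  obtain ⟨q0, τ, m, t, h3, h4, h5⟩ := run_of h1
  have ht : t + 1 = P.R m := by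
    by_contra hcon
    apply h3.ne (x0 := x0) (t := t + 1) (by omega)
    rw [← h0]
    congr 1
    omega
  have hM := P.hM
  obtain ⟨s, c, g0, ⟨g1, g2, g3, g4⟩ | ⟨rfl, g2, g3 | g3⟩⟩ := h3
  · exfalso
    apply h2
    have := P.pos_s g0
    rw [P.l_small g1 g2] at this
    rw [show q + 1 = P.toBase.pos 0 (s + 1) by subst g3; rw [Nat.add_sub_cancel] at this; omega]
    exact start (s + 1)
  · obtain rfl : m = 2 * P.M - 1 := by omega
    exact ⟨s, τ, g0, by omega, s, _, g0, Or.inr ⟨rfl, by omega, Or.inl rfl⟩⟩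
  · exfalso
    apply h2
    obtain rfl : m = 2 * P.M - 1 := by omega
    have := P.pos_s g0
    rw [P.l_hub] at this
    rw [show q + 1 = P.toBase.pos 0 (s + 1) by omega]
    exact start (s + 1)

/-- the run that starts after an `a` -/
theorem run_start {z m : ℕ} {σ : Bool} (hm : m ≤ 2 * P.M - 1) (h0 : P.toBase.u x0 z = P.la)
    (h1 : ∀ t < P.R m, ∀ y, (RN P.M m)[t]? = some y → P.toBase.u x0 (z + 1 + t) = P.lx σ y)
    (h2 : P.toBase.u x0 (z + 1 + P.R m) = P.la) : P.RunAt (z + 1) σ m := by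
  have hM := P.hM
  have hR := P.R_pos m
  have hy := h1 0 (by omega) 0 (RN_get_zero _ _)
  rw [Nat.add_zero] at hy
  obtain ⟨q, τ, m', t, h3, h4, h5⟩ := run_of (P := P) (x0 := x0) (i := z + 1)
    (by rw [hy]; exact P.hzero σ)
  have ht : t = 0 := by
    by_contra hcon
    apply h3.ne (x0 := x0) (t := t - 1) (by omega)
    rw [← h0]
    congr 1
    omega
  subst ht
  have hq : q = z + 1 := by omega
  subst hq
  have hτ : σ = τ := by
    have := h3.letter (x0 := x0) (t := 0) (RN_get_zero _ _)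
    rw [Nat.add_zero, hy] at this
    exact (P.inj _ _ 0 0 (by omega) (by omega) this).1
  subst hτ
  have hlen : P.R m' = P.R m := by
    rcases Nat.lt_trichotomy (P.R m') (P.R m) with h | h | h
    · exfalso
      obtain ⟨y, hy'⟩ := some_of_lt h
      have := h1 (P.R m') h y hy'
      rw [h3.next] at this
      exact P.hla σ y (RN_mem_lt (by omega) hm (List.mem_of_getElem? hy')) this.symm
    · exact h
    · exfalso
      exact h3.ne h h2
  have : m' = m := by
    have hm' := h3.le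
    rcases Nat.lt_trichotomy m' m with h | h | h
    · have := P.R_lt h hm; omega
    · exact h
    · have := P.R_lt h hm'; omega
  subst this
  exact h3

theorem natBase : P.toBase.NatBase x0 := by
  intro σ i hocc
  have hM := P.hM
  change Occ _ i (P.w σ (2 * P.M + 1)) at hocc
  have hR := P.R_pos (2 * P.M - 1)
  have e1 := hocc.get (P.w_hub_mid)
  obtain ⟨y, hy⟩ := some_of_lt (show P.R (2 * P.M - 1) - 1 < P.R (2 * P.M - 1) by omega)
  have hyM := RN_mem_lt (M := P.M) (by omega) le_rfl (List.mem_of_getElem? hy)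
  have e2 := hocc.get (t := P.R (2 * P.M - 1) - 1 + 1)
    (by rw [P.w_hub_run (by omega)]; exact P.run_get hy)
  have e3 := hocc.get (t := P.R (2 * P.M - 1) + 2 + 0)
    (by rw [P.w_hub_run2 (by omega)]; exact P.run_head σ _)
  have e4 := hocc.get (t := 0 + 1) (by rw [P.w_hub_run (by omega)]; exact P.run_head σ _)
  obtain ⟨s, τ, g1, g2, g3⟩ := single (P := P) (x0 := x0)
    (q := i + (P.R (2 * P.M - 1) + 1)) (by omega) e1
    (by
      rw [show i + (P.R (2 * P.M - 1) + 1) - 1 = i + (P.R (2 * P.M - 1) - 1 + 1) by omega, e2]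
      exact P.hla σ y hyM)
    (by
      rw [show i + (P.R (2 * P.M - 1) + 1) + 1 = i + (P.R (2 * P.M - 1) + 2 + 0) by omega, e3]
      exact P.hzero σ)
  have hi : P.toBase.pos 0 s = i := by omega
  have e5 := g3.letter (x0 := x0) (t := 0) (RN_get_zero _ _)
  rw [hi, show i + 1 + 0 = i + (0 + 1) by ring, e4] at e5
  obtain rfl := (P.inj _ _ 0 0 (by omega) (by omega) e5).1
  exact ⟨s, g1, hi⟩

end LB

end Pool.Agent.Helper77.Odd
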