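import Pool.Agent.Helper77.Odd.OddFinal

/-!
The bound for an odd number of letters is smaller than `1 + 1 / (3 - μ)`.
-/

namespace Pool.Agent.Helper77.Odd

theorem pow_ge_lin {n : ℕ} (hn : 4 ≤ n) : (3 * n + 4 : ℝ) ≤ 2 ^ n := by
  induction n, hn using Nat.le_induction with
  | base => norm_num
  | succ n hn ih =>
    have : (4 : ℝ) ≤ n := by exact_mod_cast hn
    rw [pow_succ]
    push_cast
    linarith

/-- the root is large -/
theorem root_gt {n : ℕ} (hn : 4 ≤ n) {δ : ℝ} (h0 : 0 < δ) (h : (2 + δ) ^ n * δ = 1) :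
    6 < δ * (7 * 2 ^ n - 4) := by
  by_contra hcon
  push Not at hcon
  have hN := pow_ge_lin hn
  have hn' : (4 : ℝ) ≤ n := by exact_mod_cast hn
  obtain ⟨N, hN'⟩ : ∃ N : ℝ, N = 2 ^ n := ⟨_, rfl⟩
  rw [← hN'] at hcon hN
  have hpos : (0 : ℝ) < 7 * N - 4 := by linarith
  obtain ⟨y, hy⟩ : ∃ y : ℝ, y = 3 / (7 * N - 4) := ⟨_, rfl⟩
  have hy0 : 0 < y := by rw [hy]; positivity
  have hyN : y * (7 * N - 4) = 3 := by rw [hy]; field_simp
  have hδy : δ ≤ 2 * y := by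
    have h1 : δ * (7 * N - 4) ≤ 2 * y * (7 * N - 4) := by linarith
    exact le_of_mul_le_mul_right h1 hpos
  have hy1 : y < 1 := by nlinarith
  -- Bernoulli
  have hb1 : 1 - n * y ≤ (1 - y) ^ n := by
    have := one_add_mul_le_pow (show (-2 : ℝ) ≤ -y by linarith) n
    calc 1 - n * y = 1 + n * (-y) := by ring
      _ ≤ (1 + -y) ^ n := this
      _ = (1 - y) ^ n := by ring
  have hb2 : (1 + y) ^ n * (1 - n * y) < 1 := by
    have h1 : (1 + y) ^ n * (1 - n * y) ≤ (1 + y) ^ n * (1 - y) ^ n :=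
      mul_le_mul_of_nonneg_left hb1 (by positivity)
    have h2 : (1 + y) ^ n * (1 - y) ^ n = (1 - y ^ 2) ^ n := by
      rw [← mul_pow]; ring
    have h3 : (1 - y ^ 2) ^ n < 1 := by
      apply pow_lt_one₀
      · nlinarith
      · nlinarith
      · omega
    linarith
  -- the value of `1 - n y`
  have hb3 : 6 * N ≤ (1 - n * y) * (7 * N - 4) := by
    have : (1 - n * y) * (7 * N - 4) = 7 * N - 4 - n * (y * (7 * N - 4)) := by ring
    rw [this, hyN]
    linarith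
  have hb4 : (1 + y) ^ n * (6 * N) < 7 * N - 4 := by
    have h1 : (1 + y) ^ n * (6 * N) ≤ (1 + y) ^ n * ((1 - n * y) * (7 * N - 4)) :=
      mul_le_mul_of_nonneg_left hb3 (by positivity)
    have h2 : (1 + y) ^ n * ((1 - n * y) * (7 * N - 4)) =
      ((1 + y) ^ n * (1 - n * y)) * (7 * N - 4) := by ring
    have h3 : ((1 + y) ^ n * (1 - n * y)) * (7 * N - 4) < 1 * (7 * N - 4) :=
      mul_lt_mul_of_pos_right hb2 hpos
    linarith
  have h5 : (2 + δ) ^ n ≤ N * (1 + y) ^ n := by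
    calc (2 + δ) ^ n ≤ (2 * (1 + y)) ^ n := by
          apply pow_le_pow_left₀ (by linarith)
          linarith
      _ = N * (1 + y) ^ n := by rw [mul_pow, hN']
  have hc0 : 0 < (2 + δ) ^ n := by positivity
  have h6 : (2 + δ) ^ n * δ ≤ (2 + δ) ^ n * (2 * y) := mul_le_mul_of_nonneg_left hδy hc0.le
  have h7 : (2 + δ) ^ n * (2 * y) ≤ N * (1 + y) ^ n * (2 * y) :=
    mul_le_mul_of_nonneg_right h5 (by positivity)
  have h8 : N * (1 + y) ^ n * (2 * y) = ((1 + y) ^ n * (6 * N)) * (y / 3) := by ring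
  have h9 : ((1 + y) ^ n * (6 * N)) * (y / 3) < (7 * N - 4) * (y / 3) :=
    mul_lt_mul_of_pos_right hb4 (by positivity)
  have h10 : (7 * N - 4) * (y / 3) = 1 := by
    have : (7 * N - 4) * (y / 3) = y * (7 * N - 4) / 3 := by ring
    rw [this, hyN]; norm_num
  linarith

theorem compare {d : ℕ} (hd : 5 ≤ d) {μ : ℝ} (h2 : 2 < μ) (hμ : μ ^ d = 2 * μ ^ (d - 1) + 1) :
    2 + 6 / (7 * 2 ^ (d - 1) - 10) < 1 + 1 / (3 - μ) := by
  obtain ⟨n, rfl⟩ : ∃ n, d = n + 1 := ⟨d - 1, by omega⟩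
  rw [Nat.add_sub_cancel] at *
  obtain ⟨δ, hδ⟩ : ∃ δ : ℝ, μ = 2 + δ := ⟨μ - 2, by ring⟩
  subst hδ
  have hδ0 : 0 < δ := by linarith
  have h3 : (2 + δ) ^ n * δ = 1 := by
    rw [pow_succ] at hμ
    linarith
  have h4 := root_gt (by omega) hδ0 h3
  have hN := pow_ge_lin (n := n) (by omega)
  have hn' : (4 : ℝ) ≤ n := by exact_mod_cast (show 4 ≤ n by omega)
  have h5 : (1 : ℝ) ≤ (2 + δ) ^ n := one_le_pow₀ (by linarith)
  have hδ1 : δ < 1 := by
    by_contra hcon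
    push Not at hcon
    have h6 : (2 : ℝ) ^ n ≤ (2 + δ) ^ n := pow_le_pow_left₀ (by norm_num) (by linarith) n
    nlinarith
  have hp1 : (0 : ℝ) < 7 * 2 ^ n - 10 := by linarith
  have hp2 : (0 : ℝ) < 3 - (2 + δ) := by linarith
  have h7 : 6 / (7 * 2 ^ n - 10) < 1 / (3 - (2 + δ)) - 1 := by
    have h8 : 1 / (3 - (2 + δ)) - 1 = δ / (3 - (2 + δ)) := by
      field_simp
      ring
    rw [h8, div_lt_div_iff₀ hp1 hp2]
    nlinarith
  linarith

end Pool.Agent.Helper77.Odd
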