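import Pool.Agent.Helper77.Odd.OddRich2

/-!
Repetitions without a hub in the window.
-/

namespace Pool.Agent.Helper77.Odd

open Pool.Agent.Helper20.Rich

variable {α : Type*}

namespace LB

variable {P : LB α} {x0 : α}

theorem blk_unique {s s' q : ℕ} (h1 : P.toBase.pos 0 s ≤ q) (h2 : q < P.toBase.pos 0 (s + 1))
    (h3 : P.toBase.pos 0 s' ≤ q) (h4 : q < P.toBase.pos 0 (s' + 1)) : s = s' := by
  rcases Nat.lt_trichotomy s s' with h | h | h
  · have := Base.pos_mono (b := P.toBase) 0 (show s + 1 ≤ s' by omega)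
    omega
  · exact h
  · have := Base.pos_mono (b := P.toBase) 0 (show s' + 1 ≤ s by omega)
    omega

/-- the letters `a` of a block -/
theorem la_in {s c q : ℕ} {τ : Bool} (h0 : DD (2 * P.M + 1) s = (τ, c))
    (h1 : P.toBase.pos 0 s ≤ q) (h2 : q < P.toBase.pos 0 (s + 1))
    (h3 : P.toBase.u x0 q = P.la) : q = P.toBase.pos 0 s ∨ q + 1 = P.toBase.pos 0 (s + 1) ∨
      (c = 2 * P.M + 1 ∧ q = P.toBase.pos 0 s + (P.R (2 * P.M - 1) + 1)) := by
  obtain ⟨s', τ', c', g1, g2, g3, g4, g5⟩ := cases_letter (P := P) (x0 := x0) q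
  obtain rfl := blk_unique h1 h2 g3 g4
  rw [h0] at g1
  obtain ⟨_, rfl⟩ := Prod.mk.inj g1
  rcases g5 with ⟨_, g5⟩ | ⟨g5, _⟩
  · exact g5
  · exact absurd h3 g5

/-- the letter before a block -/
theorem before {s : ℕ} (h : 1 ≤ P.toBase.pos 0 s) :
    P.toBase.u x0 (P.toBase.pos 0 s - 1) = P.la := by
  obtain ⟨s', τ', c', g1, g2, g3, g4, _⟩ :=
    cases_letter (P := P) (x0 := x0) (P.toBase.pos 0 s - 1)
  have hs : s' < s := by
    by_contra hcon
    have := Base.pos_mono (b := P.toBase) 0 (show s ≤ s' by omega)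
    omega
  have := Base.pos_mono (b := P.toBase) 0 (show s' + 1 ≤ s by omega)
  rw [show P.toBase.pos 0 s = P.toBase.pos 0 (s' + 1) by omega]
  exact (blk_end g1 g2).2.2

/-- a small word `a R a` with letters `a` on the needed sides is natural. -/
theorem small_nat {z c : ℕ} {σ : Bool} (h1 : 1 ≤ c) (h2 : c ≤ 2 * P.M)
    (hocc : ∀ t < (P.w σ c).length, (P.w σ c)[t]? = some (P.toBase.u x0 (z + t)))
    (hleft : 1 ≤ z → P.toBase.u x0 (z - 1) = P.la)
    (hright : P.toBase.u x0 (z + (P.R (c - 1) + 2)) = P.la) :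
    ∃ s, DD (2 * P.M + 1) s = (σ, c) ∧ P.toBase.pos 0 s = z := by
  have hM := P.hM
  have hR := P.R_pos (2 * P.M - 1)
  have hlen := P.w_small_len (σ := σ) h1 h2
  have hg : ∀ t a, (P.w σ c)[t]? = some a → P.toBase.u x0 (z + t) = a := by
    intro t a ha
    have := hocc t (lt_of_some ha)
    rw [ha] at this
    exact (Option.some.inj this).symm
  have hrun : P.RunAt (z + 1) σ (c - 1) := by
    apply run_start (x0 := x0) (by omega)
    · have := hg _ _ (P.w_head h1)
      rwa [Nat.add_zero] at this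
    · intro t ht y hy
      have := hg (t + 1) (P.lx σ y) (by
        rw [P.w_small_run h1 h2 ht]
        exact P.run_get hy)
      rw [← this]
      congr 1
      omega
    · have := hg _ _ (P.w_small_last h1 h2)
      rw [← this]
      congr 1
      omega
  obtain ⟨s, c', g0, ⟨g1, g2, g3, g4⟩ | ⟨rfl, g2, g3 | g3⟩⟩ := hrun
  · obtain rfl : c' = c := by omega
    exact ⟨s, g0, by omega⟩
  · exfalso
    obtain rfl : c = 2 * P.M := by omega
    have hr2 : P.RunAt (P.toBase.pos 0 s + (P.R (2 * P.M - 1) + 2)) σ (2 * P.M - 1) :=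
      ⟨s, _, g0, Or.inr ⟨rfl, by omega, Or.inr rfl⟩⟩
    apply hr2.ne (x0 := x0) (t := 0) (by omega)
    rw [← hright]
    congr 1
    omega
  · exfalso
    have hr1 : P.RunAt (P.toBase.pos 0 s + 1) σ (2 * P.M - 1) :=
      ⟨s, _, g0, Or.inr ⟨rfl, by omega, Or.inl rfl⟩⟩
    apply hr1.ne (x0 := x0) (t := P.R (2 * P.M - 1) - 1) (by omega)
    rw [← hleft (by omega)]
    congr 1
    omega

theorem blk_occ {s c : ℕ} {τ : Bool} (h : DD (2 * P.M + 1) s = (τ, c)) :
    ∀ t < (P.w τ c).length, (P.w τ c)[t]? = some (P.toBase.u x0 (P.toBase.pos 0 s + t)) := by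
  intro t ht
  obtain ⟨a, ha⟩ := some_of_lt ht
  rw [ha, blk h ha]

theorem w_len {c : ℕ} (τ : Bool) (h : c ≤ 2 * P.M + 1) : (P.w τ c).length = P.toBase.l c := by
  rw [← P.W_base τ h, Base.length_W]

/-- two blocks of the same side with nothing between them are hubs. -/
theorem same_side {s1 c1 s2 c2 : ℕ} {τ : Bool} (h1 : DD (2 * P.M + 1) s1 = (τ, c1))
    (h2 : DD (2 * P.M + 1) s2 = (τ, c2)) (hc2 : 1 ≤ c2) (hlt : s1 < s2)
    (hpos : P.toBase.pos 0 (s1 + 1) = P.toBase.pos 0 s2) :
    s2 = s1 + 2 ∧ c1 = 2 * P.M + 1 ∧ c2 = 2 * P.M + 1 := by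
  have hM := P.hM
  have hside := Base.side_alt (b := P.toBase) s1
  rw [toBase_j, h1] at hside
  have hne : s2 ≠ s1 + 1 := by
    rintro rfl
    rw [h2] at hside
    cases τ <;> simp at hside
  obtain ⟨c3, hc3⟩ : ∃ c3, DD (2 * P.M + 1) (s1 + 1) = (!τ, c3) := by
    refine ⟨(DD (2 * P.M + 1) (s1 + 1)).2, ?_⟩
    ext
    · rw [hside]
    · rfl
  have hp := P.pos_s hc3
  have hmono := Base.pos_mono (b := P.toBase) 0 (show s1 + 1 + 1 ≤ s2 by omega)
  have hc0 : c3 = 0 := by
    by_contra hcon
    have := P.l_pos' (n := c3) (by omega)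
    omega
  subst hc0
  rw [P.l_zero] at hp
  have e1 := (Base.sep_left (b := P.toBase) (s := s1 + 1) (by rw [toBase_j]; omega) hc3).2
  have e2 := Base.sep_right (b := P.toBase) (s := s1 + 1) (by rw [toBase_j]; omega) hc3
  rw [Nat.add_sub_cancel, toBase_j, h1] at e1
  rw [toBase_j, Bool.not_not] at e2
  have e3 := P.pos_s e2
  have hlj := P.l_pos' (n := 2 * P.M + 1) (by omega)
  have hs2 : s2 = s1 + 1 + 1 := by
    by_contra hcon
    have := Base.pos_mono (b := P.toBase) 0 (show s1 + 1 + 1 + 1 ≤ s2 by omega)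
    omega
  subst hs2
  rw [e2] at h2
  exact ⟨rfl, (Prod.mk.inj e1).2, (Prod.mk.inj h2).2.symm⟩

theorem no_aa {i p n q : ℕ} (hM : MaxMatch (P.toBase.u x0) i p n)
    (hno : ∀ r τ, DD (2 * P.M + 1) r = (τ, 2 * P.M + 1) → i ≤ P.toBase.pos 0 r →
      P.toBase.pos 0 (r + 1) ≤ i + n → False) (hpn : p < n) (hp : 1 ≤ p)
    (h1 : i ≤ q) (h2 : q + 1 < i + n) (h3 : P.toBase.u x0 q = P.la)
    (h4 : P.toBase.u x0 (q + 1) = P.la) : False := by
  have hPM := P.hM
  have hR := P.R_pos (2 * P.M - 1)
  have hmt : ∀ x, i ≤ x → x < i + n → P.toBase.u x0 x = P.toBase.u x0 (x + p) := by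
    intro x hx1 hx2
    have := hM.m (x - i) (by omega)
    rw [show i + (x - i) = x by omega, show i + p + (x - i) = x + p by omega] at this
    exact this
  have h3' := hmt q h1 (by omega)
  have h4' := hmt (q + 1) (by omega) (by omega)
  rw [h3] at h3'
  rw [h4, show q + 1 + p = q + p + 1 by ring] at h4'
  obtain ⟨s1, τ1, c1, s2, τ2, c2, a1, a2, a3, a4, a5, a6, a7⟩ := aa_pair h3 h4
  obtain ⟨s3, τ3, c3, s4, τ4, c4, b1, b2, b3, b4, b5, b6, b7⟩ := aa_pair h3'.symm h4'.symm
  have hc2 := P.DD_idx s2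
  have hc3 := P.DD_idx s3
  rw [a4] at hc2
  rw [b1] at hc3
  simp only at hc2 hc3
  -- right end
  have right : i + n ≤ P.toBase.pos 0 (s2 + 1) := by
    by_contra hcon
    push Not at hcon
    have hps := P.pos_s a4
    rcases Nat.lt_or_ge c2 (2 * P.M + 1) with g | g
    · have hlc := P.l_small a5 (by omega)
      obtain ⟨s5, e1, e2⟩ := small_nat (P := P) (x0 := x0) (z := q + p + 1) (c := c2) (σ := τ2)
        a5 (by omega) (by
          intro t ht
          rw [blk_occ (x0 := x0) a4 t ht]
          rw [P.w_len τ2 (by omega)] at ht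
          rw [hmt _ (by omega) (by omega)]
          congr 2
          omega)
        (fun _ => by rw [Nat.add_sub_cancel]; exact h3'.symm)
        (by
          have := hmt (P.toBase.pos 0 (s2 + 1)) (by omega) hcon
          rw [start] at this
          rw [this]
          congr 1
          omega)
      have f1 := Base.sep_right (b := P.toBase) (s := s2) g a4
      have f2 := Base.sep_right (b := P.toBase) (s := s5) g e1
      have hps5 := P.pos_s e1
      have f3 := P.pos_s f1
      have := Base.block_in (b := P.toBase) (k := 0) (r := s2 + 1) (r' := s5 + 1) hM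
        (f2.trans f1.symm) (by omega) (by omega) (by omega)
      exact hno (s2 + 1) _ f1 this.1 this.2
    · obtain rfl : c2 = 2 * P.M + 1 := by omega
      exact hno s2 τ2 a4 (by omega) (by omega)
  -- left end
  have left : P.toBase.pos 0 s3 ≤ i + p := by
    by_contra hcon
    push Not at hcon
    have hps := P.pos_s b1
    have hw : ∀ t < (P.w τ3 c3).length, (P.w τ3 c3)[t]? =
        some (P.toBase.u x0 (P.toBase.pos 0 s3 - p + t)) := by
      intro t ht
      rw [blk_occ (x0 := x0) b1 t ht]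
      rw [P.w_len τ3 hc3] at ht
      rw [hmt (P.toBase.pos 0 s3 - p + t) (by omega) (by omega)]
      congr 2
      omega
    rcases Nat.lt_or_ge c3 (2 * P.M + 1) with g | g
    · have hlc := P.l_small b2 (by omega)
      obtain ⟨s5, e1, e2⟩ := small_nat (P := P) (x0 := x0) (z := P.toBase.pos 0 s3 - p) (c := c3)
        (σ := τ3) b2 (by omega) hw
        (fun _ => by
          rw [hmt (P.toBase.pos 0 s3 - p - 1) (by omega) (by omega),
            show P.toBase.pos 0 s3 - p - 1 + p = P.toBase.pos 0 s3 - 1 by omega]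
          exact before (by omega))
        (by
          rw [← h4]
          congr 1
          omega)
      obtain ⟨f0, f1⟩ := Base.sep_left (b := P.toBase) (s := s5) g e1
      obtain ⟨f0', f2⟩ := Base.sep_left (b := P.toBase) (s := s3) g b1
      have f3 := P.pos_s f1
      have f4 := P.pos_s f2
      rw [Nat.sub_add_cancel f0] at f3
      rw [Nat.sub_add_cancel f0'] at f4
      rw [toBase_j] at f3 f4
      have := Base.block_in (b := P.toBase) (k := 0) (r := s5 - 1) (r' := s3 - 1) hM
        (f2.trans f1.symm) (by omega) (by omega) (by rw [Nat.sub_add_cancel f0]; omega)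
      rw [Nat.sub_add_cancel f0] at this
      exact hno (s5 - 1) _ f1 this.1 (by rw [Nat.sub_add_cancel f0]; exact this.2)
    · obtain rfl : c3 = 2 * P.M + 1 := by omega
      have hocc : Occ (P.toBase.u x0) (P.toBase.pos 0 s3 - p) (P.toBase.w τ3 P.toBase.j) :=
        Occ.of_get hw
      obtain ⟨s5, e1, e2⟩ := natBase τ3 _ hocc
      rw [toBase_j] at e1
      have := P.pos_s e1
      exact hno s5 τ3 e1 (by omega) (by omega)
  have hle : s2 ≤ s3 := by
    by_contra hcon
    have := Base.pos_mono (b := P.toBase) 0 (show s3 + 1 ≤ s2 by omega)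
    omega
  rcases Nat.eq_or_lt_of_le hle with he | hlt
  · -- one block
    subst he
    rw [a4] at b1
    obtain ⟨rfl, rfl⟩ := Prod.mk.inj b1
    have hps := P.pos_s a4
    have hl3 := P.l_pos' b2
    have r2 : i + n ≤ q + 2 := by
      by_contra hcon
      push Not at hcon
      have e1 := hmt (q + 2) (by omega) hcon
      have e2 := blk_first (x0 := x0) a4 a5
      have e3 := blk_first (x0 := x0) b4 b5
      rw [a6, show q + 1 + 1 = q + 2 by rfl, e1] at e2
      rw [b6, show q + p + 1 + 1 = q + 2 + p by ring, e2] at e3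
      obtain rfl := (P.inj _ _ 0 0 (by omega) (by omega) e3).1
      obtain ⟨k1, k2, k3⟩ := same_side a4 b4 b5 b7 (by omega)
      subst k2
      have := Base.block_in (b := P.toBase) (k := 0) (r := s2) (r' := s4) hM
        (by rw [toBase_j, b4, a4, k3]) (by omega) (by omega) (by omega)
      exact hno s2 _ a4 this.1 this.2
    have l2 : q ≤ i := by
      by_contra hcon
      push Not at hcon
      have e1 := hmt (q - 1) (by omega) (by omega)
      have e2 := (blk_end (x0 := x0) a1 a2).2.1
      have e3 := (blk_end (x0 := x0) a4 a5).2.1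
      rw [a3, show q + 1 - 2 = q - 1 by omega, e1] at e2
      rw [b3, show q + p + 1 - 2 = q - 1 + p by omega, e2] at e3
      obtain rfl := (P.inj _ _ 0 0 (by omega) (by omega) e3).1
      obtain ⟨k1, k2, k3⟩ := same_side a1 a4 a5 a7 (by omega)
      subst k2 k3
      have hps1 := P.pos_s a1
      have := Base.block_in (b := P.toBase) (k := 0) (r := s1) (r' := s2) hM
        (by rw [toBase_j, a1, a4]) (by omega) (by omega) (by omega)
      exact hno s1 _ a1 this.1 this.2
    omega
  · have := Base.pos_mono (b := P.toBase) 0 (show s2 + 1 ≤ s3 by omega)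
    omega

theorem short {i p n : ℕ} (hp : 1 ≤ p) (hM : MaxMatch (P.toBase.u x0) i p n)
    (hno : ∀ r τ, DD (2 * P.M + 1) r = (τ, 2 * P.M + 1) → i ≤ P.toBase.pos 0 r →
      P.toBase.pos 0 (r + 1) ≤ i + n → False) :
    n ≤ p ∨ (p = P.R (2 * P.M - 1) + 1 ∧ n ≤ P.R (2 * P.M - 1) + 2) := by
  by_contra hcon
  push Not at hcon
  obtain ⟨hpn, hhub⟩ := hcon
  have hPM := P.hM
  have hR := P.R_pos (2 * P.M - 1)
  have hmt : ∀ x, i ≤ x → x < i + n → P.toBase.u x0 x = P.toBase.u x0 (x + p) := by
    intro x hx1 hx2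
    have := hM.m (x - i) (by omega)
    rw [show i + (x - i) = x by omega, show i + p + (x - i) = x + p by omega] at this
    exact this
  -- no pair in the region
  have hB : ∀ q, i ≤ q → q + 1 < i + n + p → P.toBase.u x0 q = P.la →
      P.toBase.u x0 (q + 1) = P.la → False := by
    intro q h1 h2 h3 h4
    rcases Nat.lt_or_ge (q + 1) (i + n) with h | h
    · exact no_aa hM hno hpn hp h1 h h3 h4
    · refine no_aa hM hno hpn hp (q := q - p) (by omega) (by omega) ?_ ?_
      · rw [hmt (q - p) (by omega) (by omega), show q - p + p = q by omega]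
        exact h3
      · rw [hmt (q - p + 1) (by omega) (by omega), show q - p + 1 + p = q + 1 by omega]
        exact h4
  obtain ⟨s, τ, c, g1, g2, g3, g4, _⟩ := cases_letter (P := P) (x0 := x0) i
  have hps := P.pos_s g1
  have hc := P.DD_idx s
  rw [g1] at hc
  simp only at hc
  have hin : i + n + p ≤ P.toBase.pos 0 (s + 1) := by
    by_contra hcon
    push Not at hcon
    obtain ⟨e1, _, e3⟩ := blk_end (x0 := x0) g1 g2
    refine hB (P.toBase.pos 0 (s + 1) - 1) (by omega) (by omega) e3 ?_
    rw [Nat.sub_add_cancel (by omega)]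
    exact start _
  by_cases hex : ∃ q, i ≤ q ∧ q < i + n + p ∧ P.toBase.u x0 q = P.la
  · obtain ⟨q, k1, k2, k3, k4⟩ : ∃ q, i ≤ q ∧ q < i + n ∧ P.toBase.u x0 q = P.la ∧
        P.toBase.u x0 (q + p) = P.la := by
      obtain ⟨q, h1, h2, h3⟩ := hex
      rcases Nat.lt_or_ge q (i + n) with h | h
      · exact ⟨q, h1, h, h3, by rw [← hmt q h1 h]; exact h3⟩
      · have := hmt (q - p) (by omega) (by omega)
        rw [show q - p + p = q by omega] at this
        exact ⟨q - p, by omega, by omega, by rw [this]; exact h3,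
          by rw [show q - p + p = q by omega]; exact h3⟩
    have m1 := la_in (x0 := x0) g1 (q := q) (by omega) (by omega) k3
    have m2 := la_in (x0 := x0) g1 (q := q + p) (by omega) (by omega) k4
    rcases Nat.lt_or_ge c (2 * P.M + 1) with h | h
    · have hlc := P.l_small g2 (by omega)
      omega
    · obtain rfl : c = 2 * P.M + 1 := by omega
      rw [P.l_hub] at hps
      by_cases hpe : p = P.R (2 * P.M - 1) + 1
      · have := hhub hpe
        omega
      · omega
  · push Not at hex
    obtain ⟨q0, τ', m, t0, e1, e2, e3⟩ := run_of (hex i le_rfl (by omega))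
    have hend : i + n + p ≤ q0 + P.R m := by
      by_contra hcon
      push Not at hcon
      exact hex (q0 + P.R m) (by omega) hcon e1.next
    have hRm := P.R_le e1.le le_rfl
    apply RN_top_ovf P.M t0 p hp (by rw [R_def]; omega)
    intro t ht
    obtain ⟨y, hy⟩ := some_of_lt (show t0 + t < (RN P.M m).length by rw [R_def]; omega)
    obtain ⟨y', hy'⟩ := some_of_lt (show t0 + p + t < (RN P.M m).length by rw [R_def]; omega)
    have f1 := e1.letter (x0 := x0) hy
    have f2 := e1.letter (x0 := x0) hy'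
    have f3 := hmt (q0 + (t0 + t)) (by omega) (by omega)
    rw [show q0 + (t0 + t) + p = q0 + (t0 + p + t) by ring, f1, f2] at f3
    have := (P.inj _ _ _ _ (RN_mem_lt (by omega) e1.le (List.mem_of_getElem? hy))
      (RN_mem_lt (by omega) e1.le (List.mem_of_getElem? hy')) f3).2
    rw [RN_get e1.le le_rfl hy, RN_get e1.le le_rfl hy', this]

end LB

end Pool.Agent.Helper77.Odd
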