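import Pool.Agent.Helper77.Odd.OddRich2
import Pool.Agent.Helper77.Odd.OddShort

/-!
The repetition threshold for an odd number of letters.
-/

open scoped ENNReal

namespace Pool.Agent.Helper77.Odd

open Pool.Agent.Helper20.Rich

theorem cN_bound (m : ℕ) : (cN m).length + 2 ≤ 3 * 2 ^ m := by
  induction m with
  | zero => simp [cN]
  | succ m ih =>
    rw [cN_len, pow_succ]
    have := cg_le m
    omega

theorem cN_even_len (i : ℕ) : 3 * (cN (2 * i)).length + 4 = 7 * 4 ^ i := by
  induction i with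
  | zero => simp [cN]
  | succ i ih =>
    rw [show 2 * (i + 1) = 2 * i + 1 + 1 by ring, cN_len, cN_len, cg_even (by omega),
      cg_odd (by omega), pow_succ]
    omega

namespace LB

variable {α : Type*} (P : LB α) {x0 : α}

theorem R_top : P.R (2 * P.M - 1) = 2 * (cN (2 * P.M - 2)).length := by
  rw [R, RN_top, List.length_append]; omega

theorem R_small {m : ℕ} (h : m < 2 * P.M - 1) : P.R m = (cN m).length := by
  rw [R, RN_lt h]

theorem e_le {r : ℕ} (h : r < 2 * P.M + 1) : P.e r ≤ 2 ^ (r + 1) := by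
  have hM := P.hM
  unfold e
  split_ifs with h1 h2
  · subst h1; norm_num
  · rw [P.R_small (by omega)]
    have h3 := cN_bound (r - 1)
    have h4 : 2 ^ (r + 1) = 4 * 2 ^ (r - 1) := by
      obtain ⟨m, rfl⟩ : ∃ m, r = m + 1 := ⟨r - 1, by omega⟩
      rw [Nat.add_sub_cancel, pow_succ, pow_succ]; ring
    have h5 := Nat.one_le_two_pow (n := r - 1)
    omega
  · obtain rfl : r = 2 * P.M := by omega
    rw [R_top]
    have h3 := cN_bound (2 * P.M - 2)
    have h4 : 2 ^ (2 * P.M + 1) = 8 * 2 ^ (2 * P.M - 2) := by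
      obtain ⟨m, hm⟩ : ∃ m, P.M = m + 1 := ⟨P.M - 1, by omega⟩
      rw [hm, show 2 * (m + 1) + 1 = 2 * m + 3 by ring, show 2 * (m + 1) - 2 = 2 * m by omega,
        pow_add]
      ring
    have h5 := Nat.one_le_two_pow (n := 2 * P.M - 2)
    omega

/-- the denominator -/
def B : ℕ := P.R (2 * P.M - 1) + 1

theorem B_ge : 3 ≤ P.B := by
  have := cN_pos (2 * P.M - 2)
  unfold B
  rw [R_top]
  omega

theorem B_le : P.B + 1 ≤ 2 ^ (2 * P.M + 1) := by
  have hM := P.hM
  unfold B
  rw [R_top]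
  have h3 := cN_bound (2 * P.M - 2)
  have h4 : 2 ^ (2 * P.M + 1) = 8 * 2 ^ (2 * P.M - 2) := by
    obtain ⟨m, hm⟩ : ∃ m, P.M = m + 1 := ⟨P.M - 1, by omega⟩
    rw [hm, show 2 * (m + 1) + 1 = 2 * m + 3 by ring, show 2 * (m + 1) - 2 = 2 * m by omega,
      pow_add]
    ring
  have h5 := Nat.one_le_two_pow (n := 2 * P.M - 2)
  omega

theorem l_hub' : P.toBase.l (2 * P.M + 1) = 2 * P.B + 1 := by
  rw [P.l_hub, B]; ring

theorem l_pow {n : ℕ} (hn : 2 * P.M + 1 ≤ n) (m : ℕ) :
    2 ^ m * P.toBase.l n ≤ P.toBase.l (n + m) := by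
  induction m with
  | zero => simp
  | succ m ih =>
    have := P.toBase.l_two (n := n + m) (by rw [toBase_j]; omega)
    rw [pow_succ, show n + (m + 1) = n + m + 1 by ring]
    calc 2 ^ m * 2 * P.toBase.l n = 2 * (2 ^ m * P.toBase.l n) := by ring
      _ ≤ 2 * P.toBase.l (n + m) := Nat.mul_le_mul_left _ ih
      _ ≤ _ := this

/-- lengths are monotone -/
theorem l_mono' {m n : ℕ} (h : m ≤ n) : P.toBase.l m ≤ P.toBase.l n := by
  have hM := P.hM
  rcases Nat.lt_or_ge m (2 * P.M + 1) with h1 | h1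
  · rcases Nat.eq_zero_or_pos m with h0 | h0
    · subst h0
      rw [P.l_zero]
      omega
    · rcases Nat.lt_or_ge n (2 * P.M + 1) with h2 | h2
      · rw [P.l_small h0 (by omega), P.l_small (by omega) (by omega)]
        have := P.R_le (m := m - 1) (m' := n - 1) (by omega) (by omega)
        omega
      · have h3 := P.toBase.l_mono (m := 2 * P.M + 1) (n := n) le_rfl h2
        rw [P.l_hub] at h3
        rw [P.l_small h0 (by omega)]
        have := P.R_le (m := m - 1) (m' := 2 * P.M - 1) (by omega) le_rfl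
        omega
  · exact P.toBase.l_mono h1 h

theorem S_G (n : ℕ) : P.B * P.toBase.S n ≤ P.toBase.l (n + (2 * P.M + 1)) := by
  induction n using Nat.strong_induction_on with
  | _ n ih =>
  rcases Nat.lt_or_ge n (2 * P.M + 1) with h | h
  · rw [P.S_small h]
    have h1 := P.e_le h
    have h2 := P.l_pow (n := 2 * P.M + 1) le_rfl n
    rw [P.l_hub', Nat.add_comm (2 * P.M + 1) n] at h2
    calc P.B * P.e n ≤ P.B * 2 ^ (n + 1) := Nat.mul_le_mul_left _ h1
      _ = 2 ^ n * (2 * P.B) := by rw [pow_succ]; ring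
      _ ≤ 2 ^ n * (2 * P.B + 1) := Nat.mul_le_mul_left _ (by omega)
      _ ≤ _ := h2
  · have h1 := Base.S_ge (b := P.toBase) (n := n) h
    rw [toBase_j] at h1
    have h2 := ih (n - (2 * P.M + 1)) (by omega)
    rw [Nat.sub_add_cancel h] at h2
    have h3 := P.l_pow h (2 * P.M + 1)
    have h4 := Nat.mul_le_mul_right (P.toBase.l n) P.B_le
    rw [h1, Nat.mul_add]
    have h5 : (P.B + 1) * P.toBase.l n = P.B * P.toBase.l n + P.toBase.l n := by ring
    omega

theorem S_A (k : ℕ) : 2 * P.B * P.toBase.S k ≤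
    P.toBase.l (k + (2 * P.M + 1)) + (P.B + 1) * P.toBase.l k := by
  have hM := P.hM
  rcases Nat.lt_or_ge k (2 * P.M + 1) with h | h
  · rcases Nat.eq_zero_or_pos k with h0 | h0
    · subst h0
      rw [P.S_small h, zero_add, P.l_hub']
      unfold e
      rw [if_pos rfl]
      omega
    · have h1 := P.S_G k
      have h2 : P.toBase.S k ≤ P.toBase.l k := by
        rw [P.S_small h, P.l_small h0 (by omega)]
        unfold e
        rw [if_neg (by omega)]
        split_ifs with h3
        · omega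
        · obtain rfl : k = 2 * P.M := by omega
          exact le_rfl
      have h3 := Nat.mul_le_mul_left P.B h2
      have h4 : (P.B + 1) * P.toBase.l k = P.B * P.toBase.l k + P.toBase.l k := by ring
      have h5 : 2 * P.B * P.toBase.S k = P.B * P.toBase.S k + P.B * P.toBase.S k := by ring
      omega
  · have h1 := Base.S_ge (b := P.toBase) (n := k) h
    rw [toBase_j] at h1
    have h2 := P.S_G (k - (2 * P.M + 1))
    rw [Nat.sub_add_cancel h] at h2
    have h3 := P.l_pow h (2 * P.M + 1)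
    have h4 := Nat.mul_le_mul_right (P.toBase.l k) P.B_le
    have h5 : 2 * P.B * P.toBase.S k =
        2 * (P.B * P.toBase.l k) + 2 * (P.B * P.toBase.S (k - (2 * P.M + 1))) := by
      rw [h1]; ring
    have h6 : (P.B + 1) * P.toBase.l k = P.B * P.toBase.l k + P.toBase.l k := by ring
    omega

theorem S_hb {k c : ℕ} (hc : c < 2 * P.M + 1) : 2 * P.B * P.toBase.S (k + c) ≤
    (P.B + 1) * (P.toBase.l (k + (2 * P.M + 1)) + 1) := by
  have hM := P.hM
  rcases Nat.lt_or_ge (k + c) (2 * P.M + 1) with h | h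
  · have h1 : P.toBase.S (k + c) ≤ P.B + 1 := by
      rw [P.S_small h]
      unfold e B
      split_ifs with h3 h4
      · omega
      · have := P.R_le (m := k + c - 1) (m' := 2 * P.M - 1) (by omega) le_rfl
        omega
      · exact le_rfl
    have h2 := P.toBase.l_mono (m := 2 * P.M + 1) (n := k + (2 * P.M + 1)) le_rfl (by omega)
    rw [P.l_hub'] at h2
    calc 2 * P.B * P.toBase.S (k + c) ≤ 2 * P.B * (P.B + 1) := Nat.mul_le_mul_left _ h1
      _ = (P.B + 1) * (2 * P.B) := by ring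
      _ ≤ _ := Nat.mul_le_mul_left _ (by omega)
  · have h1 := Base.S_ge (b := P.toBase) (n := k + c) h
    rw [toBase_j] at h1
    have h2 := P.S_G (k + c - (2 * P.M + 1))
    rw [Nat.sub_add_cancel h] at h2
    have h3 := P.toBase.l_mono (m := k + c + 1) (n := k + (2 * P.M + 1)) (by rw [toBase_j]; omega)
      (by omega)
    have h4 := P.toBase.l_two (n := k + c) h
    have h5 : 2 * P.B * P.toBase.S (k + c) =
        2 * P.B * P.toBase.l (k + c) + 2 * (P.B * P.toBase.S (k + c - (2 * P.M + 1))) := by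
      rw [h1]; ring
    have h6 : (P.B + 1) * (2 * P.toBase.l (k + c)) ≤
        (P.B + 1) * (P.toBase.l (k + (2 * P.M + 1)) + 1) := Nat.mul_le_mul_left _ (by omega)
    have h7 : (P.B + 1) * (2 * P.toBase.l (k + c)) =
      2 * P.B * P.toBase.l (k + c) + 2 * P.toBase.l (k + c) := by ring
    omega

/-- passing to real numbers -/
theorem real_of {X Y : ℝ} (h : (P.B : ℝ) * X ≤ (P.B + 1) * Y) : X ≤ (1 + 1 / (P.B : ℝ)) * Y := by
  have hB : (0 : ℝ) < P.B := by
    have := P.B_ge
    exact_mod_cast (show 0 < P.B by omega)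
  have h1 : X ≤ (P.B + 1) * Y / P.B := by
    rw [le_div_iff₀ hB]
    linarith
  have h2 : (P.B + 1) * Y / P.B = (1 + 1 / (P.B : ℝ)) * Y := by
    field_simp
  linarith

theorem expHyp : P.toBase.ExpHyp x0 (1 / (P.B : ℝ)) := by
  have hM := P.hM
  have key : ∀ k, (P.toBase.l (k + (2 * P.M + 1)) : ℝ) + 2 * P.toBase.S k ≤
      (1 + 1 / (P.B : ℝ)) * (P.toBase.l (k + (2 * P.M + 1)) + P.toBase.l k) := by
    intro k
    apply P.real_of
    have h := P.S_A k
    have h' : (2 * P.B * P.toBase.S k : ℝ) ≤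
      P.toBase.l (k + (2 * P.M + 1)) + (P.B + 1) * P.toBase.l k := by exact_mod_cast h
    nlinarith
  refine ⟨natBase, by positivity, ?_, ?_, ?_, ?_, ?_, ?_⟩
  · intro k c c' h1 h2
    rw [toBase_j] at *
    unfold Base.TT
    apply P.real_of
    have h := P.S_hb (k := k) (c := c) (by omega)
    have h' : (2 * P.B * P.toBase.S (k + c) : ℝ) ≤
      (P.B + 1) * (P.toBase.l (k + (2 * P.M + 1)) + 1) := by exact_mod_cast h
    linarith
  · intro k
    have := key k
    rw [toBase_j]
    have h0 : (0 : ℝ) ≤ P.toBase.l (k + (2 * P.M + 1)) := by positivity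
    linarith
  · intro k c h1 h2
    have := P.l_pos' (n := k + c) (by omega)
    omega
  · intro k c h1 h2
    rw [toBase_j]
    simp only [Base.TT, Nat.add_zero]
    have h3 := key k
    have h4 : (P.toBase.l k : ℝ) ≤ P.toBase.l (k + c) := by
      exact_mod_cast P.l_mono' (show k ≤ k + c by omega)
    have h5 : (1 + 1 / (P.B : ℝ)) * (P.toBase.l (k + (2 * P.M + 1)) + P.toBase.l k) ≤
        (1 + 1 / (P.B : ℝ)) * (P.toBase.l (k + (2 * P.M + 1)) + P.toBase.l (k + c)) := by
      apply mul_le_mul_of_nonneg_left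
      · linarith
      · positivity
    linarith
  · intro k x c _ _ _ _ _
    rw [toBase_j]
    simp only [Base.TT, Nat.add_zero]
    have h3 := key k
    linarith
  · intro i p n hp hm hno
    rcases short hp hm hno with h | ⟨h1, h2⟩
    · have h3 : (n : ℝ) ≤ p := by exact_mod_cast h
      have h4 : (0 : ℝ) ≤ 1 / (P.B : ℝ) * p := by positivity
      linarith
    · apply P.real_of
      have h3 : (n : ℝ) ≤ P.B + 1 := by
        have : n ≤ P.B + 1 := by unfold B; omega
        exact_mod_cast this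
      have h4 : (p : ℝ) = P.B := by
        have : p = P.B := by unfold B; omega
        exact_mod_cast this
      rw [h4]
      have hB : (0 : ℝ) ≤ P.B := by positivity
      nlinarith

/-- the last run contains every letter of its side -/
theorem mem_top {i : ℕ} (hi : i < P.M) : ∃ t : ℕ, (RN P.M (2 * P.M - 1))[t]? = some i := by
  have hM := P.hM
  rcases Nat.eq_zero_or_pos i with h0 | h0
  · subst h0
    exact ⟨0, RN_get_zero _ _⟩
  · have h1 := sep_even_get (m := 2 * (i - 1)) (by omega)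
    rw [show 2 * (i - 1) / 2 + 1 = i by omega] at h1
    obtain ⟨⟨r, hr⟩, _⟩ := RN_step (M := P.M) (m := 2 * (i - 1) + 1) (m' := 2 * P.M - 1) P.hM
      (by omega) le_rfl
    refine ⟨(cN (2 * (i - 1))).length, ?_⟩
    rw [← hr, RN_lt (by omega), List.getElem?_append_left (lt_of_some h1), h1]

theorem surj_la : ∃ n, P.toBase.u x0 n = P.la := ⟨_, start 0⟩

theorem surj_lx (σ : Bool) {i : ℕ} (hi : i < P.M) : ∃ n, P.toBase.u x0 n = P.lx σ i := by
  obtain ⟨s, hs⟩ := Base.exists_block (b := P.toBase) σ (c := P.toBase.j) le_rfl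
  rw [toBase_j] at hs
  obtain ⟨t, ht⟩ := P.mem_top hi
  have hM := P.hM
  have hrun : P.RunAt (P.toBase.pos 0 s + 1) σ (2 * P.M - 1) :=
    ⟨s, _, hs, Or.inr ⟨rfl, by omega, Or.inl rfl⟩⟩
  exact ⟨_, hrun.letter ht⟩

end LB

/-- the letters `0, 1, …, 2 M` -/
def fin (M : ℕ) (hM : 2 ≤ M) : LB (Fin (2 * M + 1)) where
  M := M
  la := 0
  lx σ i := Fin.ofNat (2 * M + 1) (2 * i + 1 + σ.toNat)
  hM := hM
  hla σ i hi h := by
    have h1 := congrArg Fin.val h
    simp only [Fin.ofNat, Fin.val_zero] at h1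
    rw [Nat.mod_eq_of_lt (by cases σ <;> simp [Bool.toNat] <;> omega)] at h1
    omega
  inj σ τ i i' hi hi' h := by
    have h1 := congrArg Fin.val h
    simp only [Fin.ofNat] at h1
    rw [Nat.mod_eq_of_lt (by cases σ <;> simp [Bool.toNat] <;> omega),
      Nat.mod_eq_of_lt (by cases τ <;> simp [Bool.toNat] <;> omega)] at h1
    cases σ <;> cases τ <;> simp [Bool.toNat] at h1 ⊢ <;> omega

theorem fin_surj {M : ℕ} (hM : 2 ≤ M) (x0 : Fin (2 * M + 1)) :
    Function.Surjective ((fin M hM).toBase.u x0) := by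
  intro y
  rcases Nat.eq_zero_or_pos y.val with h | h
  · obtain ⟨n, hn⟩ := (fin M hM).surj_la (x0 := x0)
    exact ⟨n, by rw [hn]; exact (Fin.ext h).symm⟩
  · have hy := y.isLt
    rcases Nat.mod_two_eq_zero_or_one y.val with h2 | h2
    · obtain ⟨n, hn⟩ := (fin M hM).surj_lx (x0 := x0) true (i := (y.val - 2) / 2)
        (by change _ < M; omega)
      refine ⟨n, ?_⟩
      rw [hn]
      apply Fin.ext
      change (2 * ((y.val - 2) / 2) + 1 + 1) % (2 * M + 1) = y.val
      rw [Nat.mod_eq_of_lt (by omega)]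
      omega
    · obtain ⟨n, hn⟩ := (fin M hM).surj_lx (x0 := x0) false (i := (y.val - 1) / 2)
        (by change _ < M; omega)
      refine ⟨n, ?_⟩
      rw [hn]
      apply Fin.ext
      change (2 * ((y.val - 1) / 2) + 1 + 0) % (2 * M + 1) = y.val
      rw [Nat.mod_eq_of_lt (by omega)]
      omega

theorem fin_B {M : ℕ} (hM : 2 ≤ M) : (1 : ℝ) / ((fin M hM).B : ℝ) = 6 / (7 * 4 ^ M - 10) := by
  have h1 := (fin M hM).R_top
  have h2 : (fin M hM).B = 2 * (cN (2 * (M - 1))).length + 1 := by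
    unfold LB.B
    rw [h1]
    change 2 * (cN (2 * M - 2)).length + 1 = _
    rw [show 2 * M - 2 = 2 * (M - 1) by omega]
  have h3 := cN_even_len (M - 1)
  have h4 : (4 : ℕ) ^ M = 4 * 4 ^ (M - 1) := by
    obtain ⟨m, rfl⟩ : ∃ m, M = m + 1 := ⟨M - 1, by omega⟩
    rw [Nat.add_sub_cancel, pow_succ]; ring
  have h5 : 6 * (fin M hM).B + 10 = 7 * 4 ^ M := by
    rw [h2, h4]; omega
  have h6 : (7 * 4 ^ M : ℝ) = 6 * ((fin M hM).B : ℝ) + 10 := by exact_mod_cast h5.symm
  rw [h6]
  have hB : (0 : ℝ) < (fin M hM).B := by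
    have := (fin M hM).B_ge
    exact_mod_cast (show 0 < (fin M hM).B by omega)
  field_simp
  ring

/-- **Upper bound for an odd number of letters.** -/
theorem RT_odd {M : ℕ} (hM : 2 ≤ M) :
    RT (2 * M + 1) ≤ ENNReal.ofReal (2 + 6 / (7 * 4 ^ M - 10)) := by
  have h := RT_le (fin M hM).toBase (0 : Fin (2 * M + 1)) (fin M hM).expHyp (fin M hM).rich
    (fin_surj hM 0)
  rwa [fin_B hM] at h

theorem RT_odd' {d : ℕ} (hd : 5 ≤ d) (ho : Odd d) :
    RT d ≤ ENNReal.ofReal (2 + 6 / (7 * 2 ^ (d - 1) - 10)) := by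
  obtain ⟨M, rfl⟩ := ho
  have h := RT_odd (M := M) (by omega)
  rwa [show (4 : ℝ) ^ M = 2 ^ (2 * M + 1 - 1) by
    rw [Nat.add_sub_cancel, pow_mul]; norm_num] at h

end Pool.Agent.Helper77.Odd
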