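import Pool.Agent.Helper77.Odd.OddBase

/-!
The limit word over the base `LB` is rich.
-/

namespace Pool.Agent.Helper77.Odd

open Pool.Agent.Helper20.Rich

variable {α : Type*}

/-- a palindrome at the end that contains the first occurrence of some factor is new. -/
theorem new_of_first {u : ℕ → α} {N a p q : ℕ} (ha : a ≤ p) (hq : p + q ≤ N) (hq0 : 1 ≤ q)
    (hpal : ∀ t < N - a, u (a + t) = u (N - 1 - t))
    (hfirst : ∀ z < p, ¬ ∀ t < q, u (z + t) = u (p + t)) : New u N := by
  refine ⟨a, by omega, hpal, ?_⟩
  intro a' ha' hm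
  apply hfirst (a' + (p - a)) (by omega)
  intro t ht
  have := hm (p - a + t) (by omega)
  rw [show a' + (p - a) + t = a' + (p - a + t) by omega, this]
  congr 1
  omega

namespace Base

variable {b : Base α} {x0 : α}

/-- reflection of a block -/
theorem blk_refl {k s c : ℕ} {σ : Bool} (h : DD b.j s = (σ, c)) {y z : ℕ}
    (hyz : y + z + 1 = b.l (k + c)) :
    b.u x0 (b.pos k s + y) = b.u x0 (b.pos k s + z) := by
  have h1 := pos_block x0 (b := b) k s
  rw [h] at h1
  simp only at h1
  have hpal : (factor (b.u x0) (b.pos k s) (b.l (k + c))).reverse =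
      factor (b.u x0) (b.pos k s) (b.l (k + c)) := by
    unfold Occ at h1
    rw [length_W] at h1
    rw [h1, b.W_pal]
  have := factor_reverse_iff.1 hpal y (by omega)
  rw [this]
  congr 1
  omega

end Base

namespace LB

variable {P : LB α} {x0 : α}

/-- true runs before a given position -/
theorem run_true {q m K : ℕ} (h : P.RunAt q true m) (hK : K ≤ 2 * P.M - 1)
    (hq : q < P.toBase.l (K + 1 + 1 + (2 * P.M + 1))) :
    m < K ∨ (m = K ∧ P.toBase.l (K + 1 + (2 * P.M + 1)) + 1 ≤ q) := by
  have hM := P.hM
  have hmono : ∀ n, K + 1 + 1 + (2 * P.M + 1) ≤ n →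
      P.toBase.l (K + 1 + 1 + (2 * P.M + 1)) ≤ P.toBase.l n := by
    intro n hn
    exact P.toBase.l_mono (by rw [toBase_j]; omega) hn
  obtain ⟨s, c, h0, ⟨h1, h2, h3, h4⟩ | ⟨rfl, h2, h3⟩⟩ := h
  · have h5 := Base.FO_tc (b := P.toBase) c 0 s (by rw [toBase_j]; omega) h0
    rw [toBase_j, Nat.zero_add] at h5
    rcases Nat.lt_trichotomy m K with h | h | h
    · exact Or.inl h
    · right
      subst h3 h
      exact ⟨rfl, by omega⟩
    · exfalso
      have := hmono (c + (2 * P.M + 1)) (by omega)
      omega
  · exfalso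
    have h5 := Base.FO_tj (b := P.toBase) s 0 h0
    rw [toBase_j, Nat.zero_add] at h5
    have := hmono (2 * P.M + 1 + (2 * P.M + 1)) (by omega)
    omega

/-- comparison of a part of a run with a part of another place. -/
theorem in_run {z q : ℕ} {p : ℕ} {σ : Bool} {f : ℕ → ℕ} (hq : 1 ≤ q)
    (hf : ∀ t < q, f t < P.M ∧ P.toBase.u x0 (p + t) = P.lx σ (f t))
    (hm : ∀ t < q, P.toBase.u x0 (z + t) = P.toBase.u x0 (p + t)) :
    ∃ q0 m t0, P.RunAt q0 σ m ∧ z = q0 + t0 ∧ t0 + q ≤ P.R m ∧
      ∀ t < q, (RN P.M m)[t0 + t]? = some (f t) := by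
  have hM := P.hM
  have h0 := hm 0 (by omega)
  rw [Nat.add_zero, (hf 0 (by omega)).2] at h0
  obtain ⟨q0, τ, m, t0, h1, h2, h3⟩ := run_of (P := P) (x0 := x0) (i := z)
    (by rw [h0]; exact P.hla σ _ (hf 0 (by omega)).1)
  have hle : t0 + q ≤ P.R m := by
    by_contra hcon
    have h4 := hm (P.R m - t0) (by omega)
    rw [(hf _ (by omega)).2, show z + (P.R m - t0) = q0 + P.R m by omega, h1.next] at h4
    exact P.hla σ _ (hf (P.R m - t0) (by omega)).1 h4.symm
  have key : ∀ t < q, ∃ y, (RN P.M m)[t0 + t]? = some y ∧ τ = σ ∧ y = f t := by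
    intro t ht
    obtain ⟨y, hy⟩ := some_of_lt (show t0 + t < (RN P.M m).length by
      have : (RN P.M m).length = P.R m := rfl
      omega)
    have h4 := h1.letter (x0 := x0) hy
    rw [show q0 + (t0 + t) = z + t by omega, hm t ht, (hf t ht).2] at h4
    have := P.inj _ _ _ _ (hf t ht).1
      (RN_mem_lt (by omega) h1.le (List.mem_of_getElem? hy)) h4
    exact ⟨y, hy, this.1.symm, this.2.symm⟩
  obtain ⟨y, _, hτ, _⟩ := key 0 (by omega)
  subst hτ
  refine ⟨q0, m, t0, h1, h2, hle, ?_⟩
  intro t ht
  obtain ⟨y, hy, _, hy'⟩ := key t ht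
  rw [hy, hy']

theorem R_def (m : ℕ) : (RN P.M m).length = P.R m := rfl

/-- letters of a longer run -/
theorem RN_get {m m' t z : ℕ} (h : m ≤ m') (h' : m' ≤ 2 * P.M - 1)
    (hz : (RN P.M m)[t]? = some z) : (RN P.M m')[t]? = some z := by
  rcases Nat.eq_or_lt_of_le h with h1 | h1
  · rw [← h1]; exact hz
  · exact getElem?_of_isPre (RN_step P.hM h1 h').1 hz

/-- inside the first true block of index `K + 1` -/
theorem rich_run {K n : ℕ} (hK : K ≤ 2 * P.M - 1) (h1 : pl P.M K < n) (h2 : n ≤ P.R K) :
    New (P.toBase.u x0) (P.toBase.l (K + 1 + (2 * P.M + 1)) + 1 + n) := by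
  have hM := P.hM
  obtain ⟨a, h, q, e1, e2, e3, e4, e5, e6⟩ := RN_new hM hK h1 h2
  set Q := P.toBase.l (K + 1 + (2 * P.M + 1)) with hQ
  -- the run at `Q + 1`
  have hrun : P.RunAt (Q + 1) true K := by
    have h3 := Base.pos_block x0 (b := P.toBase) (K + 1) 1
    rw [DD_one, Base.pos_one, add_zero, toBase_j, P.W_base true (by omega)] at h3
    apply run_start (x0 := x0) hK
    · have := h3.get (P.w_head (by omega))
      rwa [Nat.add_zero] at this
    · intro t ht y hy
      have := h3.get (t := t + 1) (a := P.lx true y) (by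
        rw [P.w_small_run (by omega) (by omega) (by rw [Nat.add_sub_cancel]; exact ht),
          Nat.add_sub_cancel]
        exact P.run_get hy)
      rw [← this]
      congr 1
      omega
    · have := h3.get (P.w_small_last (by omega) (by omega))
      rw [← this, Nat.add_sub_cancel]
      congr 1
      omega
  have hlet : ∀ t < P.R K, ∃ y, (RN P.M K)[t]? = some y ∧ y < P.M ∧
      P.toBase.u x0 (Q + 1 + t) = P.lx true y := by
    intro t ht
    obtain ⟨y, hy⟩ := some_of_lt (show t < (RN P.M K).length from ht)
    exact ⟨y, hy, RN_mem_lt (by omega) hK (List.mem_of_getElem? hy), hrun.letter hy⟩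
  apply new_of_first (a := Q + 1 + a) (p := Q + 1 + h) (q := q) (by omega) (by omega) e3
  · intro t ht
    have h3 := e5 t (by omega)
    obtain ⟨y, hy, _, hy'⟩ := hlet (a + t) (by omega)
    obtain ⟨y', hz, _, hz'⟩ := hlet (n - 1 - t) (by omega)
    rw [hy, hz] at h3
    rw [show Q + 1 + a + t = Q + 1 + (a + t) by omega, hy',
      show Q + 1 + n - 1 - t = Q + 1 + (n - 1 - t) by omega, hz', Option.some.inj h3]
  · intro z hz hm
    have hl := P.toBase.l_succ (n := K + 1 + (2 * P.M + 1)) (by rw [toBase_j]; omega)
    rw [toBase_j, Nat.add_sub_cancel, P.l_small (c := K + 1) (by omega) (by omega),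
      Nat.add_sub_cancel, ← hQ] at hl
    obtain ⟨q0, m, t0, g1, g2, g3, g4⟩ := in_run (P := P) (x0 := x0) (σ := true)
      (p := Q + 1 + h) (q := q) (z := z) (f := fun t => ((RN P.M K)[h + t]?).getD 0) e3
      (by
        intro t ht
        obtain ⟨y, hy, hy1, hy2⟩ := hlet (h + t) (by omega)
        simp only [hy, Option.getD_some]
        exact ⟨hy1, by rw [← hy2]; congr 1; omega⟩) hm
    have g5 := run_true g1 hK (by
      rw [show K + 1 + 1 + (2 * P.M + 1) = K + 1 + (2 * P.M + 1) + 1 by omega, hl]
      omega)
    have hmK : m ≤ K := by omega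
    have ht0 : t0 < h := by
      rcases g5 with g5 | ⟨_, g5⟩
      · by_contra hcon
        have : P.R m ≤ pl P.M K := by
          unfold pl
          rw [if_neg (by omega)]
          exact P.R_le (by omega) (by omega)
        omega
      · omega
    apply e6 t0 ht0
    intro r hr
    have := RN_get (P := P) hmK hK (g4 r hr)
    rw [this]
    obtain ⟨y, hy, _⟩ := hlet (h + r) (by omega)
    rw [hy]
    rfl

theorem first_t {K z : ℕ} (h1 : 1 ≤ K) (hK : K ≤ 2 * P.M)
    (hz : z < P.toBase.l (K + (2 * P.M + 1))) :
    ¬ Occ (P.toBase.u x0) z (P.toBase.W true K) := by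
  intro hocc
  have hM := P.hM
  rw [P.W_base true (by omega)] at hocc
  have hrun : P.RunAt (z + 1) true (K - 1) := by
    apply run_start (x0 := x0) (by omega)
    · have := hocc.get (P.w_head h1)
      rwa [Nat.add_zero] at this
    · intro t ht y hy
      have := hocc.get (t := t + 1) (a := P.lx true y) (by
        rw [P.w_small_run h1 hK ht]
        exact P.run_get hy)
      rw [← this]
      congr 1
      omega
    · have := hocc.get (P.w_small_last h1 hK)
      rw [← this]
      congr 1
      omega
  have hmono := P.toBase.l_mono (m := K + (2 * P.M + 1)) (n := K + 1 + (2 * P.M + 1))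
    (by rw [toBase_j]; omega) (by omega)
  have h2 := P.toBase.l_two (n := K + (2 * P.M + 1)) (by rw [toBase_j]; omega)
  have h3 := P.toBase.l_pos (n := K + (2 * P.M + 1)) (by rw [toBase_j]; omega)
  rw [show K + (2 * P.M + 1) + 1 = K + 1 + (2 * P.M + 1) by omega] at h2
  have := run_true (K := K - 1) hrun (by omega) (by
    rw [Nat.sub_add_cancel h1]
    omega)
  rw [Nat.sub_add_cancel h1] at this
  omega

/-- levels `K < j` -/
theorem rich_t {K N : ℕ} (hK : K < 2 * P.M + 1) (hN : P.toBase.l (K + (2 * P.M + 1)) < N)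
    (hN' : N ≤ P.toBase.l (K + 1 + (2 * P.M + 1))) : New (P.toBase.u x0) N := by
  have hM := P.hM
  have hL : P.toBase.l (K + 1 + (2 * P.M + 1)) =
      2 * P.toBase.l (K + (2 * P.M + 1)) + P.toBase.l K := by
    have := P.toBase.l_succ (n := K + (2 * P.M + 1)) (by rw [toBase_j]; omega)
    rw [toBase_j, Nat.add_sub_cancel] at this
    rw [← this]
    congr 1
    omega
  rcases Nat.eq_zero_or_pos K with h0 | h0
  · subst h0
    rw [P.l_zero, Nat.zero_add (2 * P.M + 1)] at hL
    rw [Nat.zero_add] at hN
    have hh := P.l_hub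
    have hR := P.R_pos (2 * P.M - 1)
    set Q := P.toBase.l (2 * P.M + 1) with hQ
    apply new_of_first (a := P.toBase.l (0 + 1 + (2 * P.M + 1)) - N) (p := Q - 1) (q := 2)
      (by omega) (by omega) (by omega)
    · intro t ht
      apply Base.u_reflect x0 (0 + 1)
      rw [toBase_j]
      omega
    · intro z hz hm
      have hr1 : P.RunAt (P.toBase.pos 0 0 + 1) false (2 * P.M - 1) :=
        ⟨0, _, DD_zero _, Or.inr ⟨rfl, by omega, Or.inl rfl⟩⟩
      have hr2 : P.RunAt (P.toBase.pos 0 0 + (P.R (2 * P.M - 1) + 2)) false (2 * P.M - 1) :=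
        ⟨0, _, DD_zero _, Or.inr ⟨rfl, by omega, Or.inr rfl⟩⟩
      rw [Base.pos_zero] at hr1 hr2
      have g1 := hm 0 (by omega)
      have g2 := hm 1 (by omega)
      have g3 : P.toBase.u x0 (Q - 1 + 0) = P.la := by
        have := hr2.next (x0 := x0)
        rw [← this]
        congr 1
        omega
      have g4 : P.toBase.u x0 (Q - 1 + 1) = P.la := by
        have h3 := Base.pos_hub (b := P.toBase) (k := 0) (DD_zero (2 * P.M + 1))
        rw [Base.pos_zero, toBase_j, Nat.zero_add, Nat.zero_add, Nat.zero_add, ← hQ] at h3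
        have := start (P := P) (x0 := x0) 1
        rw [h3] at this
        rw [← this]
        congr 1
        omega
      rw [g3, Nat.add_zero] at g1
      rw [g4] at g2
      rcases Nat.eq_zero_or_pos z with h1 | h1
      · subst h1
        exact hr1.ne (x0 := x0) (t := 0) (by omega) g2
      · rcases Nat.lt_or_ge z (P.R (2 * P.M - 1) + 1) with h2 | h2
        · refine hr1.ne (x0 := x0) (t := z - 1) (by omega) ?_
          rw [← g1]
          congr 1
          omega
        · rcases Nat.eq_or_lt_of_le h2 with h3 | h3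
          · refine hr2.ne (x0 := x0) (t := 0) (by omega) ?_
            rw [← g2]
            congr 1
            omega
          · refine hr2.ne (x0 := x0) (t := z - (P.R (2 * P.M - 1) + 2)) (by omega) ?_
            rw [← g1]
            congr 1
            omega
  · have hlK := P.l_small (c := K) h0 (by omega)
    obtain ⟨K, rfl⟩ : ∃ K', K = K' + 1 := ⟨K - 1, by omega⟩
    rw [Nat.add_sub_cancel] at hlK
    obtain ⟨v, rfl⟩ : ∃ v, N = P.toBase.l (K + 1 + (2 * P.M + 1)) + v :=
      ⟨N - P.toBase.l (K + 1 + (2 * P.M + 1)), by omega⟩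
    rcases Nat.lt_or_ge v (P.toBase.l (K + 1)) with h1 | h1
    · rcases Nat.lt_or_ge (1 + pl P.M K) v with h2 | h2
      · have := rich_run (P := P) (x0 := x0) (K := K) (n := v - 1) (by omega) (by omega) (by omega)
        rwa [show P.toBase.l (K + 1 + (2 * P.M + 1)) + 1 + (v - 1) =
          P.toBase.l (K + 1 + (2 * P.M + 1)) + v by omega] at this
      · have h3 := Base.new_B1 (b := P.toBase) (x0 := x0) natBase (k := K) (v := v) (by omega)
          (by omega) (by
            rw [toBase_j, P.W_base true (by omega), P.w_small (by omega) (by omega),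
              Nat.add_sub_cancel]
            rcases Nat.eq_zero_or_pos K with h4 | h4
            · subst h4
              have : v = 1 := by unfold pl at h2; rw [if_pos rfl] at h2; omega
              subst this
              rw [P.W_base true (by omega), P.w_zero, P.W_base false (by omega), Nat.zero_add,
                P.w_hub]
              simp
            · have hv : v - 1 ≤ P.R (K - 1) := by
                unfold pl at h2
                rw [if_neg (by omega), R_def] at h2
                omega
              obtain ⟨y, hy⟩ := (RN_step P.hM (show K - 1 < K by omega) (by omega)).1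
              have h5 : P.run true K = P.run true (K - 1) ++ y.map (P.lx true) := by
                unfold run
                rw [← hy, List.map_append]
              rw [P.W_base true (by omega), P.w_small (c := K) h4 (by omega), h5]
              obtain ⟨v', rfl⟩ : ∃ v', v = v' + 1 := ⟨v - 1, by omega⟩
              rw [Nat.add_sub_cancel] at hv
              rw [List.take_succ_cons, List.append_assoc, List.take_append_of_le_length
                (by rw [run_len]; exact hv)]
              rw [List.cons_append, List.cons_prefix_cons]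
              refine ⟨rfl, (List.take_prefix _ _).trans ?_⟩
              rw [List.append_assoc]
              exact List.prefix_append _ _)
        exact h3
    · obtain ⟨x, rfl⟩ : ∃ x, v = P.toBase.l (K + 1) + x := ⟨v - P.toBase.l (K + 1), by omega⟩
      rw [← Nat.add_assoc]
      apply Base.new_ct (b := P.toBase) (k := K + 1) (by rw [toBase_j]; omega) (by omega) hL
      intro z hz
      exact first_t (by omega) (by omega) hz

/-- the first block -/
theorem rich_0 {N : ℕ} (h1 : 1 ≤ N) (h2 : N ≤ P.toBase.l (2 * P.M + 1)) :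
    New (P.toBase.u x0) N := by
  have hM := P.hM
  have hR := P.R_pos (2 * P.M - 1)
  rw [P.l_hub] at h2
  have hr1 : P.RunAt (P.toBase.pos 0 0 + 1) false (2 * P.M - 1) :=
    ⟨0, _, DD_zero _, Or.inr ⟨rfl, by omega, Or.inl rfl⟩⟩
  rw [Base.pos_zero, Nat.zero_add] at hr1
  have hu0 : P.toBase.u x0 0 = P.la := hr1.prev (x0 := x0)
  have hum := hr1.next (x0 := x0)
  have hlet : ∀ t < P.R (2 * P.M - 1), ∃ y, (RN P.M (2 * P.M - 1))[t]? = some y ∧ y < P.M ∧
      P.toBase.u x0 (1 + t) = P.lx false y := by
    intro t ht
    obtain ⟨y, hy⟩ := some_of_lt (show t < (RN P.M (2 * P.M - 1)).length from ht)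
    exact ⟨y, hy, RN_mem_lt (by omega) le_rfl (List.mem_of_getElem? hy), hr1.letter hy⟩
  rcases Nat.lt_or_ge N (P.R (2 * P.M - 1) + 2) with h3 | h3
  · rcases Nat.lt_or_ge N 2 with h4 | h4
    · obtain rfl : N = 1 := by omega
      exact new_one_letter (N := 0) (by intro z hz; omega)
    · -- the level of the run
      have hex : ∃ m, N - 1 ≤ P.R m ∧ m ≤ 2 * P.M - 1 := ⟨2 * P.M - 1, by omega, le_rfl⟩
      classical
      have hm1 := (Nat.find_spec hex).1
      have hm2 := (Nat.find_spec hex).2
      have hm3 : pl P.M (Nat.find hex) < N - 1 := by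
        unfold pl
        split_ifs with h5
        · omega
        · by_contra hcon
          push Not at hcon
          exact Nat.find_min hex (m := Nat.find hex - 1) (by omega) ⟨hcon, by omega⟩
      obtain ⟨a, h, q, e1, e2, e3, e4, e5, e6⟩ := RN_new hM hm2 hm3 hm1
      set m := Nat.find hex
      have hRm := P.R_le hm2 le_rfl
      have hlet' : ∀ t < P.R m, ∃ y, (RN P.M m)[t]? = some y ∧
          P.toBase.u x0 (1 + t) = P.lx false y := by
        intro t ht
        obtain ⟨y, hy⟩ := some_of_lt (show t < (RN P.M m).length from ht)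
        exact ⟨y, hy, hr1.letter (RN_get hm2 le_rfl hy)⟩
      apply new_of_first (a := 1 + a) (p := 1 + h) (q := q) (by omega) (by omega) e3
      · intro t ht
        have h5 := e5 t (by omega)
        obtain ⟨y, hy, hy'⟩ := hlet' (a + t) (by omega)
        obtain ⟨y', hz, hz'⟩ := hlet' (N - 1 - 1 - t) (by omega)
        rw [hy, hz] at h5
        rw [show 1 + a + t = 1 + (a + t) by omega, hy',
          show N - 1 - t = 1 + (N - 1 - 1 - t) by omega, hz', Option.some.inj h5]
      · intro z hz hm
        rcases Nat.eq_zero_or_pos z with h5 | h5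
        · subst h5
          have := hm 0 (by omega)
          rw [Nat.add_zero, Nat.add_zero, hu0] at this
          exact hr1.ne (x0 := x0) (t := h) (by omega) this.symm
        · apply e6 (z - 1) (by omega)
          intro r hr
          have h6 := hm r hr
          obtain ⟨y, hy, hy'⟩ := hlet' (z - 1 + r) (by omega)
          obtain ⟨y', hy1, hy1'⟩ := hlet' (h + r) (by omega)
          rw [show z + r = 1 + (z - 1 + r) by omega, hy',
            show 1 + h + r = 1 + (h + r) by omega, hy1'] at h6
          have := (P.inj _ _ _ _ (RN_mem_lt (by omega) hm2 (List.mem_of_getElem? hy))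
            (RN_mem_lt (by omega) hm2 (List.mem_of_getElem? hy1)) h6).2
          rw [hy, hy1, this]
  · rcases Nat.eq_or_lt_of_le h3 with h4 | h4
    · -- a R a
      refine ⟨0, by omega, ?_, fun a' ha' => by omega⟩
      intro t ht
      rw [Nat.zero_add]
      rcases Nat.eq_zero_or_pos t with h5 | h5
      · subst h5
        rw [hu0, show N - 1 - 0 = 1 + P.R (2 * P.M - 1) by omega, hum]
      · rcases Nat.lt_or_ge t (P.R (2 * P.M - 1) + 1) with h6 | h6
        · obtain ⟨y, hy, _, hy'⟩ := hlet (t - 1) (by omega)
          obtain ⟨y', hy1, _, hy1'⟩ := hlet (N - 1 - t - 1) (by omega)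
          have := pal_get (RN_pal P.M (2 * P.M - 1)) (y := t - 1) (z := N - 1 - t - 1)
            (by rw [R_def]; omega)
          rw [hy, hy1] at this
          rw [show t = 1 + (t - 1) by omega, hy',
            show N - 1 - (1 + (t - 1)) = 1 + (N - 1 - t - 1) by omega, hy1', Option.some.inj this]
        · rw [show t = 1 + P.R (2 * P.M - 1) by omega, hum,
            show N - 1 - (1 + P.R (2 * P.M - 1)) = 0 by omega, hu0]
    · apply new_of_first (a := 2 * P.R (2 * P.M - 1) + 3 - N) (p := P.R (2 * P.M - 1)) (q := 3)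
        (by omega) (by omega) (by omega)
      · intro t ht
        apply Base.u_reflect x0 0
        rw [toBase_j, Nat.zero_add, P.l_hub]
        omega
      · intro z hz hm
        have := hm 1 (by omega)
        rw [show P.R (2 * P.M - 1) + 1 = 1 + P.R (2 * P.M - 1) by omega, hum,
          show z + 1 = 1 + z by omega] at this
        exact hr1.ne (x0 := x0) (t := z) (by omega) this

end LB

end Pool.Agent.Helper77.Odd
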