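import Pool.Agent.Helper77.Odd.OddRich

/-!
The limit word over the base `LB` is rich, second part.
-/

namespace Pool.Agent.Helper77.Odd

open Pool.Agent.Helper20.Rich

variable {α : Type*}

namespace LB

variable {P : LB α} {x0 : α}

theorem run_at_block {s c : ℕ} {τ : Bool} (h : DD (2 * P.M + 1) s = (τ, c)) (hc : 1 ≤ c) :
    (∃ m, P.RunAt (P.toBase.pos 0 s + 1) τ m) ∧
    ∃ q m, P.RunAt q τ m ∧ q + P.R m + 1 = P.toBase.pos 0 (s + 1) ∧
      P.toBase.pos 0 s < q := by
  have hM := P.hM
  have hc' := P.DD_idx s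
  have hp := P.pos_s h
  rw [h] at hc'
  simp only at hc'
  rcases Nat.lt_or_ge c (2 * P.M + 1) with h1 | h1
  · rw [P.l_small hc (by omega)] at hp
    have hrun : P.RunAt (P.toBase.pos 0 s + 1) τ (c - 1) :=
      ⟨s, c, h, Or.inl ⟨hc, by omega, by omega, rfl⟩⟩
    exact ⟨⟨_, hrun⟩, _, _, hrun, by omega, by omega⟩
  · obtain rfl : c = 2 * P.M + 1 := by omega
    rw [P.l_hub] at hp
    exact ⟨⟨2 * P.M - 1, s, _, h, Or.inr ⟨rfl, by omega, Or.inl rfl⟩⟩, _, 2 * P.M - 1,
      ⟨s, _, h, Or.inr ⟨rfl, by omega, Or.inr rfl⟩⟩, by omega, by omega⟩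

theorem blk_first {s c : ℕ} {τ : Bool} (h : DD (2 * P.M + 1) s = (τ, c)) (hc : 1 ≤ c) :
    P.toBase.u x0 (P.toBase.pos 0 s + 1) = P.lx τ 0 := by
  obtain ⟨m, hm⟩ := (run_at_block h hc).1
  exact hm.letter (t := 0) (RN_get_zero _ _)

theorem blk_end {s c : ℕ} {τ : Bool} (h : DD (2 * P.M + 1) s = (τ, c)) (hc : 1 ≤ c) :
    3 ≤ P.toBase.pos 0 (s + 1) ∧
    P.toBase.u x0 (P.toBase.pos 0 (s + 1) - 2) = P.lx τ 0 ∧
    P.toBase.u x0 (P.toBase.pos 0 (s + 1) - 1) = P.la := by
  obtain ⟨q, m, h1, h2, h3⟩ := (run_at_block h hc).2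
  have hR := P.R_pos m
  refine ⟨by omega, ?_, ?_⟩
  · have := h1.letter (x0 := x0) (t := P.R m - 1) (RN_get_last _ _)
    rw [← this]
    congr 1
    omega
  · have := h1.next (x0 := x0)
    rw [← this]
    congr 1
    omega

/-- two adjacent letters `a` are the boundary of two blocks. -/
theorem aa_pair {q : ℕ} (h1 : P.toBase.u x0 q = P.la) (h2 : P.toBase.u x0 (q + 1) = P.la) :
    ∃ s1 τ1 c1 s2 τ2 c2, DD (2 * P.M + 1) s1 = (τ1, c1) ∧ 1 ≤ c1 ∧
      P.toBase.pos 0 (s1 + 1) = q + 1 ∧ DD (2 * P.M + 1) s2 = (τ2, c2) ∧ 1 ≤ c2 ∧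
      P.toBase.pos 0 s2 = q + 1 ∧ s1 < s2 := by
  have hM := P.hM
  obtain ⟨s1, τ1, c1, g1, g2, g3, g4, g5⟩ := cases_letter (P := P) (x0 := x0) q
  obtain ⟨s2, τ2, c2, k1, k2, k3, k4, k5⟩ := cases_letter (P := P) (x0 := x0) (q + 1)
  have e1 : P.toBase.pos 0 (s1 + 1) = q + 1 := by
    rcases g5 with ⟨_, g5 | g5 | ⟨rfl, g5⟩⟩ | ⟨g5, _⟩
    · exfalso
      have := blk_first (x0 := x0) g1 g2
      rw [← g5, h2] at this
      exact P.hzero _ this.symm
    · exact g5.symm
    · exfalso
      have hr2 : P.RunAt (P.toBase.pos 0 s1 + (P.R (2 * P.M - 1) + 2)) τ1 (2 * P.M - 1) :=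
        ⟨s1, _, g1, Or.inr ⟨rfl, by omega, Or.inr rfl⟩⟩
      have := hr2.letter (x0 := x0) (t := 0) (RN_get_zero _ _)
      rw [show P.toBase.pos 0 s1 + (P.R (2 * P.M - 1) + 2) + 0 = q + 1 by omega, h2] at this
      exact P.hzero _ this.symm
    · exact absurd h1 g5
  have hlt : s1 < s2 := by
    by_contra hcon
    have := Base.pos_mono (b := P.toBase) 0 (show s2 + 1 ≤ s1 + 1 by omega)
    omega
  have := Base.pos_mono (b := P.toBase) 0 (show s1 + 1 ≤ s2 by omega)
  exact ⟨s1, τ1, c1, s2, τ2, c2, g1, g2, e1, k1, k2, by omega, hlt⟩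

theorem hub_split (σ : Bool) : P.w σ (2 * P.M + 1) =
    P.w σ (2 * P.M) ++ (P.run σ (2 * P.M - 1) ++ [P.la]) := by
  have hM := P.hM
  rw [P.w_hub, P.w_small (by omega) le_rfl]
  simp

theorem R_last (m : ℕ) : (RN P.M m)[P.R m - 1]? = some 0 := RN_get_last _ _

/-- inside the first true hub -/
theorem rich_j {N : ℕ} (h1 : P.toBase.l (2 * P.M + 1 + (2 * P.M + 1)) < N)
    (h2 : N < P.toBase.l (2 * P.M + 1 + (2 * P.M + 1)) + P.toBase.l (2 * P.M + 1)) :
    New (P.toBase.u x0) N := by
  have hM := P.hM
  have hR := P.R_pos (2 * P.M - 1)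
  rw [P.l_hub] at h2
  obtain ⟨v, rfl⟩ : ∃ v, N = P.toBase.l (2 * P.M + 1 + (2 * P.M + 1)) + v :=
    ⟨N - P.toBase.l (2 * P.M + 1 + (2 * P.M + 1)), by omega⟩
  rcases Nat.lt_or_ge v (P.R (2 * P.M - 1) + 3) with h3 | h3
  · apply Base.new_B1 (b := P.toBase) (x0 := x0) natBase (k := 2 * P.M) (v := v) (by omega)
      (by rw [P.l_hub]; omega)
    rw [P.W_base true le_rfl, hub_split, P.W_base true (by omega),
      List.take_append_of_le_length (by rw [P.w_small_len (by omega) le_rfl]; omega)]
    exact (List.take_prefix _ _).trans (List.prefix_append _ _)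
  · set Q := P.toBase.l (2 * P.M + 1 + (2 * P.M + 1)) with hQ
    have hblk : Occ (P.toBase.u x0) Q (P.w true (2 * P.M + 1)) := by
      have h3 := Base.pos_block x0 (b := P.toBase) (2 * P.M + 1) 1
      rw [DD_one, Base.pos_one, add_zero, toBase_j, P.W_base true le_rfl] at h3
      exact h3
    apply new_of_first (a := Q + 2 * P.R (2 * P.M - 1) + 3 - v) (p := Q + P.R (2 * P.M - 1))
      (q := 3) (by omega) (by omega) (by omega)
    · intro t ht
      have := Base.blk_refl (b := P.toBase) (x0 := x0) (k := 2 * P.M + 1) (s := 1) (c := 0)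
        (σ := true) (DD_one _) (y := 2 * P.R (2 * P.M - 1) + 3 - v + t) (z := v - 1 - t)
        (by rw [Nat.add_zero, P.l_hub]; omega)
      rw [Base.pos_one, toBase_j, ← hQ] at this
      rw [show Q + 2 * P.R (2 * P.M - 1) + 3 - v + t =
        Q + (2 * P.R (2 * P.M - 1) + 3 - v + t) by omega, this]
      congr 1
      omega
    · intro z hz hm
      have g0 := hm 0 (by omega)
      have g1 := hm 1 (by omega)
      have g2 := hm 2 (by omega)
      have k0 : P.toBase.u x0 (Q + P.R (2 * P.M - 1) + 0) = P.lx true 0 := by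
        have := hblk.get (t := P.R (2 * P.M - 1) - 1 + 1)
          (by rw [P.w_hub_run (by omega)]; exact P.run_get (R_last _))
        rw [← this]
        congr 1
        omega
      have k1 : P.toBase.u x0 (Q + P.R (2 * P.M - 1) + 1) = P.la := by
        have := hblk.get P.w_hub_mid
        rw [← this]
        congr 1
      have k2 : P.toBase.u x0 (Q + P.R (2 * P.M - 1) + 2) = P.lx true 0 := by
        have := hblk.get (t := P.R (2 * P.M - 1) + 2 + 0)
          (by rw [P.w_hub_run2 (by omega)]; exact P.run_head _ _)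
        rw [← this]
        congr 1
      rw [k0, Nat.add_zero] at g0
      rw [k1] at g1
      rw [k2] at g2
      obtain ⟨s, τ, e1, e2, e3⟩ := single (P := P) (x0 := x0) (q := z + 1) (by omega) g1
        (by rw [Nat.add_sub_cancel, g0]; exact P.hzero _)
        (by rw [show z + 1 + 1 = z + 2 by rfl, g2]; exact P.hzero _)
      have e4 := e3.letter (x0 := x0) (t := P.R (2 * P.M - 1) - 1) (R_last _)
      rw [show P.toBase.pos 0 s + 1 + (P.R (2 * P.M - 1) - 1) = z by omega, g0] at e4
      obtain rfl := (P.inj _ _ 0 0 (by omega) (by omega) e4).1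
      have e5 := Base.FO_tj (b := P.toBase) s 0 e1
      rw [toBase_j, Nat.zero_add] at e5
      omega

theorem take_hub {r y : ℕ} (hr : r < 2 * P.M + 1) (hy : y ≤ P.e r) {Z : List α}
    (hZ : [P.la] <+: Z) : (P.w false r ++ Z).take y <+: P.w false (2 * P.M + 1) := by
  have hM := P.hM
  unfold e at hy
  split_ifs at hy with h1 h2
  · subst h1
    rw [P.w_zero, List.nil_append]
    obtain ⟨Z', rfl⟩ := hZ
    rw [P.w_hub]
    have : y = 0 ∨ y = 1 := by omega
    rcases this with rfl | rfl
    · simp
    · simp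
  · rw [P.w_small (by omega) (by omega)]
    rcases Nat.eq_zero_or_pos y with h3 | h3
    · subst h3; simp
    · obtain ⟨y, rfl⟩ : ∃ y', y = y' + 1 := ⟨y - 1, by omega⟩
      obtain ⟨T, hT⟩ := (RN_step P.hM (show r - 1 < 2 * P.M - 1 by omega) le_rfl).1
      have h5 : P.run false (2 * P.M - 1) = P.run false (r - 1) ++ T.map (P.lx false) := by
        unfold run
        rw [← hT, List.map_append]
      rw [P.w_hub, h5, List.cons_append, List.take_succ_cons, List.append_assoc,
        List.take_append_of_le_length (by rw [run_len]; omega), List.cons_prefix_cons]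
      refine ⟨rfl, (List.take_prefix _ _).trans ?_⟩
      rw [List.append_assoc]
      exact List.prefix_append _ _
  · obtain rfl : r = 2 * P.M := by omega
    rw [hub_split, List.take_append_of_le_length (by rw [P.w_small_len (by omega) le_rfl]; omega)]
    exact (List.take_prefix _ _).trans (List.prefix_append _ _)

theorem first_f {r z : ℕ} (h1 : 1 ≤ r) (hr : r < 2 * P.M)
    (hz : z < P.toBase.l (r + (2 * P.M + 1) + 1 + (2 * P.M + 1)) +
      P.toBase.l (r + (2 * P.M + 1))) :
    ¬ Occ (P.toBase.u x0) z (P.toBase.W false r) := by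
  intro hocc
  have hM := P.hM
  rw [P.W_base false (by omega)] at hocc
  have hrun : P.RunAt (z + 1) false (r - 1) := by
    apply run_start (x0 := x0) (by omega)
    · have := hocc.get (P.w_head h1)
      rwa [Nat.add_zero] at this
    · intro t ht y hy
      have := hocc.get (t := t + 1) (a := P.lx false y) (by
        rw [P.w_small_run h1 hr.le ht]
        exact P.run_get hy)
      rw [← this]
      congr 1
      omega
    · have := hocc.get (P.w_small_last h1 hr.le)
      rw [← this]
      congr 1
      omega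
  obtain ⟨s, c, g0, ⟨g1, g2, g3, g4⟩ | ⟨rfl, g2, g3⟩⟩ := hrun
  · obtain rfl : c = r := by omega
    have := Base.FO_fc (b := P.toBase) c 0 s (by rw [toBase_j]; omega) g0
    rw [toBase_j, Nat.zero_add, show c + 1 + (2 * P.M + 1) + (2 * P.M + 1) =
      c + (2 * P.M + 1) + 1 + (2 * P.M + 1) by omega] at this
    omega
  · omega

/-- the first false separators -/
theorem rich_f {r N : ℕ} (hr : r < 2 * P.M + 1)
    (hN : P.toBase.l (r + (2 * P.M + 1) + 1 + (2 * P.M + 1)) + P.toBase.l (r + (2 * P.M + 1)) < N)
    (hN' : N < P.toBase.l (r + (2 * P.M + 1) + 1 + (2 * P.M + 1)) +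
      P.toBase.l (r + (2 * P.M + 1) + 1)) :
    New (P.toBase.u x0) N := by
  have hM := P.hM
  have hR := P.R_pos (2 * P.M - 1)
  obtain ⟨hblk, hl⟩ := Base.blk_f (b := P.toBase) (x0 := x0) r
  rw [toBase_j] at hblk hl
  obtain ⟨y, rfl⟩ : ∃ y, N = P.toBase.l (r + (2 * P.M + 1) + 1 + (2 * P.M + 1)) +
    P.toBase.l (r + (2 * P.M + 1)) + y := ⟨N - (P.toBase.l (r + (2 * P.M + 1) + 1 + (2 * P.M + 1)) +
    P.toBase.l (r + (2 * P.M + 1))), by omega⟩
  have hhead : ∀ σ, [P.la] <+: P.toBase.W σ (r + (2 * P.M + 1)) := by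
    intro σ
    have := P.toBase.W_isPre (σ := σ) (m := 2 * P.M + 1) (n := r + (2 * P.M + 1)) le_rfl (by omega)
    refine List.IsPrefix.trans ?_ this
    rw [P.W_base σ le_rfl, P.w_hub]
    simp
  rcases Nat.lt_or_ge (P.e r) y with h1 | h1
  · -- beyond the overlap
    have hA := P.toBase.l_pos (n := r + (2 * P.M + 1)) (by rw [toBase_j]; omega)
    rcases Nat.eq_zero_or_pos r with h0 | h0
    · subst h0
      rw [P.l_zero] at hl
      have he : P.e 0 = 1 := by unfold e; rw [if_pos rfl]
      rw [he] at h1
      have hlj := P.l_hub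
      have hAj : P.toBase.l (0 + (2 * P.M + 1)) = 2 * P.R (2 * P.M - 1) + 3 := by
        rw [Nat.zero_add, hlj]
      rw [P.W_base false (by omega), P.w_zero, List.append_nil] at hblk
      set Q := P.toBase.l (0 + (2 * P.M + 1) + 1 + (2 * P.M + 1)) with hQ
      set A := P.toBase.l (0 + (2 * P.M + 1)) with hA'
      obtain ⟨b1, b2⟩ := occ_append.1 hblk
      rw [Base.length_W, ← hA'] at b2
      rw [P.W_base true (by omega), Nat.zero_add] at b1 b2
      have hlast := b1.get P.w_hub_last
      have hl2 := b1.get (t := P.R (2 * P.M - 1) + 2 + (P.R (2 * P.M - 1) - 1))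
          (by rw [P.w_hub_run2 (by omega)]; exact P.run_get (R_last _))
      have hf1 := b2.get (P.w_head (by omega))
      have hf2 := b2.get (t := 0 + 1) (by rw [P.w_hub_run (by omega)]; exact P.run_head _ _)
      apply new_of_first (a := Q + A - y) (p := Q + A - 2) (q := 4) (by omega) (by omega)
        (by omega)
      · intro t ht
        have := Base.refl_f (b := P.toBase) (x0 := x0) 0 (y := A - y + t) (z := A + y - 1 - t)
          (by rw [toBase_j]; omega)
        rw [toBase_j, ← hQ] at this
        rw [show Q + A - y + t = Q + (A - y + t) by omega, this]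
        congr 1
        omega
      · intro z hz hm
        have g0 := hm 0 (by omega)
        have g1 := hm 1 (by omega)
        have g2 := hm 2 (by omega)
        have g3 := hm 3 (by omega)
        rw [show Q + A - 2 + 0 = Q + (P.R (2 * P.M - 1) + 2 + (P.R (2 * P.M - 1) - 1)) by omega,
          hl2, Nat.add_zero] at g0
        rw [show Q + A - 2 + 1 = Q + (2 * P.R (2 * P.M - 1) + 2) by omega, hlast] at g1
        rw [show Q + A - 2 + 2 = Q + A + 0 by omega, hf1] at g2
        rw [show Q + A - 2 + 3 = Q + A + (0 + 1) by omega, hf2] at g3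
        obtain ⟨s1, τ1, c1, s2, τ2, c2, e1, e2, e3, e4, e5, e6, e7⟩ :=
          aa_pair (P := P) (x0 := x0) (q := z + 1) g1 g2
        have e8 := (blk_end (x0 := x0) e1 e2).2.1
        rw [e3, show z + 1 + 1 - 2 = z by omega, g0] at e8
        obtain rfl := (P.inj _ _ 0 0 (by omega) (by omega) e8).1
        have e9 := blk_first (x0 := x0) e4 e5
        rw [e6, show z + 1 + 1 + 1 = z + 3 by rfl, g3] at e9
        obtain rfl := (P.inj _ _ 0 0 (by omega) (by omega) e9).1
        have hside := Base.side_alt (b := P.toBase) s1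
        rw [toBase_j, e1] at hside
        have hne : s2 ≠ s1 + 1 := by
          rintro rfl
          rw [e4] at hside
          simp at hside
        obtain ⟨c3, hc3⟩ : ∃ c3, DD (2 * P.M + 1) (s1 + 1) = (false, c3) := by
          refine ⟨(DD (2 * P.M + 1) (s1 + 1)).2, ?_⟩
          ext
          · rw [hside]; simp
          · rfl
        have hp := P.pos_s hc3
        have hmono := Base.pos_mono (b := P.toBase) 0 (show s1 + 1 + 1 ≤ s2 by omega)
        have hc0 : c3 = 0 := by
          by_contra hcon
          have := P.l_pos' (n := c3) (by omega)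
          omega
        subst hc0
        have := Base.FO_fc (b := P.toBase) 0 0 (s1 + 1) (by rw [toBase_j]; omega) hc3
        rw [toBase_j] at this
        simp only [Nat.zero_add] at this hQ hA'
        rw [show 1 + (2 * P.M + 1) + (2 * P.M + 1) = 2 * P.M + 1 + 1 + (2 * P.M + 1) by omega]
          at this
        omega
    · rcases Nat.lt_or_ge r (2 * P.M) with h2 | h2
      · have he : P.e r = 1 + P.R (r - 1) := by
          unfold e; rw [if_neg (by omega), if_pos h2]
        have hlr := P.l_small h0 h2.le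
        obtain ⟨x, rfl⟩ : ∃ x, y = P.toBase.l r + x := ⟨y - P.toBase.l r, by omega⟩
        rw [← Nat.add_assoc]
        apply Base.new_cf (b := P.toBase) (r := r) (by rw [toBase_j]; omega) (by omega)
        intro z hz
        exact first_f h0 h2 hz
      · obtain rfl : r = 2 * P.M := by omega
        have he : P.e (2 * P.M) = P.R (2 * P.M - 1) + 2 := by
          unfold e; rw [if_neg (by omega), if_neg (by omega)]
        have hlr := P.l_small (c := 2 * P.M) (by omega) le_rfl
        rw [he] at h1
        set Q := P.toBase.l (2 * P.M + (2 * P.M + 1) + 1 + (2 * P.M + 1)) with hQ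
        set A := P.toBase.l (2 * P.M + (2 * P.M + 1)) with hA'
        obtain ⟨b12, b3⟩ := occ_append.1 hblk
        obtain ⟨b1, b2⟩ := occ_append.1 b12
        rw [Base.length_W, ← hA', P.W_base false (by omega)] at b2
        rw [List.length_append, Base.length_W, Base.length_W, ← hA', hlr] at b3
        have k0 : P.toBase.u x0 (Q + A - 1) = P.la := by
          have h4 : (P.toBase.W true (2 * P.M + (2 * P.M + 1)))[A - 1]? = some P.la := by
            rw [pal_get (P.toBase.W_pal _ _) (z := 0) (by rw [Base.length_W]; omega)]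
            exact getElem?_of_isPre (hhead true) rfl
          have := b1.get h4
          rw [← this]
          congr 1
          omega
        have k1 := b2.get (P.w_head (by omega))
        have k3 := b2.get (P.w_small_last (by omega) le_rfl)
        have k4 : P.toBase.u x0 (Q + (A + (P.R (2 * P.M - 1) + 2)) + 0) = P.la :=
          b3.get (getElem?_of_isPre (hhead true) rfl)
        apply new_of_first (a := Q + A + (P.R (2 * P.M - 1) + 2) - y) (p := Q + A - 1)
          (q := P.R (2 * P.M - 1) + 4) (by omega) (by omega) (by omega)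
        · intro t ht
          have := Base.refl_f (b := P.toBase) (x0 := x0) (2 * P.M)
            (y := A + (P.R (2 * P.M - 1) + 2) - y + t) (z := A + y - 1 - t)
            (by rw [toBase_j]; omega)
          rw [toBase_j, ← hQ] at this
          rw [show Q + A + (P.R (2 * P.M - 1) + 2) - y + t =
            Q + (A + (P.R (2 * P.M - 1) + 2) - y + t) by omega, this]
          congr 1
          omega
        · intro z hz hm
          have g0 := hm 0 (by omega)
          have g1 := hm 1 (by omega)
          have g3 := hm (P.R (2 * P.M - 1) + 2) (by omega)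
          have g4 := hm (P.R (2 * P.M - 1) + 3) (by omega)
          rw [Nat.add_zero, Nat.add_zero, k0] at g0
          rw [show Q + A - 1 + 1 = Q + A + 0 by omega, k1] at g1
          rw [show Q + A - 1 + (P.R (2 * P.M - 1) + 2) = Q + A + (P.R (2 * P.M - 1) + 1) by omega,
            k3] at g3
          rw [show Q + A - 1 + (P.R (2 * P.M - 1) + 3) =
            Q + (A + (P.R (2 * P.M - 1) + 2)) + 0 by omega, k4] at g4
          have hrun : P.RunAt (z + 1 + 1) false (2 * P.M - 1) := by
            apply run_start (x0 := x0) (z := z + 1) le_rfl g1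
            · intro t ht w hw
              have e1 := hm (t + 2) (by omega)
              have e2 := b2.get (t := t + 1) (a := P.lx false w) (by
                rw [P.w_small_run (by omega) le_rfl ht]
                exact P.run_get hw)
              rw [show z + 1 + 1 + t = z + (t + 2) by omega, e1,
                show Q + A - 1 + (t + 2) = Q + A + (t + 1) by omega, e2]
            · rw [← g3]
              congr 1
              omega
          obtain ⟨s, c, q0, ⟨q1, q2, q3, q4⟩ | ⟨rfl, q2, q3 | q3⟩⟩ := hrun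
          · obtain rfl : c = 2 * P.M := by omega
            have := Base.FO_fc (b := P.toBase) (2 * P.M) 0 s (by rw [toBase_j]; omega) q0
            rw [toBase_j, Nat.zero_add, show 2 * P.M + 1 + (2 * P.M + 1) + (2 * P.M + 1) =
              2 * P.M + (2 * P.M + 1) + 1 + (2 * P.M + 1) by omega] at this
            omega
          · have hr2 : P.RunAt (P.toBase.pos 0 s + (P.R (2 * P.M - 1) + 2)) false (2 * P.M - 1) :=
              ⟨s, _, q0, Or.inr ⟨rfl, by omega, Or.inr rfl⟩⟩
            apply hr2.ne (x0 := x0) (t := 0) (by omega)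
            rw [← g4]
            congr 1
            omega
          · have hr1 : P.RunAt (P.toBase.pos 0 s + 1) false (2 * P.M - 1) :=
              ⟨s, _, q0, Or.inr ⟨rfl, by omega, Or.inl rfl⟩⟩
            apply hr1.ne (x0 := x0) (t := P.R (2 * P.M - 1) - 1) (by omega)
            rw [← g0]
            congr 1
            omega
  · -- inside the overlap
    rw [Nat.add_assoc]
    have hlt := P.toBase.l_pos (n := r + (2 * P.M + 1)) (by rw [toBase_j]; omega)
    apply Base.new_B1 (b := P.toBase) (x0 := x0) natBase (k := r + (2 * P.M + 1))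
      (v := P.toBase.l (r + (2 * P.M + 1)) + y) (by omega) (by omega)
    have hW := P.toBase.W_succ (σ := true) (n := r + (2 * P.M + 1)) (by rw [toBase_j]; omega)
    rw [toBase_j, Nat.add_sub_cancel, List.append_assoc] at hW
    rw [hW, List.take_append, Base.length_W, Nat.add_sub_cancel_left,
      List.take_of_length_le (by rw [Base.length_W]; omega), List.prefix_append_right_inj]
    have := take_hub (P := P) hr h1 (hhead true)
    rw [Bool.not_true, P.W_base false hr.le]
    refine this.trans ?_
    rw [← P.W_base false le_rfl]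
    exact P.toBase.W_isPre (by rw [toBase_j]) (by rw [toBase_j]; omega)

/-- the limit word is rich -/
theorem rich : IsRich (P.toBase.u x0) := by
  apply isRich_of_new
  have key : ∀ K N, 1 ≤ N → N ≤ P.toBase.l (K + (2 * P.M + 1)) → New (P.toBase.u x0) N := by
    intro K
    induction K with
    | zero =>
      intro N h1 h2
      rw [Nat.zero_add] at h2
      exact rich_0 h1 h2
    | succ K ih =>
      intro N h1 h2
      rcases Nat.lt_or_ge (P.toBase.l (K + (2 * P.M + 1))) N with h3 | h3
      · rcases Nat.lt_or_ge K (2 * P.M + 1) with h4 | h4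
        · exact rich_t h4 h3 h2
        · apply Base.new_step (b := P.toBase) natBase h4 h3 h2
          · intro M h5 h6
            exact rich_j h5 h6
          · intro r hr M h5 h6
            exact rich_f hr h5 h6
      · exact ih N h1 h3
  intro N h1
  exact key N N h1 (P.toBase.l_gt N).le

end LB

end Pool.Agent.Helper77.Odd
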